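import Mathlib

/-!
# Irreducible groups containing two transvections with the same centre
-/

set_option autoImplicit false

namespace Pool.Agent.Lib.MP_9675a1_al

section Grp

open Module

variable {F V : Type} [Field F] [AddCommGroup V] [Module F V] {M : Submonoid (End F V)}

/-- The transvection with centre `x` and functional `φ` lies in `M`. -/
def Grp_S (M : Submonoid (End F V)) (x : V) (φ : V →ₗ[F] F) : Prop :=
  φ x = 0 ∧ 1 + φ.smulRight x ∈ M

/-- Subspaces preserved by the transvections in `M`. -/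
def Grp_St (M : Submonoid (End F V)) (W : Submodule F V) : Prop :=
  ∀ x φ w, Grp_S M x φ → w ∈ W → φ w • x ∈ W

/-- The properties of `M` that are used below. -/
structure Grp_H (M : Submonoid (End F V)) : Prop where
  inv : ∀ g ∈ M, ∃ g' ∈ M, g * g' = 1 ∧ g' * g = 1
  smul : ∀ x φ (c : F), Grp_S M x φ → Grp_S M x (c • φ)
  irr : ∀ W : Submodule F V, (∀ g ∈ M, ∀ w ∈ W, g w ∈ W) → W = ⊥ ∨ W = ⊤

theorem Grp_cancel {g g' : End F V} (h : g * g' = 1) (v : V) : g (g' v) = v := by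
  rw [← End.mul_apply, h, End.one_apply]

theorem Grp_conj {x : V} {φ : V →ₗ[F] F} (h : Grp_S M x φ) {g g' : End F V} (hg : g ∈ M)
    (hg' : g' ∈ M) (h1 : g * g' = 1) (h2 : g' * g = 1) : Grp_S M (g x) (φ ∘ₗ g') := by
  refine ⟨by rw [LinearMap.comp_apply, Grp_cancel h2, h.1], ?_⟩
  have h3 := M.mul_mem (M.mul_mem hg h.2) hg'
  convert h3 using 1
  ext v
  simp [Grp_cancel h1]

theorem Grp_zero (x : V) : Grp_S M x 0 := ⟨rfl, by simp⟩

theorem Grp_zero' (φ : V →ₗ[F] F) : Grp_S M 0 φ := ⟨map_zero φ, by simp⟩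

theorem Grp_add {x : V} {φ χ : V →ₗ[F] F} (h : Grp_S M x φ) (h' : Grp_S M x χ) :
    Grp_S M x (φ + χ) := by
  refine ⟨by rw [LinearMap.add_apply, h.1, h'.1, add_zero], ?_⟩
  convert M.mul_mem h.2 h'.2 using 1
  ext v
  simp [h.1, add_smul]
  abel

theorem Grp_nsmul {x : V} {φ : V →ₗ[F] F} (h : Grp_S M x φ) (k : ℕ) : Grp_S M x ((k : F) • φ) := by
  induction k with
  | zero => simpa using Grp_zero x
  | succ k ih =>
    rw [Nat.cast_succ, add_smul, one_smul]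
    exact Grp_add ih h

theorem Grp_swap {x : V} {φ : V →ₗ[F] F} {c : F} (h : Grp_S M x (c • φ)) : Grp_S M (c • x) φ := by
  refine ⟨by simpa using h.1, ?_⟩
  convert h.2 using 2
  ext v
  simp [smul_smul, mul_comm]

theorem Grp_H.sub (H : Grp_H M) {x : V} {φ χ : V →ₗ[F] F} (h : Grp_S M x φ) (h' : Grp_S M x χ) :
    Grp_S M x (φ - χ) := by
  rw [sub_eq_add_neg, ← neg_one_smul F χ]
  exact Grp_add h (H.smul _ _ _ h')

theorem Grp_H.of_smul (H : Grp_H M) {x : V} {φ : V →ₗ[F] F} {c : F} (hc : c ≠ 0)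
    (h : Grp_S M x (c • φ)) : Grp_S M x φ := by
  have := H.smul _ _ c⁻¹ h
  rwa [inv_smul_smul₀ hc] at this

theorem Grp_H.g4 (H : Grp_H M) {z y : V} {ω χ : V →ₗ[F] F} (h : Grp_S M z ω) (h' : Grp_S M y χ) :
    Grp_S M (y + ω y • z) (χ - χ z • ω) := by
  have h1 := H.smul _ _ (-1) h
  have h2 := Grp_conj h' h.2 h1.2 (by ext v; simp [h.1]) (by ext v; simp [h.1])
  convert h2 using 1
  · simp
  · ext v
    simp [mul_comm, sub_eq_add_neg]

theorem Grp_H.g3 (H : Grp_H M) {x y : V} {φ χ : V →ₗ[F] F} (h : Grp_S M x φ) (h' : Grp_S M y χ)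
    (h0 : χ x = 0) : Grp_S M x (φ y • χ) := by
  have h1 := H.g4 h' h
  rw [h0, zero_smul, add_zero] at h1
  have h2 := H.sub h h1
  rwa [sub_sub_cancel] at h2

theorem Grp_H.ker (H : Grp_H M) {x : V} {φ : V →ₗ[F] F} (h : Grp_S M x φ) (hx : x ≠ 0) (hφ : φ ≠ 0)
    {w : V} (hw : w ≠ 0) : ∃ y χ, Grp_S M y χ ∧ y ≠ 0 ∧ χ w ≠ 0 := by
  let N : Submodule F V :=
    { carrier := {v | ∀ y χ, Grp_S M y χ → y ≠ 0 → χ v = 0}
      add_mem' := fun ha hb y χ h1 h2 => by rw [map_add, ha y χ h1 h2, hb y χ h1 h2, add_zero]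
      zero_mem' := fun y χ _ _ => map_zero χ
      smul_mem' := fun c v hv y χ h1 h2 => by rw [map_smul, hv y χ h1 h2, smul_zero] }
  have hN : N = ⊥ ∨ N = ⊤ := H.irr N fun g hg v hv y χ h1 h2 => by
    obtain ⟨g', hg', h3, h4⟩ := H.inv g hg
    refine hv _ _ (Grp_conj h1 hg' hg h4 h3) fun h5 => h2 ?_
    rw [← Grp_cancel h3 y, h5, map_zero]
  by_contra hcon
  push Not at hcon
  rcases hN with hN | hN
  · exact hw ((Submodule.eq_bot_iff N).1 hN w hcon)
  · refine hφ (LinearMap.ext fun v => ?_)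
    have : v ∈ N := hN ▸ Submodule.mem_top
    exact this x φ h hx

theorem Grp_H.st_map (H : Grp_H M) {W : Submodule F V} (hW : Grp_St M W) {g : End F V}
    (hg : g ∈ M) : Grp_St M (W.map g) := by
  rintro x φ _ h ⟨w, hw, rfl⟩
  obtain ⟨g', hg', h3, h4⟩ := H.inv g hg
  refine ⟨_, hW _ _ w (Grp_conj h hg' hg h4 h3) hw, ?_⟩
  rw [map_smul, Grp_cancel h3, LinearMap.comp_apply]

theorem Grp_pow_ne {p : ℕ} (X : End F V) (hX : X ^ (p - 1) = 0) (φ : V →ₗ[F] F) (w : V)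
    (hw : φ w ≠ 0) (hp : 0 < p) : ∃ i, 0 < i ∧ i < p ∧ φ (((1 + X) ^ i) w) ≠ 0 := by
  by_contra hcon
  push Not at hcon
  have h0 : ∀ (i : ℕ) (v : V), ((1 + X) ^ i) (X v) = ((1 + X) ^ (i + 1)) v - ((1 + X) ^ i) v := by
    intro i v
    rw [pow_succ, End.mul_apply, ← map_sub]
    simp
  have h1 : ∀ k i, 0 < i → i + k < p → φ (((1 + X) ^ i) ((X ^ k) w)) = 0 := by
    intro k
    induction k with
    | zero => exact fun i hi h => hcon i hi h
    | succ k ih =>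
      intro i hi h
      rw [pow_succ', End.mul_apply, h0, map_sub, ih _ (by omega) (by omega),
        ih _ hi (by omega), sub_zero]
  have h2 : ∀ k, k < p → φ ((X ^ k) w) ≠ 0 := by
    intro k
    induction k with
    | zero => exact fun _ => hw
    | succ k ih =>
      intro h
      have h3 := h1 k 1 one_pos (by omega)
      rw [pow_one, LinearMap.add_apply, map_add, End.one_apply] at h3
      rw [pow_succ', End.mul_apply, eq_neg_of_add_eq_zero_right h3]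
      exact neg_ne_zero.2 (ih (by omega))
  refine h2 (p - 1) (by omega) ?_
  rw [hX, LinearMap.zero_apply, map_zero]

theorem Grp_H.min_inv [FiniteDimensional F V] (H : Grp_H M) {x : V} {φ : V →ₗ[F] F}
    (h : Grp_S M x φ) (hx : x ≠ 0) (hφ : φ ≠ 0) {p : ℕ} (hp : p.Prime) {X : End F V}
    (hX : X ^ (p - 1) = 0) (ha : (1 + X) ^ p = 1) (hM : 1 + X ∈ M) {W : Submodule F V}
    (hW : Minimal (fun U => U ≠ ⊥ ∧ Grp_St M U) W) : ∀ w ∈ W, (1 + X) w ∈ W := by
  obtain ⟨w, hw, hw0⟩ := Submodule.exists_mem_ne_zero_of_ne_bot hW.1.1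
  obtain ⟨y, χ, h1, h2, h3⟩ := H.ker h hx hφ hw0
  obtain ⟨i, hi, hi', h4⟩ := Grp_pow_ne X hX χ w h3 hp.pos
  have h5 := H.st_map hW.1.2 (M.pow_mem hM i)
  have h6 : y ∈ W := (W.smul_mem_iff h3).1 (hW.1.2 _ _ _ h1 hw)
  have h7 : y ∈ W.map ((1 + X) ^ i) :=
    (Submodule.smul_mem_iff _ h4).1 (h5 _ _ _ h1 ⟨w, hw, rfl⟩)
  have h8 : W ≤ W ⊓ W.map ((1 + X) ^ i) := hW.2
    ⟨fun h9 => h2 ((Submodule.eq_bot_iff _).1 h9 y ⟨h6, h7⟩),
      fun z ω v hz hv => ⟨hW.1.2 _ _ _ hz hv.1, h5 _ _ _ hz hv.2⟩⟩ inf_le_left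
  have h9 : W = W.map ((1 + X) ^ i) :=
    Submodule.eq_of_le_of_finrank_le (h8.trans inf_le_right) (Submodule.finrank_map_le _ _)
  have h10 : ∀ j : ℕ, ∀ v ∈ W, (((1 + X) ^ i) ^ j : End F V) v ∈ W := by
    intro j
    induction j with
    | zero => exact fun v hv => hv
    | succ j ih =>
      intro v hv
      rw [pow_succ', End.mul_apply, h9]
      exact ⟨_, ih v hv, rfl⟩
  obtain ⟨j, -, hj⟩ := Nat.exists_mul_mod_eq_one_of_coprime
    (Nat.coprime_of_lt_prime hi.ne' hi' hp).symm hp.one_lt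
  intro v hv
  have h11 := h10 j v hv
  rwa [← pow_mul, pow_eq_pow_mod _ ha, hj, pow_one] at h11

theorem Grp_H.g6 (H : Grp_H M) (hst : ∀ W, Grp_St M W → W = ⊥ ∨ W = ⊤) {x : V} {φ : V →ₗ[F] F}
    (h : Grp_S M x φ) (hx : x ≠ 0) (hφ : φ ≠ 0) {U : Submodule F V} (hU : U ≠ ⊤) {v : V}
    (hv : v ≠ 0) : ∃ y χ, Grp_S M y χ ∧ y ∉ U ∧ χ v ≠ 0 := by
  let N : Submodule F V :=
    { carrier := {v | ∀ y χ, Grp_S M y χ → y ∉ U → χ v = 0}
      add_mem' := fun ha hb y χ h1 h2 => by rw [map_add, ha y χ h1 h2, hb y χ h1 h2, add_zero]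
      zero_mem' := fun y χ _ _ => map_zero χ
      smul_mem' := fun c v hv y χ h1 h2 => by rw [map_smul, hv y χ h1 h2, smul_zero] }
  have hN : N = ⊥ ∨ N = ⊤ := hst N fun z ω w hz hw => by
    by_cases hzU : z ∈ U
    · intro y χ h1 h2
      have h3 := hw _ _ (H.g4 hz h1) fun h4 => h2 ((U.add_mem_iff_left (U.smul_mem _ hzU)).1 h4)
      rw [LinearMap.sub_apply, hw _ _ h1 h2, zero_sub, neg_eq_zero, LinearMap.smul_apply] at h3
      rw [map_smul, smul_eq_mul, mul_comm]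
      exact h3
    · rw [hw _ _ hz hzU, zero_smul]
      exact N.zero_mem
  by_contra hcon
  push Not at hcon
  rcases hN with hN | hN
  · exact hv ((Submodule.eq_bot_iff N).1 hN v hcon)
  · have h1 : ∀ w, w ∈ N := fun w => hN ▸ Submodule.mem_top
    have h2 : U = ⊥ := (hst U fun z ω w hz hw => by
      by_cases hzU : z ∈ U
      · exact U.smul_mem _ hzU
      · rw [h1 w _ _ hz hzU, zero_smul]
        exact U.zero_mem).resolve_right hU
    exact hφ (LinearMap.ext fun w => h1 w x φ h (by rwa [h2, Submodule.mem_bot]))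

/-- The functionals of the transvections with centre `x`. -/
def Grp_H.ph (H : Grp_H M) (x : V) : Submodule F (Dual F V) where
  carrier := {φ | Grp_S M x φ}
  add_mem' := Grp_add
  zero_mem' := Grp_zero x
  smul_mem' := fun c φ h => H.smul x φ c h

theorem Grp_sep (Φ : Submodule F (Dual F V)) {y y' : V} (hy : y ∉ Φ.dualCoannihilator)
    (h : ∀ c : F, y' - c • y ∉ Φ.dualCoannihilator) : ∃ φ ∈ Φ, φ y = 0 ∧ φ y' = 1 := by
  rw [Submodule.mem_dualCoannihilator] at hy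
  push Not at hy
  obtain ⟨ω, hω, h0⟩ := hy
  have h1 := h (ω y' / ω y)
  rw [Submodule.mem_dualCoannihilator] at h1
  push Not at h1
  obtain ⟨ψ, hψ, h2⟩ := h1
  refine ⟨(ψ (y' - (ω y' / ω y) • y))⁻¹ • (ψ - (ψ y / ω y) • ω),
    Φ.smul_mem _ (Φ.sub_mem hψ (Φ.smul_mem _ hω)), ?_, ?_⟩
  · rw [LinearMap.smul_apply, LinearMap.sub_apply, LinearMap.smul_apply, smul_eq_mul, smul_eq_mul,
      div_mul_cancel₀ _ h0, sub_self, mul_zero]
  · rw [LinearMap.smul_apply, smul_eq_mul, ← inv_mul_cancel₀ h2]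
    congr 1
    simp only [LinearMap.sub_apply, LinearMap.smul_apply, map_sub, map_smul, smul_eq_mul]
    ring

theorem Grp_H.ga (H : Grp_H M) {x y : V} {χ : V →ₗ[F] F} (h : Grp_S M y χ)
    (hy : y ∉ (H.ph x).dualCoannihilator) (h0 : χ x = 0) : χ ∈ H.ph x := by
  rw [Submodule.mem_dualCoannihilator] at hy
  push Not at hy
  obtain ⟨ω, hω, h1⟩ := hy
  exact H.of_smul h1 (H.g3 hω h h0)

theorem Grp_H.cmp1 (H : Grp_H M) {x y y' : V} {χ χ' : V →ₗ[F] F} (h : Grp_S M y χ)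
    (h' : Grp_S M y' χ') (hy : y ∉ (H.ph x).dualCoannihilator) (h0 : χ x ≠ 0) (h0' : χ' x ≠ 0)
    (hc : ∀ c : F, y' - c • y ∉ (H.ph x).dualCoannihilator) : χ' x • χ - χ x • χ' ∈ H.ph x := by
  have hy' : y' ∉ (H.ph x).dualCoannihilator := by simpa using hc 0
  obtain ⟨φ₁, h1, h2, h3⟩ := Grp_sep _ hy hc
  obtain ⟨φ₂, h4, h5, h6⟩ := Grp_sep _ hy' (y' := y) fun c h7 => by
    have h8 : c ≠ 0 := by
      rintro rfl
      exact hy (by simpa using h7)
    refine hc c⁻¹ ?_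
    have h9 := Submodule.smul_mem _ (-c⁻¹) h7
    convert h9 using 1
    rw [smul_sub, smul_smul, neg_mul, inv_mul_cancel₀ h8, neg_smul, neg_smul, one_smul]
    abel
  have h7 : Grp_S M y φ₁ := H.of_smul h0 (H.g3 h h1 h2)
  have h8 : Grp_S M y' φ₂ := H.of_smul h0' (H.g3 h' h4 h5)
  have h9 : Grp_S M y (χ - χ y' • φ₁) := H.sub h (H.smul _ _ _ h7)
  have h10 := H.g3 h8 h9 (by simp [h3])
  rw [h6, one_smul] at h10
  have h11 := H.ga (H.sub (H.smul _ _ (χ' x) h10) (H.smul _ _ (χ x) h')) hy'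
    (by simp [h1.1, mul_comm])
  have h12 := (H.ph x).add_mem h11 ((H.ph x).smul_mem (χ' x * χ y') h1)
  convert h12 using 1
  rw [smul_sub, smul_smul]
  abel

theorem Grp_H.g7 [FiniteDimensional F V] (H : Grp_H M) (hst : ∀ W, Grp_St M W → W = ⊥ ∨ W = ⊤)
    {x : V} (hx : x ≠ 0) (h2 : ∀ y, ∃ φ, Grp_S M x φ ∧ φ ≠ 0 ∧ φ y = 0) {ω : V →ₗ[F] F}
    (hω : ω x = 0) : Grp_S M x ω := by
  have hU : ∀ y, (H.ph x).dualCoannihilator ⊔ Submodule.span F {y} ≠ ⊤ := fun y h => by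
    obtain ⟨φ, h3, h4, h5⟩ := h2 y
    refine h4 (LinearMap.ker_eq_top.1 (top_le_iff.1 (h ▸ sup_le (fun v hv => ?_) ?_)))
    · exact (Submodule.mem_dualCoannihilator v).1 hv φ h3
    · exact (Submodule.span_singleton_le_iff_mem _ _).2 h5
  obtain ⟨φ, hφ, hφ0, -⟩ := h2 0
  have cmp : ∀ y y' χ χ', Grp_S M y χ → Grp_S M y' χ' → y ∉ (H.ph x).dualCoannihilator →
      y' ∉ (H.ph x).dualCoannihilator → χ' x • χ - χ x • χ' ∈ H.ph x := by
    intro y y' χ χ' h h' hy hy'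
    by_cases h0 : χ x = 0
    · rw [h0, zero_smul, sub_zero]
      exact Submodule.smul_mem _ _ (H.ga h hy h0)
    by_cases h0' : χ' x = 0
    · rw [h0', zero_smul, zero_sub]
      exact Submodule.neg_mem _ (Submodule.smul_mem _ _ (H.ga h' hy' h0'))
    by_cases hc : ∀ c : F, y' - c • y ∉ (H.ph x).dualCoannihilator
    · exact H.cmp1 h h' hy h0 h0' hc
    push Not at hc
    obtain ⟨c, hc⟩ := hc
    obtain ⟨z, ψ, h3, h4, h5⟩ := H.g6 hst hφ hx hφ0 (hU y) hx
    have h6 : ∀ a : F, z - a • y ∉ (H.ph x).dualCoannihilator := fun a ha => h4 (by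
      rw [← sub_add_cancel z (a • y)]
      exact Submodule.add_mem_sup ha (Submodule.smul_mem _ _ (Submodule.mem_span_singleton_self y)))
    have h7 := H.cmp1 h h3 hy h0 h5 h6
    have h8 := H.cmp1 h' h3 hy' h0' h5 fun a ha => h6 (a * c) (by
      have h9 := Submodule.add_mem _ ha (Submodule.smul_mem _ a hc)
      convert h9 using 1
      rw [smul_sub, smul_smul]
      abel)
    rw [← Submodule.smul_mem_iff _ h5]
    have h9 := Submodule.sub_mem _ (Submodule.smul_mem _ (χ' x) h7) (Submodule.smul_mem _ (χ x) h8)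
    convert h9 using 1
    module
  have hK : (H.ph x).dualCoannihilator ≠ ⊤ := fun h => hU 0 (by rw [h, top_sup_eq])
  obtain ⟨y₀, χ₀, h3, h4, h5⟩ := H.g6 hst hφ hx hφ0 hK hx
  have h6 : ω ∈ (H.ph x).dualCoannihilator.dualAnnihilator := by
    rw [Submodule.mem_dualAnnihilator]
    intro v hv
    have h7 : v - (χ₀ v / χ₀ x) • x = 0 := by
      by_contra h8
      obtain ⟨y, χ, h9, h10, h11⟩ := H.g6 hst hφ hx hφ0 hK h8
      have h12 := (Submodule.mem_dualCoannihilator v).1 hv _ (cmp _ _ _ _ h9 h3 h10 h4)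
      simp only [LinearMap.sub_apply, LinearMap.smul_apply, smul_eq_mul] at h12
      apply h11
      rw [map_sub, map_smul, smul_eq_mul]
      field_simp
      linear_combination h12
    rw [sub_eq_zero.1 h7, map_smul, hω, smul_zero]
  rwa [Subspace.dualCoannihilator_dualAnnihilator_eq] at h6

theorem Grp_H.g8 (H : Grp_H M) {x : V} (hx : x ≠ 0) (h : ∀ ω, ω x = 0 → Grp_S M x ω) (y : V)
    (χ : V →ₗ[F] F) (hχ : χ y = 0) : Grp_S M y χ := by
  have h1 : ∀ g ∈ M, ∀ y, (∀ ω, ω y = 0 → Grp_S M y ω) → ∀ ω, ω (g y) = 0 → Grp_S M (g y) ω := by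
    intro g hg y hy ω hω
    obtain ⟨g', hg', h3, h4⟩ := H.inv g hg
    have h5 := Grp_conj (hy (ω ∘ₗ g) hω) hg hg' h3 h4
    convert h5 using 1
    ext v
    simp [Grp_cancel h3]
  have h2 : ∀ (c : F) y, (∀ ω, ω y = 0 → Grp_S M y ω) → ∀ ω, ω (c • y) = 0 →
      Grp_S M (c • y) ω := fun c y hy ω hω => Grp_swap (hy _ (by simpa using hω))
  let Z : Submodule F V :=
    { carrier := {y | ∀ ω : V →ₗ[F] F, ω y = 0 → Grp_S M y ω}
      add_mem' := fun {a b} ha hb => by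
        by_cases hab : b ∈ Submodule.span F {a}
        · obtain ⟨c, rfl⟩ := Submodule.mem_span_singleton.1 hab
          have h3 := h2 (1 + c) a ha
          rwa [add_smul, one_smul] at h3
        · obtain ⟨f, hf, hf'⟩ := Submodule.exists_le_ker_of_notMem hab
          have h3 : f a = 0 := hf' (Submodule.mem_span_singleton_self a)
          have h4 := h1 _ (ha ((f b)⁻¹ • f) (by simp [h3])).2 b hb
          have h5 : (1 + ((f b)⁻¹ • f).smulRight a : End F V) b = a + b := by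
            simp [inv_mul_cancel₀ hf, add_comm]
          rwa [h5] at h4
      zero_mem' := fun ω _ => Grp_zero' ω
      smul_mem' := fun c y hy => h2 c y hy }
  have h3 : Z = ⊤ := (H.irr Z h1).resolve_left fun h4 => hx ((Submodule.eq_bot_iff Z).1 h4 x h)
  have h4 : y ∈ Z := h3 ▸ Submodule.mem_top
  exact h4 χ hχ

theorem Grp_two {X : End F V} {k : ℕ} (hX : X ^ k = 0) {φ : V →ₗ[F] F} (hφ : φ ∘ₗ X ≠ 0) (c : F) :
    φ ∘ₗ X - c • φ ≠ 0 := by
  intro h
  rw [sub_eq_zero] at h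
  have h1 : ∀ j v, φ ((X ^ j) v) = c ^ j * φ v := by
    intro j
    induction j with
    | zero => simp
    | succ j ih =>
      intro v
      have h2 : φ (X v) = c * φ v := LinearMap.congr_fun h v
      rw [pow_succ, End.mul_apply, ih, h2, pow_succ, mul_assoc]
  apply hφ
  rw [h]
  ext v
  have h2 := h1 k v
  rw [hX, LinearMap.zero_apply, map_zero] at h2
  rcases mul_eq_zero.1 h2.symm with h3 | h3
  · simp [eq_zero_of_pow_eq_zero h3]
  · simp [h3]

end Grp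

/-- Sketch. `M` is the submonoid, `a = 1 + X`, `S x φ := φ x = 0 ∧ 1 + φ.smulRight x ∈ M`.
* G1: each `g ∈ M` has a two-sided inverse in `M` (`a ^ p = 1 + X ^ p = 1`,
  `add_pow_char_of_commute`; `V` is nontrivial).
* G2: `S x φ → S (g x) (φ ∘ₗ g')` if `g g' ∈ M`, `g * g' = 1 = g' * g`; `S x φ → S x χ → S x (φ + χ)`;
  `S x φ → S x (c • φ)` (`c` is a natural number cast); `S (c • x) φ ↔ S x (c • φ)`; `S x 0`, `S 0 φ`.
* G3: `S x φ → S y χ → χ x = 0 → S x (φ y • χ)`: with `A`, `B` the rank one parts, `B * A = 0` and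
  `(1+A)(1+B)(1-A)(1-B) = 1 + A * B`.
* G4: `S z ω → S y χ → S (y + ω y • z) (χ - χ z • ω)` (conjugation).
* G5: call `W` stable if `S x φ → w ∈ W → φ w • x ∈ W`. A stable `W` is `⊥` or `⊤`. Take a minimal
  nonzero stable `W₀ ≤ W`; `W₀.map g` is stable for `g ∈ M`. The common kernel of the `φ` with
  `S x φ`, `x ≠ 0` is `M`-invariant and not `⊤`, so `⊥` (`hirr`): there are `S x φ`, `x ≠ 0`, `w ∈ W₀`
  with `φ w ≠ 0`, so `x ∈ W₀`. From `(a - 1)^(p-1) = 0`, `w` is a combination of `a^i w`, `0 < i < p`,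
  so `φ (a^i w) ≠ 0` for one such `i`; then `x ∈ W₀ ⊓ W₀.map (a^i)`, so `W₀ ≤ W₀.map (a^i)` by
  minimality, equality by dimension, and `a` is a power of `a^i`; hence `a` and likewise `b`
  preserve `W₀`, and `W₀ = ⊤`.
* G6: if `U ≠ ⊤` and `χ v = 0` whenever `S y χ`, `y ∉ U`, then `v = 0`: the set `W` of such `v` is
  stable (for `S z ω` with `z ∈ U` use G4); if `W = ⊤` then `U` is stable, so `U = ⊥`, and the given
  transvection has `φ = 0`, false.
* G7: `Φ = {φ | S x φ}` contains `φ` and `φ ∘ₗ X` (conjugate by `a⁻¹`, subtract), which are linearly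
  independent (`X` is nilpotent), so for each `y` some nonzero member of `Φ` kills `y`.
  `K = Φ.dualCoannihilator`. A: `S y χ`, `y ∉ K`, `χ x = 0` give `χ ∈ Φ`. B: `S y χ`, `χ x ≠ 0`,
  `ω ∈ Φ`, `ω y = 0` give `S y ω`. Claim: for `S y χ`, `S y' χ'`, `y, y' ∉ K`:
  `χ' x • χ - χ x • χ' ∈ Φ`. Clear from A if `χ x = 0` or `χ' x = 0`. If `y' ∉ K ⊔ span {y}` there are
  `φ₁ φ₂ ∈ Φ` with `φ₁ y = 0`, `φ₁ y' = 1`, `φ₂ y = 1`, `φ₂ y' = 0`; `χ₁ = χ - χ y' • φ₁` has `S y χ₁` (B),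
  `S y' φ₂` (B), so `S y' χ₁` (G3), and A applies to `χ' x • χ₁ - χ x • χ'`. Otherwise G6 gives
  `S z ω` with `z ∉ K ⊔ span {y}`, `ω x ≠ 0`; compare both with `(z, ω)`. Now G6 gives `S y₀ χ₀`,
  `y₀ ∉ K`, `χ₀ x ≠ 0`; for `v ∈ K`, `v - (χ₀ v / χ₀ x) • x` is killed by all `χ` with centre outside
  `K`, so it is `0`. Hence every `ω` with `ω x = 0` kills `K` and lies in `Φ`
  (`Subspace.dualCoannihilator_dualAnnihilator_eq`).
* G8: `{y | ∀ ω, ω y = 0 → S y ω}` is an `M`-invariant submodule containing `x` (for `z` outside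
  `span {y}` pick `ω y = 0`, `ω z = 1`; the transvection maps `z` to `z + y`), so it is `⊤`. -/
theorem all_transvections (p : ℕ) [Fact p.Prime] {V : Type} [AddCommGroup V] [Module (ZMod p) V]
    [FiniteDimensional (ZMod p) V] (X Y : Module.End (ZMod p) V) (hX : X ^ (p - 1) = 0)
    (hY : Y ^ (p - 1) = 0)
    (hirr : ∀ W : Submodule (ZMod p) V, (∀ w ∈ W, X w ∈ W) → (∀ w ∈ W, Y w ∈ W) → W = ⊥ ∨ W = ⊤)
    (x : V) (φ : V →ₗ[ZMod p] ZMod p) (hx : x ≠ 0) (hφ : φ x = 0)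
    (hm : 1 + φ.smulRight x ∈ Submonoid.closure {1 + X, 1 + Y}) (hXx : X x = 0)
    (hφX : φ ∘ₗ X ≠ 0) (y : V) (χ : V →ₗ[ZMod p] ZMod p) (hχ : χ y = 0) :
    1 + χ.smulRight y ∈ Submonoid.closure {1 + X, 1 + Y} := by
  have hp : p.Prime := Fact.out
  have : Nontrivial V := nontrivial_of_ne x 0 hx
  have : CharP (Module.End (ZMod p) V) p :=
    charP_of_injective_algebraMap (algebraMap (ZMod p) _).injective p
  have ha : ∀ Z : Module.End (ZMod p) V, Z ^ (p - 1) = 0 → (1 + Z) ^ p = 1 := fun Z hZ => by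
    rw [add_pow_char_of_commute p (Commute.one_left _), one_pow,
      pow_eq_zero_of_le (Nat.sub_le p 1) hZ, add_zero]
  set M := Submonoid.closure {1 + X, 1 + Y} with hM
  have hXM : 1 + X ∈ M := Submonoid.subset_closure (Or.inl rfl)
  have hYM : 1 + Y ∈ M := Submonoid.subset_closure (Or.inr rfl)
  have hinv : ∀ Z : Module.End (ZMod p) V, Z ^ (p - 1) = 0 → 1 + Z ∈ M →
      ∃ g' ∈ M, (1 + Z) * g' = 1 ∧ g' * (1 + Z) = 1 := fun Z hZ h =>
    ⟨(1 + Z) ^ (p - 1), M.pow_mem h _,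
      by rw [← pow_succ', Nat.sub_add_cancel hp.one_le, ha Z hZ],
      by rw [← pow_succ, Nat.sub_add_cancel hp.one_le, ha Z hZ]⟩
  have hirr' : ∀ W : Submodule (ZMod p) V, (∀ w ∈ W, (1 + X) w ∈ W) → (∀ w ∈ W, (1 + Y) w ∈ W) →
      W = ⊥ ∨ W = ⊤ := fun W h1 h2 =>
    hirr W (fun w hw => (W.add_mem_iff_right hw).1 (h1 w hw))
      fun w hw => (W.add_mem_iff_right hw).1 (h2 w hw)
  have H : Grp_H M :=
    { inv := fun g hg => by
        induction hg using Submonoid.closure_induction with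
        | mem g hg =>
          rcases hg with rfl | rfl
          exacts [hinv X hX hXM, hinv Y hY hYM]
        | one => exact ⟨1, M.one_mem, one_mul _, one_mul _⟩
        | mul a b _ _ h1 h2 =>
          obtain ⟨a', ha', h3, h4⟩ := h1
          obtain ⟨b', hb', h5, h6⟩ := h2
          refine ⟨b' * a', M.mul_mem hb' ha', ?_, ?_⟩
          · rw [mul_assoc, ← mul_assoc b, h5, one_mul, h3]
          · rw [mul_assoc, ← mul_assoc a', h4, one_mul, h6]
      smul := fun z ω c h => by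
        rw [← ZMod.natCast_zmod_val c]
        exact Grp_nsmul h _
      irr := fun W h => hirr' W (h _ hXM) (h _ hYM) }
  have hS : Grp_S M x φ := ⟨hφ, hm⟩
  have hφ0 : φ ≠ 0 := fun h => hφX (by rw [h, LinearMap.zero_comp])
  have hst : ∀ W, Grp_St M W → W = ⊥ ∨ W = ⊤ := fun W hW => by
    by_cases h0 : W = ⊥
    · exact Or.inl h0
    obtain ⟨U, hU, hmin⟩ :=
      exists_minimal_le_of_wellFoundedLT (fun U => U ≠ ⊥ ∧ Grp_St M U) W ⟨h0, hW⟩
    have h1 := (hirr' U (H.min_inv hS hx hφ0 hp hX (ha X hX) hXM hmin)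
      (H.min_inv hS hx hφ0 hp hY (ha Y hY) hYM hmin)).resolve_left hmin.1.1
    exact Or.inr (top_le_iff.1 (h1 ▸ hU))
  have hS' : Grp_S M x (φ ∘ₗ X) := by
    obtain ⟨g, hg, h1, h2⟩ := hinv X hX hXM
    have h3 := Grp_conj hS hg hXM h2 h1
    have h4 : g x = x := by
      have h5 := Grp_cancel h2 x
      rwa [LinearMap.add_apply, hXx, add_zero, Module.End.one_apply] at h5
    rw [h4] at h3
    convert H.sub h3 hS using 1
    ext v
    simp
  refine (H.g8 hx (fun ω hω => H.g7 hst hx (fun z => ?_) hω) y χ hχ).2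
  by_cases hz : φ z = 0
  · exact ⟨φ, hS, hφ0, hz⟩
  · exact ⟨_, H.sub hS' (H.smul _ _ (φ (X z) / φ z) hS), Grp_two hX hφX _,
      by simp [div_mul_cancel₀ _ hz]⟩

end Pool.Agent.Lib.MP_9675a1_al
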