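import Pool.Agent.Lib.MP_9675a1_al.Gad

/-!
# The cyclic module is simple
-/

set_option autoImplicit false

noncomputable section

namespace Pool.Agent.Lib.MP_9675a1_al

open FreeAlgebra

variable {F : Type} [Field F] {W : Type} [AddCommGroup W] [Module F W] {L : ℕ}
  (S : Seg F W L) {n : ℕ} {sl : ℕ → Bool}

lemma rV_co_succ (s : Bool) (u : W × (Fin n → F)) {j : ℕ} (hj : j + 1 < n) :
    (rV S n sl (ι F s) u).2 ⟨j + 1, hj⟩ = if sl j = s then u.2 ⟨j, by omega⟩ else 0 := by
  rw [rV_ι, edges_apply]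
  simp only [Prod.snd_add, Pi.add_apply, Prod.snd_sum, Finset.sum_apply, Prod.smul_snd,
    Pi.smul_apply]
  rw [Finset.sum_eq_single ⟨j, by omega⟩]
  · cases s <;> split_ifs <;> simp_all [vV_co]
  · intro i _ hi
    have : j ≠ i := fun h => hi (Fin.ext h.symm)
    split_ifs <;> simp [vV_co, this]
  · simp

lemma rV_co_zero (s : Bool) (u : W × (Fin n → F)) (hn : 0 < n) :
    (rV S n sl (ι F s) u).2 ⟨0, hn⟩ = if s then 0 else S.lam u.1 := by
  rw [rV_ι, edges_apply]
  simp only [Prod.snd_add, Pi.add_apply, Prod.snd_sum, Finset.sum_apply, Prod.smul_snd,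
    Pi.smul_apply]
  rw [Finset.sum_eq_zero]
  · cases s <;> simp [vV_co]
  · intro i _
    split_ifs <;> simp [vV_co]

lemma rV_fst (s : Bool) (u : W × (Fin n → F)) (hn : 0 < n) :
    (rV S n sl (ι F s) u).1 = S.ρ (ι F s) u.1 +
      if sl (n - 1) = s then u.2 ⟨n - 1, by omega⟩ • S.e else 0 := by
  rw [rV_ι, edges_apply]
  simp only [Prod.fst_add, Prod.fst_sum, Prod.smul_fst]
  rw [Finset.sum_eq_single ⟨n - 1, by omega⟩]
  · have h : ¬ n - 1 + 1 < n := by omega
    have h1 : (vV S n (n - 1 + 1)).1 = S.e := by rw [vV, dif_neg h]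
    have h2 : (vV S n 0).1 = 0 := by rw [vV, dif_pos hn]
    cases s <;> split_ifs <;> simp_all
  · intro i _ hi
    have h1 : (i : ℕ) ≠ n - 1 := fun h => hi (Fin.ext h)
    have h2 : (i : ℕ) + 1 < n := by omega
    split_ifs <;> simp [vV, h2]
  · simp

lemma rV_inl (s : Bool) {v : W} (hv : S.lam v = 0) :
    rV S n sl (ι F s) (v, 0) = (S.ρ (ι F s) v, 0) := by
  rw [rV_ι]
  simp [hv]

variable {M : Submodule F (W × (Fin n → F))}

lemma wd_inv (hM : ∀ s, ∀ u ∈ M, rV S n sl (ι F s) u ∈ M) (m : List Bool) {u : W × (Fin n → F)}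
    (hu : u ∈ M) : rV S n sl (wd m) u ∈ M := by
  induction m with
  | nil => simpa using hu
  | cons s m ih => rw [wd_cons, map_mul]; exact hM s _ ih

lemma irr_gen (hM : ∀ s, ∀ u ∈ M, rV S n sl (ι F s) u ∈ M) {i : ℕ} (hi : i < n)
    (h : vV S n i ∈ M) : M = ⊤ := by
  have h1 : ∀ i j, i ≤ j → j ≤ n → vV S n i ∈ M → vV S n j ∈ M := fun i j hij hj h => by
    induction j, hij using Nat.le_induction with
    | base => exact h
    | succ j _ ih =>
      have := hM (sl j) _ (ih (by omega))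
      rwa [rV_vV S _ (by omega), if_pos rfl] at this
  have h2 : ∀ m : List Bool, m.length ≤ L → (S.ρ (wd m) S.e, 0) ∈ M := fun m hm => by
    induction m with
    | nil => simpa [vV] using h1 i n hi.le le_rfl h
    | cons s m ih =>
      rw [List.length_cons] at hm
      rw [wd_cons, map_mul, Module.End.mul_apply, ← rV_inl S (sl := sl) s (S.deg m (by omega))]
      exact hM s _ (ih (by omega))
  have h3 : ∀ v : W, (v, 0) ∈ M := fun v => by
    have : Submodule.span F {v | ∃ m : List Bool, m.length ≤ L ∧ S.ρ (wd m) S.e = v} ≤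
        M.comap (LinearMap.inl F _ _) :=
      Submodule.span_le.mpr fun _ ⟨m, hm, e⟩ => e ▸ h2 m hm
    exact this (by rw [S.span_short]; trivial)
  have h4 : vV S n 0 ∈ M := by
    obtain ⟨m, hm⟩ := S.ne
    have h5 := hM false _ (h3 (S.ρ (wd m) S.e))
    rw [rV_ι, map_zero, add_zero, add_mem_cancel_left (h3 _)] at h5
    exact (M.smul_mem_iff hm).mp h5
  refine eq_top_iff.mpr fun u _ => ?_
  rw [dec_V S u]
  exact add_mem (h3 _) (Submodule.sum_mem _ fun j _ =>
    Submodule.smul_mem _ _ (h1 0 j (Nat.zero_le _) j.2.le h4))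

lemma irr_cogen (hM : ∀ s, ∀ u ∈ M, rV S n sl (ι F s) u ∈ M) (hn : 1 < n)
    (h : ∀ u ∈ M, u.2 ⟨1, hn⟩ = 0) : M = ⊥ := by
  have h1 : ∀ u ∈ M, S.lam u.1 = 0 := fun u hu => by
    have := h _ (hM (sl 0) _ (hM false u hu))
    rwa [rV_co_succ, if_pos rfl, rV_co_zero] at this
  have h2 : ∀ u ∈ M, u.2 = 0 → u = 0 := by
    rintro ⟨v, _⟩ hv (rfl : _ = 0)
    have h3 : ∀ m, (S.ρ (wd m) v, 0) ∈ M := fun m => by
      induction m with
      | nil => simpa using hv
      | cons s m ih =>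
        rw [wd_cons, map_mul, Module.End.mul_apply, ← rV_inl S (sl := sl) s (h1 _ ih)]
        exact hM s _ ih
    rw [S.cogen v fun m => h1 _ (h3 m)]
    rfl
  have h3 : ∀ u ∈ M, (∀ s, rV S n sl (ι F s) u = 0) → u = 0 := fun u hu hs => by
    refine h2 u hu (funext fun ⟨j, hj⟩ => ?_)
    by_cases h4 : j + 1 < n
    · have := rV_co_succ S (sl := sl) (sl j) u h4
      rw [if_pos rfl, hs] at this
      exact this.symm
    · obtain ⟨ε, h5, h6⟩ := S.eps
      obtain rfl : j = n - 1 := by omega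
      have := congrArg ε (rV_fst S (sl := sl) (sl (n - 1)) u (by omega))
      rw [if_pos rfl, hs, map_add, h6, map_smul, h5] at this
      simpa using this.symm
  have h4 : ∀ u ∈ M, ∀ m : List Bool, ∀ j : Fin n, (j : ℕ) < m.length →
      (rV S n sl (wd m) u).2 j = 0 := fun u hu m => by
    induction m with
    | nil => simp
    | cons s m ih =>
      rintro ⟨j, hj⟩ hm
      rw [wd_cons, map_mul, Module.End.mul_apply]
      rcases j with _ | j
      · rw [rV_co_zero, h1 _ (wd_inv S hM m hu), ite_self]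
      · rw [rV_co_succ, ih _ (by simpa using hm), ite_self]
  have h5 : ∀ q, ∀ u ∈ M, (∀ m : List Bool, m.length = q → rV S n sl (wd m) u = 0) → u = 0 := by
    intro q
    induction q with
    | zero => exact fun u _ h6 => by simpa using h6 [] rfl
    | succ q ih =>
      refine fun u hu h6 => h3 u hu fun s => ih _ (hM s u hu) fun m hm => ?_
      have := h6 (m ++ [s]) (by simp [hm])
      rwa [wd_append, wd_single, map_mul] at this
  exact eq_bot_iff.mpr fun u hu => h5 n u hu fun m hm =>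
    h2 _ (wd_inv S hM m hu) (funext fun j => h4 u hu m j (hm ▸ j.2))

theorem irr (hn : 1 < n) {i : ℕ} (hi : i < n) {x : T F} {κ : F} (hκ : κ ≠ 0)
    (hx : ∀ u, rV S n sl x u = u + (κ * co n 1 u.2) • vV S n i)
    (hM : ∀ s, ∀ u ∈ M, rV S n sl (ι F s) u ∈ M) : M = ⊥ ∨ M = ⊤ := by
  by_cases h : ∀ u ∈ M, u.2 ⟨1, hn⟩ = 0
  · exact Or.inl (irr_cogen S hM hn h)
  push Not at h
  obtain ⟨u, hu, h1⟩ := h
  have h2 := Sp_map (LinearMap.applyₗ u ∘ₗ (rV S n sl).toLinearMap)
    (fun m _ => wd_inv S hM m hu) (mem_Ge_zero x)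
  replace h2 : rV S n sl x u ∈ M := h2
  rw [hx, add_mem_cancel_left hu, co_apply hn] at h2
  exact Or.inr (irr_gen S hM hi ((M.smul_mem_iff (mul_ne_zero hκ h1)).mp h2))

end Pool.Agent.Lib.MP_9675a1_al
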