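import Pool.Agent.Lib.MP_9675a1_al.Basic

/-!
# Projective special linear groups
-/

set_option autoImplicit false

noncomputable section

namespace Pool.Agent.Lib.MP_9675a1_al

open Matrix
open scoped commutatorElement

theorem Psl_diag {F ι : Type} [Field F] [Fintype ι] [DecidableEq ι] {i j : ι} (hij : i ≠ j) {c : F}
    (hc : c ≠ 0) : SpecialLinearGroup.diag2n hij c hc =
      SpecialLinearGroup.transvection hij c * SpecialLinearGroup.transvection hij.symm (-c⁻¹) *
      SpecialLinearGroup.transvection hij c * SpecialLinearGroup.transvection hij (-1) *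
      SpecialLinearGroup.transvection hij.symm 1 * SpecialLinearGroup.transvection hij (-1) := by
  refine Subtype.ext ?_
  change diagonal (fun k => if k = i then c else if k = j then c⁻¹ else 1) =
    (1 + single i j c) * (1 + single j i (-c⁻¹)) * (1 + single i j c) * (1 + single i j (-1)) *
      (1 + single j i 1) * (1 + single i j (-1))
  simp only [mul_add, add_mul, mul_one, one_mul, single_mul_single_same,
    single_mul_single_of_ne _ _ _ _ hij, single_mul_single_of_ne _ _ _ _ hij.symm, add_zero]
  ext a b
  simp only [diagonal_apply, Matrix.add_apply, Matrix.one_apply, single_apply]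
  by_cases h1 : i = a <;> by_cases h2 : j = a <;> by_cases h3 : i = b <;> by_cases h4 : j = b <;>
    by_cases h5 : a = b <;> simp_all [eq_comm]

theorem Psl_comm {F ι : Type} [Field F] [Fintype ι] [DecidableEq ι] {i j k : ι} (hij : i ≠ j)
    (hik : i ≠ k) (hkj : k ≠ j) (c : F) :
    ⁅SpecialLinearGroup.transvection hik c, SpecialLinearGroup.transvection hkj (1 : F)⁆ =
      SpecialLinearGroup.transvection hij c := by
  rw [commutatorElement_def, SpecialLinearGroup.transvection_inv,
    SpecialLinearGroup.transvection_inv]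
  refine Subtype.ext ?_
  change (1 + single i k c) * (1 + single k j 1) * (1 + single i k (-c)) * (1 + single k j (-1)) =
    1 + single i j c
  simp only [mul_add, add_mul, mul_one, one_mul, single_mul_single_same,
    single_mul_single_of_ne _ _ _ _ hij.symm, single_mul_single_of_ne _ _ _ _ hik.symm,
    single_mul_single_of_ne _ _ _ _ hkj.symm, add_zero]
  simp only [mul_neg, mul_one, neg_neg, ← single_neg]
  abel

/-- Sketch: `SpecialLinearGroup.diagonal_transvection_induction'` and, as in
`Matrix.diag2_decompose`, `diag2n hij c` is the product of the transvections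
`(i,j,c) (j,i,-c⁻¹) (i,j,c) (i,j,-1) (j,i,1) (i,j,-1)`. -/
theorem sl_gen {F ι : Type} [Field F] [Fintype ι] [DecidableEq ι] [Nontrivial ι]
    (H : Subgroup (SpecialLinearGroup ι F))
    (h : ∀ (i j : ι) (hij : i ≠ j) (c : F), SpecialLinearGroup.transvection hij c ∈ H) : H = ⊤ := by
  refine eq_top_iff.2 fun M _ => SpecialLinearGroup.diagonal_transvection_induction' (· ∈ H) M
    (fun i j hij c hc => ?_) h fun _ _ => mul_mem
  rw [Psl_diag]
  exact mul_mem (mul_mem (mul_mem (mul_mem (mul_mem (h ..) (h ..)) (h ..)) (h ..)) (h ..)) (h ..)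

/-- Sketch: copy `Mathlib/LinearAlgebra/Projectivization/PSL/PSL2.lean` (Iwasawa criterion with
`PSL.iwasawaT`); generation by `sl_gen` and `SL2Gen.transvection_mem_lineStab`; perfectness from
`⁅transvection (i,k) c, transvection (k,j) 1⁆ = transvection (i,j) c` for a third index `k`. -/
theorem psl_simple (F : Type) [Field F] {n : ℕ} (hn : 3 ≤ n) :
    IsSimpleGroup (ProjectiveSpecialLinearGroup (Fin n) F) := by
  have : Nontrivial (Fin n) := Fin.nontrivial_iff_two_le.2 (by omega)
  have h1 : Group.IsPerfect (SpecialLinearGroup (Fin n) F) := ⟨sl_gen _ fun i j hij c => by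
    obtain ⟨k, hk⟩ : ∃ k, k ∉ ({i, j} : Finset (Fin n)) := by
      by_contra! h
      have := Finset.card_le_card (show Finset.univ ⊆ {i, j} from fun k _ => h k)
      have := Finset.card_le_two (a := i) (b := j)
      simp only [Finset.card_univ, Fintype.card_fin] at *
      omega
    rw [Finset.mem_insert, Finset.mem_singleton, not_or] at hk
    rw [← Psl_comm hij (Ne.symm hk.1) hk.2]
    exact Subgroup.commutator_mem_commutator (Subgroup.mem_top _) (Subgroup.mem_top _)⟩
  have h2 : Group.IsPerfect (ProjectiveSpecialLinearGroup (Fin n) F) := inferInstance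
  refine MulAction.IwasawaStructure.isSimpleGroup (α := Projectivization F (Fin n → F))
    h2.commutator_eq_top ⟨PSL.iwasawaT, fun x => ?_, fun g x => ?_, ?_⟩ inferInstance
  · have : IsMulCommutative (SpecialLinearGroup.lineStab (F := F) (ι := Fin n) x.submodule) := by
      rw [← Projectivization.mk_rep x, Projectivization.submodule_mk]
      exact SpecialLinearGroup.lineStab_isMulCommutative_of_span x.rep x.rep_nonzero
    exact Subgroup.map_isMulCommutative _ _
  · obtain ⟨g, rfl⟩ := QuotientGroup.mk_surjective g
    rw [ProjectiveSpecialLinearGroup.smul_proj_mk]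
    change Subgroup.map _ _ = _
    rw [PSL.smul_submodule, SpecialLinearGroup.lineStab_smul, PSL.iwasawaT_map_conj]
  · have h3 : (⨆ x : Projectivization F (Fin n → F), SpecialLinearGroup.lineStab x.submodule) = ⊤ :=
      sl_gen _ fun i j hij c => Subgroup.mem_iSup_of_mem
        (Projectivization.mk F (Pi.single i 1) (Pi.single_ne_zero_iff.2 one_ne_zero)) (by
          rw [Projectivization.submodule_mk]
          exact SL2Gen.transvection_mem_lineStab hij c)
    rw [← Subgroup.map_iSup, h3]
    exact Subgroup.map_top_of_surjective _ (QuotientGroup.mk'_surjective _)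

/-- Sketch: the action on the projective space is transitive and the points `[e j]` are distinct;
choose `g j` sending `[e 0]` to `[e j]`. -/
theorem psl_card (F : Type) [Field F] [Finite F] (n : ℕ) :
    n ≤ Nat.card (ProjectiveSpecialLinearGroup (Fin n) F) := by
  rcases Nat.eq_zero_or_pos n with rfl | hn
  · exact Nat.zero_le _
  let e : Fin n → Projectivization F (Fin n → F) := fun j =>
    Projectivization.mk F (Pi.single j 1) (Pi.single_ne_zero_iff.2 one_ne_zero)
  have he : Function.Injective e := fun i j h => by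
    obtain ⟨a, ha⟩ := (Projectivization.mk_eq_mk_iff' ..).1 h
    by_contra hij
    simpa [hij] using congrFun ha i
  choose g hg using fun j =>
    MulAction.exists_smul_eq (ProjectiveSpecialLinearGroup (Fin n) F) (e ⟨0, hn⟩) (e j)
  simpa using Nat.card_le_card_of_injective g fun i j h => he (by rw [← hg i, ← hg j, h])

/-- Sketch. Let `μ = LinearMap.toMatrixAlgEquiv (Module.finBasis _ V)` after `ρ`. `μ (gen s) ^ p = 1`
(`gen_pow`), so its determinant `δ` has `δ ^ p = 1`, `δ = 1` (`ZMod.pow_card`): this defines
`A B : SL`. Every element of the submonoid is sent by the matrix map to the matrix of an element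
of `Subgroup.closure {A, B}`; the transvection `1 + single i j c` is the matrix of
`1 + (c • coord j).smulRight (basis i)`; `sl_gen`. For a list `l'` over `Fin 2 × Bool` the matrix
of `FreeGroup.lift ![A, B] (FreeGroup.mk l')` is `μ (ev p l)`, `l = l'.map fun x => (decide (x.1 = 1), x.2)`
(`FreeGroup.lift_mk`, `A⁻¹ = A ^ (p-1)`); `FreeGroup.mk_toWord`; `(u - 1) ^ p = u ^ p - 1`
(`sub_pow_char_of_commute`). Finally map to the quotient by `QuotientGroup.mk'`. -/
theorem to_psl (p : ℕ) [Fact p.Prime] {V : Type} [AddCommGroup V] [Module (ZMod p) V]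
    [FiniteDimensional (ZMod p) V] (h2 : 2 ≤ Module.finrank (ZMod p) V)
    (ρ : T (ZMod p) →ₐ[ZMod p] Module.End (ZMod p) V) (d : ℕ)
    (hs : ∀ s, ρ (FreeAlgebra.ι (ZMod p) s) ^ p = 0)
    (hu : ∀ l : List (Bool × Bool), l.length ≤ d → (ρ (ev p l) - 1) ^ p = 0)
    (ht : ∀ (y : V) (χ : V →ₗ[ZMod p] ZMod p), χ y = 0 → 1 + χ.smulRight y ∈ Submonoid.closure
      {1 + ρ (FreeAlgebra.ι (ZMod p) false), 1 + ρ (FreeAlgebra.ι (ZMod p) true)}) :
    ∃ a b : ProjectiveSpecialLinearGroup (Fin (Module.finrank (ZMod p) V)) (ZMod p),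
      Subgroup.closure {a, b} = ⊤ ∧ ∀ w : FreeGroup (Fin 2), (FreeGroup.toWord w).length ≤ d →
        (FreeGroup.lift ![a, b] w) ^ p = 1 := by
  have : Nontrivial (Fin (Module.finrank (ZMod p) V)) := Fin.nontrivial_iff_two_le.2 h2
  have hp : p - 1 + 1 = p := Nat.sub_add_cancel (Fact.out : p.Prime).one_le
  let β := Module.finBasis (ZMod p) V
  let μ := LinearMap.toMatrixAlgEquiv β
  have h1 : ∀ s, μ (ρ (gen s)) ^ p = 1 := fun s => by
    rw [← map_pow, ← map_pow, gen_pow, map_add, map_pow, hs, map_one, add_zero, map_one]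
  let A : Bool → SpecialLinearGroup (Fin (Module.finrank (ZMod p) V)) (ZMod p) := fun s =>
    ⟨μ (ρ (gen s)), by rw [← ZMod.pow_card (det _), ← det_pow, h1, det_one]⟩
  have hA : ∀ s, (A s)⁻¹ = A s ^ (p - 1) := fun s =>
    inv_eq_of_mul_eq_one_left (by rw [← pow_succ, hp]; exact Subtype.ext (h1 s))
  have h3 : ∀ x ∈ Submonoid.closure {1 + ρ (FreeAlgebra.ι (ZMod p) false),
      1 + ρ (FreeAlgebra.ι (ZMod p) true)},
      ∃ g ∈ Subgroup.closure {A false, A true}, g.1 = μ x := fun x hx => by
    induction hx using Submonoid.closure_induction with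
    | mem x hx =>
      rcases hx with rfl | rfl
      · exact ⟨A false, Subgroup.subset_closure (by simp), by simp [A, gen]⟩
      · exact ⟨A true, Subgroup.subset_closure (by simp), by simp [A, gen]⟩
    | one => exact ⟨1, one_mem _, (map_one μ).symm⟩
    | mul x y _ _ hx hy =>
      obtain ⟨g, hg, e⟩ := hx
      obtain ⟨g', hg', e'⟩ := hy
      exact ⟨g * g', mul_mem hg hg', by rw [map_mul, ← e, ← e']; rfl⟩
  have h4 : Subgroup.closure {A false, A true} = ⊤ := sl_gen _ fun i j hij c => by
    obtain ⟨g, hg, e⟩ := h3 _ (ht (β i) (c • β.coord j) (by simp [hij]))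
    convert hg
    refine Subtype.ext ?_
    rw [e, map_add, map_one, SpecialLinearGroup.transvection_coe]
    congr 1
    ext a b
    by_cases h : j = b <;> simp [μ, LinearMap.toMatrixAlgEquiv_apply, single_apply,
      Finsupp.single_apply, h]
  have h5 : ∀ l : List (Fin 2 × Bool), (FreeGroup.lift ![A false, A true] (FreeGroup.mk l)).1 =
      μ (ρ (ev p (l.map fun x => (decide (x.1 = 1), x.2)))) := fun l => by
    rw [FreeGroup.lift_mk]
    induction l with
    | nil => simp
    | cons x l ih =>
      rw [List.map_cons, List.prod_cons, Matrix.SpecialLinearGroup.coe_mul, ih, List.map_cons,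
        ev_cons, map_mul, map_mul]
      congr 1
      obtain ⟨s, t⟩ := x
      fin_cases s <;> cases t <;> simp [hA, A]
  refine ⟨QuotientGroup.mk' _ (A false), QuotientGroup.mk' _ (A true), ?_, fun w hw => ?_⟩
  · rw [← Set.image_pair, ← MonoidHom.map_closure, h4]
    exact Subgroup.map_top_of_surjective _ (QuotientGroup.mk'_surjective _)
  · have h6 : FreeGroup.lift ![QuotientGroup.mk' (Subgroup.center _) (A false),
        QuotientGroup.mk' (Subgroup.center _) (A true)] =
        (QuotientGroup.mk' _).comp (FreeGroup.lift ![A false, A true]) :=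
      FreeGroup.ext_hom _ _ fun s => by fin_cases s <;> simp
    have h7 := congrArg μ (hu (w.toWord.map fun x => (decide (x.1 = 1), x.2)) (by simpa using hw))
    rw [map_pow, map_sub, map_one, map_zero, ← h5, FreeGroup.mk_toWord,
      sub_pow_char_of_commute p (Commute.one_right _), one_pow, sub_eq_zero] at h7
    rw [h6, MonoidHom.comp_apply, ← map_pow, show FreeGroup.lift ![A false, A true] w ^ p = 1 from
      Subtype.ext h7, map_one]

end Pool.Agent.Lib.MP_9675a1_al
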