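import Pool.Agent.Lib.MP_9675a1_al.Run

/-!
# The iterated commutator is a transvection
-/

set_option autoImplicit false

noncomputable section

namespace Pool.Agent.Lib.MP_9675a1_al

open FreeAlgebra

variable {F : Type} [Field F]

section

variable {U : Type} [AddCommGroup U] [Module F U]

/-- The endomorphisms shifting the flag `G` by `i`. -/
def Sh (G : ℕ → Submodule F U) (i : ℕ) : Submodule F (Module.End F U) where
  carrier := {φ | ∀ q, ∀ u ∈ G q, φ u ∈ G (q + i)}
  add_mem' := fun ha hb q u hu => add_mem (ha q u hu) (hb q u hu)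
  zero_mem' := fun _ _ _ => zero_mem _
  smul_mem' := fun _ _ ha q u hu => Submodule.smul_mem _ _ (ha q u hu)

variable {G : ℕ → Submodule F U} {i j : ℕ}

lemma Sh_mul {φ ψ : Module.End F U} (h1 : φ ∈ Sh G i) (h2 : ψ ∈ Sh G j) : φ * ψ ∈ Sh G (i + j) :=
  fun q u hu => by
    have := h1 _ _ (h2 q u hu)
    rwa [add_assoc, add_comm j] at this

lemma Sh_left {φ ψ : Module.End F U} (h1 : φ ∈ Sh G 0) (h2 : ψ ∈ Sh G j) : φ * ψ ∈ Sh G j := by
  simpa using Sh_mul h1 h2

lemma Sh_right {φ ψ : Module.End F U} (h1 : φ ∈ Sh G i) (h2 : ψ ∈ Sh G 0) : φ * ψ ∈ Sh G i :=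
  Sh_mul h1 h2

lemma Sh_comm {x x' y y' : Module.End F U} (hx : x * x' = 1) (hy : y * y' = 1)
    (h1 : x - 1 ∈ Sh G i) (h2 : y - 1 ∈ Sh G j) (h3 : x' ∈ Sh G 0) (h4 : y' ∈ Sh G 0) :
    x * y * x' * y' - 1 ∈ Sh G (i + j) := by
  have h : x * y * x' * y' - 1 = ((x - 1) * (y - 1) - (y - 1) * (x - 1)) * x' * y' +
      (y * (x * x') * y' - 1) := by noncomm_ring
  rw [h, hx, mul_one, hy, sub_self, add_zero]
  exact Sh_right (Sh_right (sub_mem (Sh_mul h1 h2) (add_comm i j ▸ Sh_mul h2 h1)) h3) h4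

lemma ad_pow {X γ : Module.End F U} {m : ℕ} (hm : 1 ≤ m) (h0 : ∀ j, m + 1 ≤ j → X ^ j = 0)
    (h1 : X ^ (m - 1) * γ * X ^ m = 0) :
    ((LinearMap.mulLeft F X - LinearMap.mulRight F X) ^ (2 * m - 1)) γ =
      ((-1 : F) ^ (m - 1) * ((2 * m - 1).choose m : F)) • (X ^ m * γ * X ^ (m - 1)) := by
  have hc : Commute (LinearMap.mulLeft F X) (-LinearMap.mulRight F X) :=
    Commute.neg_right (R := Module.End F (Module.End F U)) (LinearMap.commute_mulLeft_right X X)
  have h2 : ∀ i l c : ℕ, (LinearMap.mulLeft F X ^ i * (-LinearMap.mulRight F X) ^ l *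
      (c : Module.End F (Module.End F U))) γ = ((-1 : F) ^ l * c) • (X ^ i * γ * X ^ l) := by
    intro i l c
    rw [← neg_one_smul F (LinearMap.mulRight F X), smul_pow, LinearMap.pow_mulLeft,
      LinearMap.pow_mulRight]
    simp [← Nat.cast_smul_eq_nsmul F, smul_smul, mul_assoc, mul_comm]
  rw [sub_eq_add_neg, hc.add_pow, LinearMap.sum_apply, Finset.sum_eq_single m, h2,
    show 2 * m - 1 - m = m - 1 by omega]
  · intro i hi him
    rw [Finset.mem_range] at hi
    rw [h2]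
    rcases lt_or_gt_of_ne him with h | h
    · rcases eq_or_ne i (m - 1) with rfl | h3
      · rw [show 2 * m - 1 - (m - 1) = m by omega, h1, smul_zero]
      · rw [h0 (2 * m - 1 - i) (by omega), mul_zero, smul_zero]
    · rw [h0 i h, zero_mul, zero_mul, smul_zero]
  · intro h
    exact absurd (Finset.mem_range.mpr (by omega)) h

lemma iter_comm (p : ℕ) [Fact p.Prime] [CharP F p] (ρ : T F →ₐ[F] Module.End F U)
    (hs : ∀ s, ρ (ι F s) ^ p = 0) (h0 : ∀ x, ρ x ∈ Sh G 0) (hz : ∀ φ ∈ Sh G (i + i), φ = 0) {k : ℕ}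
    (hγ : ρ (ev p (c3 k)) - 1 ∈ Sh G i) (j : ℕ) :
    ρ (ev p (hl k j)) = 1 + ((LinearMap.mulLeft F (ρ (ι F false)) -
      LinearMap.mulRight F (ρ (ι F false))) ^ j) (ρ (ev p (c3 k)) - 1) *
        ((1 + ρ (ι F false)) ^ (p - 1)) ^ j := by
  set X := ρ (ι F false)
  set D := LinearMap.mulLeft F X - LinearMap.mulRight F X
  set γ := ρ (ev p (c3 k)) - 1
  have ha : ρ (ev p la) = 1 + X := by simp [la, gen, X]
  have ha' : ρ (ev p (FreeGroup.invRev la)) = (1 + X) ^ (p - 1) := by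
    simp [la, gen, X, ev, FreeGroup.invRev]
  have hinv := fun l => map_ev_inv p (ρ : T F →+* Module.End F U) hs l
  simp only [RingHom.coe_coe] at hinv
  have haa := (hinv la).1
  rw [ha, ha'] at haa
  set a' := (1 + X) ^ (p - 1)
  have hc : Commute X a' := ((Commute.one_right X).add_right (Commute.refl X)).pow_right _
  have hD : ∀ j, (D ^ j) γ ∈ Sh G i := fun j => by
    induction j with
    | zero => exact hγ
    | succ j ih =>
      rw [pow_succ', Module.End.mul_apply]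
      exact sub_mem (Sh_left (h0 _) ih) (Sh_right ih (h0 _))
  induction j with
  | zero => simp [hl, γ]
  | succ j ih =>
    have h1 : (D ^ j) γ * a' ^ j ∈ Sh G i := Sh_right (hD j) (by rw [← ha', ← map_pow]; exact h0 _)
    have h2 : (D ^ (j + 1)) γ * a' ^ (j + 1) =
        (1 + X) * ((D ^ j) γ * a' ^ j) * a' - (D ^ j) γ * a' ^ j := by
      have h3 : (D ^ j) γ * a' ^ j = (D ^ j) γ * ((1 + X) * a') * a' ^ j := by rw [haa, mul_one]
      rw [pow_succ' D, Module.End.mul_apply]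
      generalize (D ^ j) γ = z at h3 ⊢
      nth_rewrite 2 [h3]
      rw [mul_assoc _ _ (a' ^ j), mul_assoc _ a', mul_assoc _ _ a', mul_assoc _ _ a', ← pow_succ,
        ← pow_succ']
      simp only [D, LinearMap.sub_apply, LinearMap.mulLeft_apply, LinearMap.mulRight_apply]
      noncomm_ring
    have h4 := (hinv (hl k j)).1
    rw [hl, ev_cm, map_mul, map_mul, map_mul, ha, ha', h2]
    rw [ih] at h4 ⊢
    generalize (D ^ j) γ * a' ^ j = δ at h1 h4 ⊢
    generalize ρ (ev p (FreeGroup.invRev (hl k j))) = h' at h4 ⊢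
    have h5 : δ * δ = 0 := hz _ (Sh_mul h1 h1)
    have h6 : (1 + X) * δ * a' * δ = 0 := hz _ (Sh_mul (Sh_right (Sh_left (ha ▸ h0 _) h1)
      (ha' ▸ h0 _)) h1)
    have h7 : h' = 1 - δ := by
      have h9 : (1 - δ) * (1 + δ) = 1 - δ * δ := by noncomm_ring
      rw [h5, sub_zero] at h9
      rw [← one_mul h', ← h9, mul_assoc, h4, mul_one, h9]
    have h8 : (1 + X) * (1 + δ) * a' * (1 - δ) = (1 + X) * a' * (1 - δ) + (1 + X) * δ * a' -
      (1 + X) * δ * a' * δ := by noncomm_ring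
    rw [h7, h8, haa, h6]
    noncomm_ring

end

variable {W : Type} [AddCommGroup W] [Module F W] {L : ℕ} (S : Seg F W L)

theorem tv (p : ℕ) [Fact p.Prime] [CharP F p] {α m k J : ℕ} (hα1 : 1 ≤ α) (hm : m = α + 2)
    (hk : k = α + 4) (hJ : J = 6 * k + 5) (hp : 10 * α + 36 ≤ p)
    (hα : ∀ s, S.ρ (ι F s ^ α) = 0) (h1 : S.ρ (ev p (c1 k) - 1) = 0)
    (h2 : S.ρ (ev p (c2 k) - 1) = 0) :
    ∃ κ : F, κ ≠ 0 ∧ ∀ u, rU S (2 * m + J + 2) (slm m J) (ev p (hl k (2 * m - 1))) u =
      u + (κ * co _ 1 u.2.1) • vU S _ (2 * m + J) := by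
  obtain ⟨g1, g2, y, hy, g3, g4⟩ := lead F p (k := k) (by omega)
  have hJ2 : J % 2 = 1 := by omega
  set n := 2 * m + J + 2 with hn
  set ρ := rU S n (slm m J) with hρ
  have hs : ∀ s, ρ (ι F s) ^ p = 0 := fun s => by
    rw [← map_pow]
    exact unip S (Eqd_le_Ge 1 (ι_mem s)) (hα s) (by omega)
  let G : ℕ → Submodule F (W × (Fin n → F) × W) := fun q =>
    if q = 0 then ⊤ else if q < 2 * (2 * k + 1) + n then Fl W n (q - (2 * k + 1)) else ⊥
  have h0 : ∀ x, ρ x ∈ Sh G 0 := fun x q u hu => by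
    simp only [G, add_zero] at hu ⊢
    split_ifs at hu ⊢
    · trivial
    · exact fl_Ge S (mem_Ge_zero x) hu
    · rw [(Submodule.mem_bot F).mp hu, map_zero]; exact zero_mem _
  have hb : ∀ x ∈ Ge F (2 * k + 1), S.ρ x = 0 → ρ x ∈ Sh G (2 * k + 1) := fun x hx hx0 q u hu => by
    simp only [G] at hu ⊢
    rw [if_neg (by omega)]
    by_cases a1 : q = 0
    · rw [if_pos (by omega), a1, zero_add, Nat.sub_self]; exact rel_mem S hx0 u
    rw [if_neg a1] at hu
    by_cases a2 : q < 2 * (2 * k + 1) + n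
    · rw [if_pos a2] at hu
      split_ifs with a3
      · exact Fl_anti (by omega) (fl_Ge S hx hu)
      · exact rel_zero S hx0 (by omega) hu
    · rw [if_neg a2] at hu
      rw [(Submodule.mem_bot F).mp hu, map_zero]; exact zero_mem _
  have hinv := fun l => (map_ev_inv p (ρ : T F →+* Module.End F (W × (Fin n → F) × W)) hs l).1
  simp only [RingHom.coe_coe] at hinv
  have k1 := hb _ g1 h1
  have k2 := hb _ g2 h2
  rw [map_sub, map_one] at k1 k2
  have k3 := Sh_comm (hinv _) (hinv _) k1 k2 (h0 _) (h0 _)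
  rw [← map_mul, ← map_mul, ← map_mul, ← ev_cm] at k3
  have k4 := Sh_comm (hinv _) (hinv _) k3 k2 (h0 _) (h0 _)
  rw [← map_mul, ← map_mul, ← map_mul, ← ev_cm, ← c3] at k4
  have k5 := iter_comm p ρ hs h0 (fun φ hφ => LinearMap.ext fun u => by
    have := hφ 0 u (by simp [G])
    simp only [G] at this
    rwa [if_neg (by omega), if_neg (by omega)] at this) k4 (2 * m - 1)
  set γ := ρ (ev p (c3 k)) - 1 with hγ
  have hγ' : γ = ρ (ev p (c3 k) - 1 - y) + ρ y := by simp [hγ]
  have k6 : γ (vU S n (2 * m + J)) = 0 := by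
    have := k4 (2 * k + 1 + (2 * m + J)) (vU S n (2 * m + J)) (by
      simp only [G]
      rw [if_neg (by omega), if_pos (by omega), Nat.add_sub_cancel_left]
      exact vU_mem S _)
    simp only [G] at this
    rwa [if_neg (by omega), if_neg (by omega)] at this
  have k7 : ∀ u ∈ Fl (F := F) W n (m + J + 1), co n (m + J) u.2.1 = 0 := fun u hu => by
    rw [co_apply (by omega)]
    exact hu.2 _ (by simp)
  have k8 : ∀ u, co n (m + J) (γ ((ρ (ι F false) ^ (m - 1)) u)).2.1 =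
      co n 1 u.2.1 * (4 * ((-2) ^ k) ^ 3) := fun u => by
    have a1 := pow_pred S hJ2 (hα false) hm.ge (by omega) u
    have a2 := k7 _ (Fl_anti (by omega) (fl_Ge (sl := slm m J) S g3 (vU_mem S m)))
    have a3 := k7 _ (Fl_anti (by omega) (fl_Ge (sl := slm m J) S
      (add_mem (Ge_anti (Nat.le_succ _) g3) (Eqd_le_Ge _ hy)) a1))
    have a4 := alt_co S (m := m) hJ2 (hJ ▸ hy)
    rw [map_add, ← hρ, ← hγ', map_sub, map_smul] at a3
    simp only [Prod.snd_sub, Prod.fst_sub, map_sub, Prod.smul_snd, Prod.smul_fst, map_smul,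
      sub_eq_zero] at a3
    rw [a3, hγ', ← g4, ← a4]
    simp only [LinearMap.add_apply, Prod.snd_add, Prod.fst_add, map_add]
    rw [a2, zero_add, smul_eq_mul]
  have k9 : ∀ (j : ℕ) u, co n 1 (((1 + ρ (ι F false)) ^ j) u).2.1 = co n 1 u.2.1 := fun j u => by
    induction j with
    | zero => simp
    | succ j ih =>
      rw [pow_succ', Module.End.mul_apply, ← ih]
      simp [hρ, co_one S (n := n) (sl := slm m J) (by omega) (by simp [slm])]
  rw [ad_pow (by omega) (fun j hj => pow_zero' S hJ2 (hα false) hm.ge hj)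
    (LinearMap.ext fun u => by
      rw [Module.End.mul_apply, Module.End.mul_apply, pow_top S hJ2 (hα false) hm.ge, map_smul, k6]
      simp)] at k5
  have h2' : (2 : F) ≠ 0 := fun h => by
    have := Nat.le_of_dvd two_pos ((CharP.cast_eq_zero_iff F p 2).mp (by exact_mod_cast h))
    omega
  refine ⟨(-1) ^ (m - 1) * ((2 * m - 1).choose m : F) * (4 * ((-2) ^ k) ^ 3), ?_, fun u => ?_⟩
  · refine mul_ne_zero (mul_ne_zero (pow_ne_zero _ (by simp)) fun h => ?_)
      (mul_ne_zero (by rw [show (4 : F) = 2 * 2 by norm_num]; exact mul_ne_zero h2' h2')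
        (pow_ne_zero _ (pow_ne_zero _ (neg_ne_zero.mpr h2'))))
    have h3 := ((CharP.cast_eq_zero_iff F p _).mp h).trans (Dvd.intro _
      ((mul_assoc _ _ _).symm.trans (Nat.choose_mul_factorial_mul_factorial
        (show m ≤ 2 * m - 1 by omega))))
    have := (Fact.out : p.Prime).dvd_factorial.mp h3
    omega
  · rw [k5, ← pow_mul]
    simp only [LinearMap.add_apply, Module.End.one_apply, Module.End.mul_apply,
      LinearMap.smul_apply]
    rw [pow_top S hJ2 (hα false) hm.ge, k8, k9, smul_smul]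
    congr 2
    ring

end Pool.Agent.Lib.MP_9675a1_al
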