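import Pool.Agent.Lib.MP_9675a1_al.Rel
import Pool.Agent.Lib.MP_9675a1_al.Tv
import Pool.Agent.Lib.MP_9675a1_al.Irr
import Pool.Agent.Lib.MP_9675a1_al.Grp
import Pool.Agent.Lib.MP_9675a1_al.Psl

/-!
# Assembly
-/

set_option autoImplicit false

noncomputable section

namespace Pool.Agent.Lib.MP_9675a1_al

open FreeAlgebra

lemma map_mem_closure {F A : Type} [Field F] [Ring A] [Algebra F A] (ρ : T F →ₐ[F] A) {w : T F}
    (hw : w ∈ Submonoid.closure (Set.range gen)) :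
    ρ w ∈ Submonoid.closure {1 + ρ (ι F false), 1 + ρ (ι F true)} := by
  induction hw using Submonoid.closure_induction with
  | mem x hx =>
    obtain ⟨s, rfl⟩ := hx
    refine Submonoid.subset_closure ?_
    cases s <;> simp [gen]
  | one => rw [map_one]; exact one_mem _
  | mul x y _ _ hx hy => rw [map_mul]; exact mul_mem hx hy

theorem cyc (p : ℕ) [Fact p.Prime] {W : Type} [AddCommGroup W] [Module (ZMod p) W] {L : ℕ}
    (S : Seg (ZMod p) W L) {m J : ℕ} (hm : 1 ≤ m) {l : List (Bool × Bool)} {κ : ZMod p}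
    (hκ : κ ≠ 0) (hs : ∀ s, rV S (2 * m + J + 2) (slm m J) (ι _ s) ^ (p - 1) = 0)
    (hx : ∀ u, rV S (2 * m + J + 2) (slm m J) (ev p l) u =
      u + (κ * co _ 1 u.2) • vV S _ (2 * m + J)) :
    ∀ (y : W × (Fin (2 * m + J + 2) → ZMod p)) (χ : _ →ₗ[ZMod p] ZMod p), χ y = 0 →
    1 + χ.smulRight y ∈ Submonoid.closure {1 + rV S (2 * m + J + 2) (slm m J) (ι _ false),
      1 + rV S (2 * m + J + 2) (slm m J) (ι _ true)} := by
  have := S.finite
  set n := 2 * m + J + 2 with hn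
  set ρ := rV S n (slm m J) with hρ
  have hp : p - 1 + 1 = p := Nat.sub_add_cancel (Fact.out : p.Prime).one_le
  have hinv := map_ev_inv p (ρ : T (ZMod p) →+* Module.End (ZMod p) (W × (Fin n → ZMod p)))
    (fun s => by
      have h := pow_succ (ρ (ι _ s)) (p - 1)
      rwa [hp, hs, zero_mul] at h) lb
  simp only [RingHom.coe_coe] at hinv
  have hb : ρ (ev p lb) = 1 + ρ (ι _ true) := by simp [lb, gen]
  set b := ρ (ev p lb)
  set b' := ρ (ev p (FreeGroup.invRev lb)) with hb'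
  let ψ : (W × (Fin n → ZMod p)) →ₗ[ZMod p] ZMod p := co n 1 ∘ₗ LinearMap.snd _ _ _
  have hψ : ∀ u, ψ u = u.2 ⟨0 + 1, by omega⟩ := fun u => co_apply (show 1 < n by omega) _
  have h1 : ∀ u, b' (b u) = u := fun u => by rw [← Module.End.mul_apply, hinv.2]; rfl
  have h2 : ∀ u, b (b' u) = u := fun u => by rw [← Module.End.mul_apply, hinv.1]; rfl
  have h3 : ∀ u, ψ u = ψ (b u) - (b u).2 ⟨0, by omega⟩ := fun u => by
    rw [hb]
    simp only [hψ, LinearMap.add_apply, Module.End.one_apply, Prod.snd_add, Pi.add_apply, hρ,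
      rV_co_succ, rV_co_zero]
    simp [slm]
  refine all_transvections p _ _ (hs false) (hs true)
    (fun M hX hY => irr S (by omega) (by omega) hκ hx fun s => by cases s; exacts [hX, hY])
    (b (vV S n (2 * m + J))) (κ • ψ ∘ₗ b') (fun h => ?_) ?_ ?_ ?_ fun h => ?_
  · have h4 := vV_co S (2 * m + J) (⟨2 * m + J, by omega⟩ : Fin n)
    rw [← h1 (vV S n _), h] at h4
    simp at h4
  · rw [LinearMap.smul_apply, LinearMap.comp_apply, h1, hψ, vV_co, if_neg (by simp only; omega),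
      smul_zero]
  · have h4 : 1 + (κ • ψ ∘ₗ b').smulRight (b (vV S n (2 * m + J))) = b * ρ (ev p l) * b' :=
      LinearMap.ext fun u => by
        simp only [Module.End.mul_apply, hx, map_add, h2, map_smul]
        rfl
    rw [h4]
    exact mul_mem (mul_mem (map_mem_closure ρ (ev_mem p _)) (map_mem_closure ρ (ev_mem p _)))
      (map_mem_closure ρ (ev_mem p _))
  · rw [hb, LinearMap.add_apply, Module.End.one_apply, map_add, hρ, rV_vV S _ (by omega),
      rV_vV S _ (by omega), if_neg (by simp [slm]), if_pos (by simp [slm]), rV_vV S _ (by omega),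
      if_neg (by simp [slm]), add_zero]
  · obtain ⟨w, hw⟩ := S.ne
    have h4 := LinearMap.congr_fun h (S.ρ (wd w) S.e, 0)
    rw [LinearMap.comp_apply, LinearMap.smul_apply, LinearMap.comp_apply, h3, h2, hψ, hρ,
      rV_co_succ, rV_co_zero] at h4
    simp [slm, hκ, hw] at h4

theorem main : ∃ C p₀ : ℕ, 0 < C ∧ ∀ (p : ℕ) [Fact p.Prime], p₀ ≤ p → ∀ d ≤ 2 ^ (p / C), ∀ N : ℕ,
    ∃ n : ℕ, N < n ∧ 3 ≤ n ∧ ∃ a b : Matrix.ProjectiveSpecialLinearGroup (Fin n) (ZMod p),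
      Subgroup.closure {a, b} = ⊤ ∧ ∀ w : FreeGroup (Fin 2), (FreeGroup.toWord w).length ≤ d →
        (FreeGroup.lift ![a, b] w) ^ p = 1 := by
  obtain ⟨C, p₀, hC, hp₀, h⟩ := params
  refine ⟨C, p₀, hC, fun p _ hp d hd N => ?_⟩
  obtain ⟨D, hD, h1, h2⟩ := h p hp _ le_rfl
  have hd1 : 1 ≤ 2 ^ (p / C) := Nat.one_le_two_pow
  generalize 2 ^ (p / C) = d' at hd h2 hd1
  obtain ⟨α, hα⟩ : ∃ α, α = (p - 36) / 10 := ⟨_, rfl⟩
  rw [← hα] at h1
  obtain ⟨m, hm⟩ : ∃ m, m = α + 2 := ⟨_, rfl⟩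
  obtain ⟨k, hk⟩ : ∃ k, k = α + 4 := ⟨_, rfl⟩
  obtain ⟨J, hJ⟩ : ∃ J, J = 6 * k + 5 := ⟨_, rfl⟩
  obtain ⟨g1, g2, -⟩ := lead (ZMod p) p (k := k) (by omega)
  obtain ⟨L₀, hL₀⟩ := exists_Le_list (ev p (hl k (2 * m - 1)) ::
    (List.finite_length_le (Bool × Bool) d').toFinset.toList.map
      fun l => ((ev p l : T (ZMod p)) - 1) ^ (p - 1))
  obtain ⟨φ, f1, f2, f3, f4, f5⟩ := exists_fun (ZMod p) p (by omega) hD h1 h2
    (Ge_anti (by omega) g1) (Ge_anti (by omega) g2) (max L₀ N)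
  obtain ⟨W, _, _, S, hS⟩ := exists_seg φ _ f1 f2
  have := S.finite
  have hu : ∀ l : List (Bool × Bool), l.length ≤ d' →
      (rV S (2 * m + J + 2) (slm m J) (ev p l) - 1) ^ (p - 1) = 0 := fun l hl => by
    rw [← map_one (rV S _ _), ← map_sub, ← map_pow]
    refine LinearMap.ext fun ⟨v, w⟩ => ?_
    rw [← transfer S (Le_mono (le_max_left _ _) (hL₀ _ (List.mem_cons_of_mem _
      (List.mem_map.mpr ⟨l, by simpa using hl, rfl⟩)))),
      unip S (sub_one_mem (ev_mem p l)) (hS _ (f5 l hl)) (by omega)]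
    simp
  have hs : ∀ s, rV S (2 * m + J + 2) (slm m J) (ι _ s) ^ (p - 1) = 0 := fun s => by
    simpa [gen] using hu [(s, true)] hd1
  obtain ⟨κ, hκ, ht⟩ := tv S p (by omega) hm hk hJ (by omega)
    (fun s => by simpa [gen] using hS _ (f5 [(s, true)] hd1)) (hS _ f3) (hS _ f4)
  have hx : ∀ u, rV S (2 * m + J + 2) (slm m J) (ev p (hl k (2 * m - 1))) u =
      u + (κ * co _ 1 u.2) • vV S _ (2 * m + J) := fun ⟨v, w⟩ => by
    rw [← transfer S (Le_mono (le_max_left _ _) (hL₀ _ List.mem_cons_self)), ht, map_add, map_smul,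
      fold_vU, fold_apply, add_zero]
  have hr : max L₀ N + (2 * m + J + 2) <
      Module.finrank (ZMod p) (W × (Fin (2 * m + J + 2) → ZMod p)) := by
    simpa using S.rank
  have hp1 : ∀ {A : Type} [Monoid A] (z : A), z ^ p = z ^ (p - 1) * z := fun z => by
    rw [← pow_succ, Nat.sub_add_cancel (by omega)]
  obtain ⟨a, b, hab, hw⟩ := to_psl p (by omega) (rV S (2 * m + J + 2) (slm m J)) d'
    (fun s => by rw [hp1, hs, zero_mul]) (fun l hl => by rw [hp1, hu l hl, zero_mul])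
    (cyc p S (by omega) hκ hs hx)
  exact ⟨_, by omega, by omega, a, b, hab, fun w hw' => hw w (hw'.trans hd)⟩

end Pool.Agent.Lib.MP_9675a1_al
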