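import Mathlib

/-!
# The free algebra on two letters, its words and its degree filtration
-/

set_option autoImplicit false

noncomputable section

namespace Pool.Agent.Lib.MP_9675a1_al

/-- The free algebra on the letters `X = false` and `Y = true`. -/
abbrev T (F : Type) [Field F] := FreeAlgebra F Bool

variable {F : Type} [Field F]

/-- The monomial of a word; the rightmost letter acts first. -/
def wd (m : List Bool) : T F := (m.map (FreeAlgebra.ι F)).prod

@[simp] lemma wd_nil : (wd [] : T F) = 1 := rfl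

lemma wd_cons (s : Bool) (m : List Bool) : (wd (s :: m) : T F) = FreeAlgebra.ι F s * wd m := by
  simp [wd]

lemma wd_append (m m' : List Bool) : (wd (m ++ m') : T F) = wd m * wd m' := by simp [wd]

@[simp] lemma wd_single (s : Bool) : (wd [s] : T F) = FreeAlgebra.ι F s := by simp [wd]

lemma basis_eq (m : List Bool) :
    FreeAlgebra.basisFreeMonoid F Bool (FreeMonoid.ofList m) = wd m := by
  have h : ∀ m : List Bool, FreeAlgebra.equivMonoidAlgebraFreeMonoid (wd m : T F) =
      MonoidAlgebra.single (FreeMonoid.ofList m) 1 := by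
    intro m
    induction m with
    | nil => rw [wd_nil, map_one]; rfl
    | cons s m ih =>
      rw [wd_cons, map_mul, ih, FreeMonoid.ofList_cons, ← one_mul (1 : F),
        ← MonoidAlgebra.single_mul_single]
      simp [FreeAlgebra.equivMonoidAlgebraFreeMonoid]
  apply FreeAlgebra.equivMonoidAlgebraFreeMonoid.injective
  rw [h]
  simp [FreeAlgebra.basisFreeMonoid]

lemma exists_lin {M : Type} [AddCommGroup M] [Module F M] (f : List Bool → M) :
    ∃ φ : T F →ₗ[F] M, ∀ m, φ (wd m) = f m :=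
  ⟨(FreeAlgebra.basisFreeMonoid F Bool).constr F fun m => f (FreeMonoid.toList m), fun m => by
    rw [← basis_eq, Module.Basis.constr_basis]; rfl⟩

lemma span_wd : Submodule.span F (Set.range (wd : List Bool → T F)) = ⊤ := by
  rw [← (FreeAlgebra.basisFreeMonoid F Bool).span_eq]
  congr 1
  ext x
  exact ⟨fun ⟨m, hm⟩ => ⟨FreeMonoid.ofList m, (basis_eq m).trans hm⟩,
    fun ⟨m, hm⟩ => ⟨FreeMonoid.toList m, (basis_eq _).symm.trans hm⟩⟩

lemma lin_ext {M : Type} [AddCommGroup M] [Module F M] {φ ψ : T F →ₗ[F] M}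
    (h : ∀ m, φ (wd m) = ψ (wd m)) : φ = ψ :=
  LinearMap.ext_on_range span_wd h

/-- The span of the words whose length satisfies `P`. -/
def Sp (F : Type) [Field F] (P : ℕ → Prop) : Submodule F (T F) :=
  Submodule.span F (wd '' {m | P m.length})

/-- Elements of degree at least `n`. -/
abbrev Ge (F : Type) [Field F] (n : ℕ) : Submodule F (T F) := Sp F fun k => n ≤ k

/-- Elements of degree at most `n`. -/
abbrev Le (F : Type) [Field F] (n : ℕ) : Submodule F (T F) := Sp F fun k => k ≤ n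

/-- Homogeneous elements of degree `n`. -/
abbrev Eqd (F : Type) [Field F] (n : ℕ) : Submodule F (T F) := Sp F fun k => k = n

lemma wd_mem {P : ℕ → Prop} {m : List Bool} (h : P m.length) : (wd m : T F) ∈ Sp F P :=
  Submodule.subset_span ⟨m, h, rfl⟩

lemma Sp_le {P : ℕ → Prop} {W : Submodule F (T F)} (h : ∀ m, P m.length → wd m ∈ W) :
    Sp F P ≤ W :=
  Submodule.span_le.mpr fun _ ⟨m, hm, e⟩ => e ▸ h m hm

lemma Sp_mono {P Q : ℕ → Prop} (h : ∀ k, P k → Q k) : Sp F P ≤ Sp F Q :=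
  Sp_le fun _ hm => wd_mem (h _ hm)

/-- A linear map sends `Sp F P` into `W` as soon as it sends the words there. -/
lemma Sp_map {M : Type} [AddCommGroup M] [Module F M] {P : ℕ → Prop} (φ : T F →ₗ[F] M)
    {W : Submodule F M} (h : ∀ m, P m.length → φ (wd m) ∈ W) {x : T F} (hx : x ∈ Sp F P) :
    φ x ∈ W :=
  Sp_le (W := W.comap φ) h hx

lemma Sp_zero {M : Type} [AddCommGroup M] [Module F M] {P : ℕ → Prop} (φ : T F →ₗ[F] M)
    (h : ∀ m, P m.length → φ (wd m) = 0) {x : T F} (hx : x ∈ Sp F P) : φ x = 0 :=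
  Sp_map φ (W := ⊥) h hx

lemma Sp_mul {P Q R : ℕ → Prop} (h : ∀ i j, P i → Q j → R (i + j)) {x y : T F}
    (hx : x ∈ Sp F P) (hy : y ∈ Sp F Q) : x * y ∈ Sp F R :=
  Sp_map (LinearMap.mulRight F y) (fun m hm => Sp_map (LinearMap.mulLeft F (wd m))
    (fun m' hm' => by
      rw [LinearMap.mulLeft_apply, ← wd_append]
      exact wd_mem (by simpa using h _ _ hm hm')) hy) hx

lemma mem_Ge_zero (x : T F) : x ∈ Ge F 0 := by
  have : Submodule.span F (Set.range (wd : List Bool → T F)) ≤ Ge F 0 :=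
    Submodule.span_le.mpr fun _ ⟨m, e⟩ => e ▸ wd_mem (Nat.zero_le _)
  exact this (by rw [span_wd]; exact Submodule.mem_top)

lemma Ge_anti {i j : ℕ} (h : i ≤ j) : Ge F j ≤ Ge F i := Sp_mono fun _ hk => h.trans hk

lemma Le_mono {i j : ℕ} (h : i ≤ j) : Le F i ≤ Le F j := Sp_mono fun _ hk => hk.trans h

lemma Eqd_le_Ge (n : ℕ) : Eqd F n ≤ Ge F n := Sp_mono fun _ hk => hk.ge

lemma Ge_mul {i j : ℕ} {x y : T F} (hx : x ∈ Ge F i) (hy : y ∈ Ge F j) : x * y ∈ Ge F (i + j) :=
  Sp_mul (fun _ _ => add_le_add) hx hy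

lemma Ge_mul_right {i : ℕ} {x : T F} (hx : x ∈ Ge F i) (y : T F) : x * y ∈ Ge F i := by
  simpa using Ge_mul hx (mem_Ge_zero y)

lemma Ge_mul_left {i : ℕ} {y : T F} (x : T F) (hy : y ∈ Ge F i) : x * y ∈ Ge F i := by
  simpa using Ge_mul (mem_Ge_zero x) hy

lemma Ge_pow {x : T F} (hx : x ∈ Ge F 1) (n : ℕ) : x ^ n ∈ Ge F n := by
  induction n with
  | zero => exact mem_Ge_zero _
  | succ n ih => rw [pow_succ]; exact Ge_mul ih hx

lemma Eqd_mul {i j : ℕ} {x y : T F} (hx : x ∈ Eqd F i) (hy : y ∈ Eqd F j) :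
    x * y ∈ Eqd F (i + j) :=
  Sp_mul (fun _ _ h1 h2 => by rw [h1, h2]) hx hy

lemma ι_mem (s : Bool) : FreeAlgebra.ι F s ∈ Eqd F 1 := wd_single (F := F) s ▸ wd_mem rfl

lemma exists_Le (x : T F) : ∃ n, x ∈ Le F n := by
  have hx : x ∈ Submodule.span F (Set.range (wd : List Bool → T F)) := by
    rw [span_wd]; exact Submodule.mem_top
  induction hx using Submodule.span_induction with
  | mem x hx => obtain ⟨m, rfl⟩ := hx; exact ⟨_, wd_mem le_rfl⟩
  | zero => exact ⟨0, zero_mem _⟩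
  | add x y _ _ hx hy =>
    obtain ⟨i, hi⟩ := hx
    obtain ⟨j, hj⟩ := hy
    exact ⟨max i j, add_mem (Le_mono (le_max_left _ _) hi) (Le_mono (le_max_right _ _) hj)⟩
  | smul c x _ hx => obtain ⟨i, hi⟩ := hx; exact ⟨i, Submodule.smul_mem _ _ hi⟩

lemma exists_Le_list (l : List (T F)) : ∃ n, ∀ x ∈ l, x ∈ Le F n := by
  induction l with
  | nil => exact ⟨0, by simp⟩
  | cons x l ih =>
    obtain ⟨i, hi⟩ := exists_Le x
    obtain ⟨j, hj⟩ := ih
    refine ⟨max i j, fun y hy => ?_⟩
    rcases List.mem_cons.mp hy with rfl | hy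
    exacts [Le_mono (le_max_left _ _) hi, Le_mono (le_max_right _ _) (hj y hy)]

/-- The generators `a = 1 + X` and `b = 1 + Y`. -/
def gen (s : Bool) : T F := 1 + FreeAlgebra.ι F s

/-- A group word, with the inverse of a generator read as its `(p-1)`-th power. -/
def ev (p : ℕ) (l : List (Bool × Bool)) : T F :=
  (l.map fun x => if x.2 then gen x.1 else gen x.1 ^ (p - 1)).prod

@[simp] lemma ev_nil (p : ℕ) : (ev p [] : T F) = 1 := rfl

lemma ev_cons (p : ℕ) (x : Bool × Bool) (l : List (Bool × Bool)) :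
    (ev p (x :: l) : T F) = (if x.2 then gen x.1 else gen x.1 ^ (p - 1)) * ev p l := by
  simp [ev]

lemma ev_append (p : ℕ) (l l' : List (Bool × Bool)) :
    (ev p (l ++ l') : T F) = ev p l * ev p l' := by simp [ev]

@[simp] lemma ev_gen (p : ℕ) (s : Bool) : (ev p [(s, true)] : T F) = gen s := by simp [ev]

lemma ev_mem (p : ℕ) (l : List (Bool × Bool)) :
    (ev p l : T F) ∈ Submonoid.closure (Set.range gen) := by
  induction l with
  | nil => exact one_mem _
  | cons x l ih =>
    rw [ev_cons]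
    refine mul_mem ?_ ih
    have h : (gen x.1 : T F) ∈ Submonoid.closure (Set.range gen) :=
      Submonoid.subset_closure ⟨_, rfl⟩
    split_ifs
    exacts [h, pow_mem h _]

lemma sub_one_mem {w : T F} (hw : w ∈ Submonoid.closure (Set.range gen)) : w - 1 ∈ Ge F 1 := by
  induction hw using Submonoid.closure_induction with
  | mem x hx => obtain ⟨s, rfl⟩ := hx; simpa [gen] using Eqd_le_Ge 1 (ι_mem s)
  | one => simp
  | mul x y _ _ hx hy =>
    rw [show x * y - 1 = (x - 1) * y + (y - 1) by noncomm_ring]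
    exact add_mem (Ge_mul_right hx _) hy

/-- The commutator word `l l' l⁻¹ l'⁻¹`. -/
def cm (l l' : List (Bool × Bool)) : List (Bool × Bool) :=
  l ++ l' ++ FreeGroup.invRev l ++ FreeGroup.invRev l'

lemma ev_cm (p : ℕ) (l l' : List (Bool × Bool)) : (ev p (cm l l') : T F) =
    ev p l * ev p l' * ev p (FreeGroup.invRev l) * ev p (FreeGroup.invRev l') := by
  simp only [cm, ev_append]

lemma gen_pow (p : ℕ) [Fact p.Prime] [CharP F p] (s : Bool) :
    (gen s : T F) ^ p = 1 + FreeAlgebra.ι F s ^ p := by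
  have : CharP (T F) p := charP_of_injective_algebraMap (FreeAlgebra.algebraMap_leftInverse
    (R := F) (X := Bool)).injective p
  rw [gen, add_pow_char_of_commute p (Commute.one_left _), one_pow]

/-- In a representation with `X ^ p = Y ^ p = 0` the formal inverse is the inverse. -/
lemma map_ev_inv (p : ℕ) [Fact p.Prime] [CharP F p] {A : Type} [Ring A] (ρ : T F →+* A)
    (h : ∀ s, ρ (FreeAlgebra.ι F s) ^ p = 0) (l : List (Bool × Bool)) :
    ρ (ev p l) * ρ (ev p (FreeGroup.invRev l)) = 1 ∧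
      ρ (ev p (FreeGroup.invRev l)) * ρ (ev p l) = 1 := by
  have hp : p - 1 + 1 = p := Nat.sub_add_cancel (Fact.out : p.Prime).one_le
  have h1 : ∀ s, ρ (gen s) ^ (p - 1) * ρ (gen s) = 1 := fun s => by
    rw [← pow_succ, hp, ← map_pow, gen_pow, map_add, map_pow, h, map_one, add_zero]
  have h2 : ∀ s, ρ (gen s) * ρ (gen s) ^ (p - 1) = 1 := fun s => by
    rw [← pow_succ', pow_succ, h1]
  induction l with
  | nil => simp
  | cons x l ih =>
    obtain ⟨s, t⟩ := x
    rw [FreeGroup.invRev_cons, ev_append, ev_cons, map_mul, map_mul]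
    have h3 : FreeGroup.invRev [(s, t)] = [(s, !t)] := rfl
    rw [h3, ev_cons, ev_nil, mul_one]
    constructor
    · rw [mul_assoc, ← mul_assoc (ρ (ev p l)), ih.1, one_mul]
      cases t <;> simp [h1, h2]
    · rw [mul_assoc, ← mul_assoc _ _ (ρ (ev p l))]
      cases t <;> simp [h1, h2, ih.2]

lemma ev_inv_mem (p : ℕ) [Fact p.Prime] [CharP F p] (l : List (Bool × Bool)) :
    (ev p l : T F) * ev p (FreeGroup.invRev l) - 1 ∈ Ge F p := by
  have hp : p - 1 + 1 = p := Nat.sub_add_cancel (Fact.out : p.Prime).one_le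
  have h1 : ∀ s, (gen s : T F) ^ (p - 1) * gen s - 1 ∈ Ge F p := fun s => by
    rw [← pow_succ, hp, gen_pow, add_sub_cancel_left]
    exact Ge_pow (Eqd_le_Ge 1 (ι_mem s)) p
  have h2 : ∀ s, (gen s : T F) * gen s ^ (p - 1) - 1 ∈ Ge F p := fun s => by
    rw [← pow_succ', pow_succ]; exact h1 s
  have h4 : ∀ x x' y y' : T F, x * x' - 1 ∈ Ge F p → y * y' - 1 ∈ Ge F p →
      x * y * (y' * x') - 1 ∈ Ge F p := fun x x' y y' hx hy => by
    rw [show x * y * (y' * x') - 1 = x * (y * y' - 1) * x' + (x * x' - 1) by noncomm_ring]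
    exact add_mem (Ge_mul_right (Ge_mul_left _ hy) _) hx
  induction l with
  | nil => simp
  | cons x l ih =>
    obtain ⟨s, t⟩ := x
    have h3 : FreeGroup.invRev [(s, t)] = [(s, !t)] := rfl
    rw [FreeGroup.invRev_cons, ev_append, ev_cons, h3, ev_cons, ev_nil, mul_one]
    refine h4 _ _ _ _ ?_ ih
    cases t <;> simp [h1, h2]

end Pool.Agent.Lib.MP_9675a1_al
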