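import Pool.Agent.Lib.MP_9675a1_al.Basic

/-!
# The Golod-Shafarevich inequality, in dual form
-/

set_option autoImplicit false

noncomputable section

namespace Pool.Agent.Lib.MP_9675a1_al

variable {F : Type} [Field F]

open Module

theorem GS_rank {D ι : Type} [AddCommGroup D] [Module F D] [Fintype ι] (W U : Submodule F D)
    (A : ι → Submodule F D) (_ : Module.Finite F W) (_ : Module.Finite F U)
    (_ : ∀ i, Module.Finite F (A i))
    (f : ι → D →ₗ[F] D) (h1 : ∀ i, ∀ x ∈ W, f i x ∈ A i)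
    (h2 : ∀ x ∈ W, (∀ i, f i x = 0) → x ∈ U) : finrank F W ≤ finrank F U + ∑ i, finrank F (A i) := by
  let g : W →ₗ[F] ∀ i, A i := LinearMap.pi fun i => (f i).restrict (h1 i)
  have e1 := g.finrank_range_add_finrank_ker
  have e2 := Submodule.finrank_le (LinearMap.range g)
  rw [finrank_pi_fintype] at e2
  have e3 : finrank F (LinearMap.ker g) ≤ finrank F U := by
    rw [← Submodule.finrank_map_subtype_eq]
    refine Submodule.finrank_mono ?_
    rintro _ ⟨x, hx, rfl⟩
    exact h2 x x.2 fun i => congrArg Subtype.val (congrFun (LinearMap.mem_ker.mp hx) i)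
  omega

theorem GS_ite {D : Type} [AddCommGroup D] [Module F D] (c : Prop) [Decidable c] (A : Submodule F D)
    (hA : Module.Finite F A) : Module.Finite F ↥(if c then A else ⊥) ∧
      finrank F ↥(if c then A else ⊥) = if c then finrank F A else 0 := by
  by_cases h : c
  · rw [if_pos h, if_pos h]
    exact ⟨hA, rfl⟩
  · rw [if_neg h, if_neg h]
    exact ⟨inferInstance, finrank_bot _ _⟩

theorem GS_real {ι : Type} [Fintype ι] (a : ℕ → ℝ) (c : ι → ℕ) {t : ℝ} (ht0 : 0 < t) (ht1 : t < 1)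
    (ha : ∀ n, 0 ≤ a n) (hc : ∀ j, 1 ≤ c j) (hw : ∑ j, t ^ c j ≤ (1 - t) * (2 * t - 1))
    (h : ∀ n, 2 * a n ≤ a (n + 1) +
      ∑ j, ∑ k ∈ Finset.range (n + 1 + 1), if c j ≤ k then a (n + 1 - k) else 0) (n : ℕ) :
    a n ≤ t * a (n + 1) := by
  induction n using Nat.strong_induction_on with
  | _ n ih =>
  have h1 : ∀ i ≤ n, a (n - i) ≤ t ^ i * a n := fun i hi => by
    induction i with
    | zero => simp
    | succ i ih' =>
      have h2 := ih (n - (i + 1)) (by omega)
      rw [show n - (i + 1) + 1 = n - i by omega] at h2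
      rw [pow_succ', mul_assoc]
      exact h2.trans (mul_le_mul_of_nonneg_left (ih' (by omega)) ht0.le)
  have h2 : ∀ j, t * (∑ k ∈ Finset.range (n + 1 + 1), if c j ≤ k then a (n + 1 - k) else 0) ≤
      t ^ c j / (1 - t) * a n := fun j => by
    rw [← Finset.sum_filter, Finset.mul_sum]
    refine le_trans ?_ (mul_le_mul_of_nonneg_right
      (geom_sum_Ico_le_of_lt_one (n := n + 1 + 1) ht0.le ht1) (ha n))
    rw [Finset.sum_mul]
    refine (Finset.sum_le_sum fun k hk => ?_).trans (le_of_eq (Finset.sum_congr ?_ fun _ _ => rfl))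
    · rw [Finset.mem_filter, Finset.mem_range] at hk
      obtain ⟨i, rfl⟩ := Nat.exists_eq_add_of_le' ((hc j).trans hk.2)
      rw [Nat.add_sub_add_right, pow_succ', mul_assoc]
      exact mul_le_mul_of_nonneg_left (h1 i (by omega)) ht0.le
    · ext k
      simp only [Finset.mem_filter, Finset.mem_range, Finset.mem_Ico, and_comm]
  have h3 := Finset.sum_le_sum fun j (_ : j ∈ Finset.univ) => h2 j
  rw [← Finset.mul_sum, ← Finset.sum_mul, ← Finset.sum_div] at h3
  have h4 : (∑ j, t ^ c j) / (1 - t) ≤ 2 * t - 1 := by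
    rw [div_le_iff₀ (by linarith)]
    linarith
  nlinarith [mul_le_mul_of_nonneg_right h4 (ha n), mul_le_mul_of_nonneg_left (h n) ht0.le]

/-- Functionals of degree `n` that kill all `x * r * y` with `y` of degree at least `e`. -/
def GS_W (R : List (T F × ℕ)) (n e : ℕ) : Submodule F (T F →ₗ[F] F) where
  carrier := {φ | (∀ m : List Bool, m.length ≠ n → φ (wd m) = 0) ∧
    ∀ r ∈ R, ∀ x, ∀ y ∈ Ge F e, φ (x * r.1 * y) = 0}
  zero_mem' := ⟨fun _ _ => rfl, fun _ _ _ _ _ => rfl⟩
  add_mem' ha hb := ⟨fun m hm => by rw [LinearMap.add_apply, ha.1 m hm, hb.1 m hm, add_zero],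
    fun r hr x y hy => by rw [LinearMap.add_apply, ha.2 r hr x y hy, hb.2 r hr x y hy, add_zero]⟩
  smul_mem' c _ ha := ⟨fun m hm => by rw [LinearMap.smul_apply, ha.1 m hm, smul_zero],
    fun r hr x y hy => by rw [LinearMap.smul_apply, ha.2 r hr x y hy, smul_zero]⟩

instance GS_fin (R : List (T F × ℕ)) (n e : ℕ) : Module.Finite F (GS_W R n e) := by
  have := (List.finite_length_eq Bool n).to_subtype
  refine Module.Finite.of_injective (LinearMap.pi fun m : {l : List Bool | l.length = n} =>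
    (LinearMap.applyₗ (R := F) (M₂ := F) (wd m.1)).comp (GS_W R n e).subtype) ?_
  rw [injective_iff_map_eq_zero]
  refine fun φ h => Subtype.ext (lin_ext fun m => ?_)
  by_cases hm : m.length = n
  · exact congrFun h ⟨m, hm⟩
  · exact φ.2.1 m hm

theorem GS_two (R : List (T F × ℕ)) (n : ℕ) :
    2 * finrank F (GS_W R n 0) ≤ finrank F (GS_W R (n + 1) 1) := by
  have h1 : ∀ s, ∀ φ ∈ GS_W R (n + 1) 1,
      LinearMap.lcomp F F (LinearMap.mulRight F (FreeAlgebra.ι F s)) φ ∈ GS_W R n 0 := by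
    refine fun s φ hφ => ⟨fun m hm => ?_, fun r hr x y _ => ?_⟩
    · show φ (wd m * FreeAlgebra.ι F s) = 0
      rw [← wd_single, ← wd_append]
      exact hφ.1 _ (by simpa using hm)
    · show φ (x * r.1 * y * FreeAlgebra.ι F s) = 0
      rw [mul_assoc]
      exact hφ.2 r hr x _ (Ge_mul_left y (Eqd_le_Ge 1 (ι_mem s)))
  have h2 := LinearMap.finrank_le_finrank_of_surjective
    (f := LinearMap.pi fun s => LinearMap.restrict _ (h1 s)) fun φ => ?_
  · have := Module.Free.of_divisionRing F (GS_W R n 0)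
    rw [finrank_pi_fintype] at h2
    simpa using h2
  obtain ⟨Θ, hΘ⟩ := exists_lin (F := F) fun m => match m.reverse with
    | [] => (0 : F)
    | s :: l => (φ s).1 (wd l.reverse)
  have h3 : ∀ s, Θ.comp (LinearMap.mulRight F (FreeAlgebra.ι F s)) = (φ s).1 := fun s =>
    lin_ext fun m => by
      show Θ (wd m * FreeAlgebra.ι F s) = _
      rw [← wd_single, ← wd_append, hΘ]
      simp
  have h4 : ∀ s z, Θ (z * FreeAlgebra.ι F s) = (φ s).1 z := fun s z => LinearMap.congr_fun (h3 s) z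
  refine ⟨⟨Θ, fun m hm => ?_, fun r hr x y hy => ?_⟩, funext fun s => Subtype.ext (h3 s)⟩
  · rcases m.eq_nil_or_concat' with rfl | ⟨l, s, rfl⟩
    · exact hΘ []
    · rw [wd_append, wd_single, h4]
      exact (φ s).2.1 l (by simpa using hm)
  · refine Sp_zero (Θ.comp (LinearMap.mulLeft F (x * r.1))) (fun m (hm : 1 ≤ m.length) => ?_) hy
    rcases m.eq_nil_or_concat' with rfl | ⟨l, s, rfl⟩
    · simp at hm
    · show Θ (x * r.1 * wd (l ++ [s])) = 0
      rw [wd_append, wd_single, ← mul_assoc, h4]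
      exact (φ s).2.2 r hr x _ (mem_Ge_zero _)

theorem GS_rec {R : List (T F × ℕ)} (hR : ∀ r ∈ R, 1 ≤ r.2 ∧ r.1 ∈ Ge F r.2) (n : ℕ) :
    finrank F (GS_W R n 1) ≤ finrank F (GS_W R n 0) + ∑ j : Fin R.length,
      ∑ k ∈ Finset.range (n + 1), if R[j.1].2 ≤ k then finrank F (GS_W R (n - k) 0) else 0 := by
  choose π hπ using fun k => exists_lin (F := F) fun m => if m.length = k then (wd m : T F) else 0
  have p1 : ∀ k z, π k z ∈ Eqd F k := fun k z => Sp_map (π k) (fun m _ => by
    rw [hπ]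
    split_ifs with h
    exacts [wd_mem h, zero_mem _]) (mem_Ge_zero z)
  have p2 : ∀ k c, ∀ z ∈ Ge F c, k < c → π k z = 0 := fun k c z hz h =>
    Sp_zero (π k) (fun m (hm : c ≤ m.length) => by rw [hπ, if_neg (by omega)]) hz
  have h := GS_rank (GS_W R n 1) (GS_W R n 0)
    (fun i : Fin R.length × Fin (n + 1) => if R[i.1.1].2 ≤ i.2 then GS_W R (n - i.2) 0 else ⊥)
    (GS_fin _ _ _) (GS_fin _ _ _) (fun i => (GS_ite _ _ (GS_fin _ _ _)).1)
    (fun i => LinearMap.lcomp F F (LinearMap.mulRight F (π i.2 R[i.1.1].1))) ?_ ?_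
  · rw [Fintype.sum_prod_type] at h
    refine h.trans (le_of_eq ?_)
    congr 1
    refine Finset.sum_congr rfl fun j _ => ?_
    rw [Finset.sum_range]
    exact Finset.sum_congr rfl fun k _ => (GS_ite _ _ (GS_fin _ _ _)).2
  · rintro ⟨j, k⟩ Θ hΘ
    dsimp only
    split_ifs with hk
    · refine ⟨fun m hm => ?_, fun r hr x y _ => ?_⟩
      · refine Sp_zero Θ (fun l (hl : l.length = m.length + k) => hΘ.1 l ?_)
          (Eqd_mul (wd_mem rfl) (p1 _ _))
        have := k.2
        omega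
      · show Θ (x * r.1 * y * _) = 0
        rw [mul_assoc]
        exact hΘ.2 r hr x _ (Ge_mul_left y (Ge_anti ((hR _ (List.getElem_mem _)).1.trans hk)
          (Eqd_le_Ge _ (p1 _ _))))
    · rw [p2 k _ _ (hR _ (List.getElem_mem _)).2 (not_le.mp hk)]
      exact LinearMap.ext fun z => by simp
  · refine fun Θ hΘ h0 => ⟨hΘ.1, fun r hr x y hy => ?_⟩
    obtain ⟨j, hj, rfl⟩ := List.getElem_of_mem hr
    have h1 : Θ.comp (LinearMap.mulRight F R[j].1) = 0 := lin_ext fun u => by
      show Θ (wd u * R[j].1) = 0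
      by_cases hu : u.length ≤ n
      · have h2 : Θ.comp (LinearMap.mulLeft F (wd u)) =
            (Θ.comp (LinearMap.mulLeft F (wd u))).comp (π (n - u.length)) := lin_ext fun m => by
          show Θ (wd u * wd m) = Θ (wd u * π _ (wd m))
          rw [hπ]
          split_ifs with hm
          · rfl
          · rw [mul_zero, map_zero, ← wd_append]
            exact hΘ.1 _ (by rw [List.length_append]; omega)
        exact (LinearMap.congr_fun h2 _).trans
          (LinearMap.congr_fun (h0 (⟨j, hj⟩, ⟨n - u.length, by omega⟩)) (wd u))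
      · exact Sp_zero Θ (fun l (hl : u.length ≤ l.length) => hΘ.1 l (by omega))
          (Ge_mul_right (wd_mem le_rfl) _)
    refine Sp_zero (Θ.comp (LinearMap.mulLeft F (x * R[j].1))) (fun m _ => ?_) hy
    show Θ (x * R[j].1 * wd m) = 0
    cases m with
    | nil => rw [wd_nil, mul_one]; exact LinearMap.congr_fun h1 x
    | cons s m => exact hΘ.2 _ hr x _ (wd_mem (by simp))

/-- Golod-Shafarevich. `R` lists relations `r` with a lower bound `c ≥ 1` of the degree.
Sketch. Let `Λ n` be the submodule of `T F →ₗ[F] F` of the functionals vanishing on all words of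
length `≠ n` and on all `x * r * y` (enough: `x`, `y` words, by `lin_ext`). It is finite
dimensional (it injects into functions on `List.Vector Bool n`); put `a n = finrank (Λ n)`.
`1 ≤ a 0`: the constant coefficient (`exists_lin`) kills `Ge F 1`.
Recursion `2 * a n ≤ a (n+1) + ∑ r ∈ R, ∑ k ∈ Icc c (n+1), a (n+1-k)`: for `(φ₀, φ₁)` in
`Λ n × Λ n` let `Θ` be the functional with `Θ 1 = 0`, `Θ (z * ι s) = φ_s z` (on words: `exists_lin`
with `List.getLast`/`dropLast`, or build it by `Basis.constr`); `Θ` is linear and injective in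
`(φ₀, φ₁)`, is supported in degree `n+1` and kills `x * r * y` for every nonempty word `y`.
Let `π k : T F →ₗ[F] T F` keep the words of length `k` (`exists_lin`); `π k r ∈ Eqd F k`, `π k r = 0` for
`k < c`, and `Θ (wd u * z) = Θ (wd u * π k z)` if `u.length + k = n+1` (`lin_ext` in `z`).
For each `r` and `k ≥ c` the functional `z ↦ Θ (z * π k r)` lies in `Λ (n+1-k)` (`y * π k r` is in
`Ge F 1`, so it is a combination of nonempty words). If all of them vanish (`c ≤ k ≤ n+1`) then
`Θ (wd u * r) = 0` for all words `u`, so `Θ ∈ Λ (n+1)`. Rank-nullity gives the recursion.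
Then by strong induction `a n ≤ t * a (n+1)`: `a (n+1-k) ≤ t^(k-1) * a n`, the geometric sum over
`k ≥ c` is at most `t^(c-1)/(1-t)`, so `a (n+1) ≥ a n * (2 - (2t-1)/t) = a n / t`.
Hence `a L > 0`. -/
theorem gs (R : List (T F × ℕ)) {t : ℝ} (ht0 : 0 < t) (ht1 : t < 1)
    (hR : ∀ r ∈ R, 1 ≤ r.2 ∧ r.1 ∈ Ge F r.2)
    (hw : (R.map fun r => t ^ r.2).sum ≤ (1 - t) * (2 * t - 1)) (L : ℕ) :
    ∃ φ : T F →ₗ[F] F, (∀ m : List Bool, m.length ≠ L → φ (wd m) = 0) ∧ (∃ m, φ (wd m) ≠ 0) ∧
      ∀ r ∈ R, ∀ x y, φ (x * r.1 * y) = 0 := by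
  have h0 : 0 < finrank F (GS_W R 0 0) := by
    obtain ⟨φ, hφ⟩ := exists_lin (F := F) fun m => if m = [] then (1 : F) else 0
    have h1 : ∀ m : List Bool, m.length ≠ 0 → φ (wd m) = 0 := fun m hm => by
      rw [hφ, if_neg fun e => hm (by rw [e]; rfl)]
    refine (finrank_pos_iff_exists_ne_zero (R := F) (M := GS_W R 0 0)).mpr
      ⟨⟨φ, h1, fun r hr x y _ => ?_⟩, fun e => ?_⟩
    · exact Sp_zero φ (fun m (hm : 1 ≤ m.length) => h1 m (by omega))
        (Ge_mul_right (Ge_mul_left x (Ge_anti (hR r hr).1 (hR r hr).2)) y)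
    · have := hφ []
      rw [show φ = 0 from congrArg Subtype.val e] at this
      simp at this
  have h1 := GS_real (fun n => (finrank F (GS_W R n 0) : ℝ)) (fun j : Fin R.length => R[j.1].2)
    ht0 ht1 (fun _ => Nat.cast_nonneg _) (fun j => (hR _ (List.getElem_mem _)).1)
    (by rwa [Fin.sum_univ_fun_getElem R fun r => t ^ r.2])
    fun n => by exact_mod_cast (GS_two R n).trans (GS_rec hR (n + 1))
  have h2 : 0 < finrank F (GS_W R L 0) := by
    induction L with
    | zero => exact h0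
    | succ L ih =>
      have h3 : (0 : ℝ) < finrank F (GS_W R L 0) := by exact_mod_cast ih
      exact_mod_cast (mul_pos_iff_of_pos_left ht0).mp (h3.trans_le (h1 L))
  obtain ⟨⟨φ, k1, k2⟩, k3⟩ := (finrank_pos_iff_exists_ne_zero (R := F) (M := GS_W R L 0)).mp h2
  refine ⟨φ, k1, ?_, fun r hr x y => k2 r hr x y (mem_Ge_zero y)⟩
  by_contra hc
  push Not at hc
  exact k3 (Subtype.ext (lin_ext hc))

end Pool.Agent.Lib.MP_9675a1_al
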