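import Pool.Agent.Lib.MP_9675a1_al.Seg

/-!
# Closing a segment up through a thin path

`U` is the unrolled module (segment, path, segment), `V` is the cyclic one.
-/

set_option autoImplicit false

noncomputable section

namespace Pool.Agent.Lib.MP_9675a1_al

open FreeAlgebra

variable {F : Type} [Field F] {W : Type} [AddCommGroup W] [Module F W] {L : ℕ}
  (S : Seg F W L) (n : ℕ) (sl : ℕ → Bool)

/-- The vertices of the path in the unrolled module. -/
def vU (j : ℕ) : W × (Fin n → F) × W :=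
  if h : j < n then (0, Pi.single ⟨j, h⟩ 1, 0) else (0, 0, S.e)

/-- The vertices of the path in the cyclic module. -/
def vV (j : ℕ) : W × (Fin n → F) :=
  if h : j < n then (0, Pi.single ⟨j, h⟩ 1) else (S.e, 0)

/-- The edges of the path. -/
def edges {M : Type} [AddCommGroup M] [Module F M] (v : ℕ → M) (s : Bool) : (Fin n → F) →ₗ[F] M :=
  (Pi.basisFun F (Fin n)).constr F fun j => if sl j = s then v (j + 1) else 0

/-- The unrolled module. -/
def rU : T F →ₐ[F] Module.End F (W × (Fin n → F) × W) :=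
  FreeAlgebra.lift F fun s => LinearMap.coprod
    (LinearMap.inl F _ _ ∘ₗ S.ρ (ι F s) + if s then 0 else S.lam.smulRight (vU S n 0))
    (LinearMap.coprod (edges n sl (vU S n) s)
      (LinearMap.inr F _ _ ∘ₗ LinearMap.inr F _ _ ∘ₗ S.ρ (ι F s)))

/-- The cyclic module. -/
def rV : T F →ₐ[F] Module.End F (W × (Fin n → F)) :=
  FreeAlgebra.lift F fun s => LinearMap.coprod
    (LinearMap.inl F _ _ ∘ₗ S.ρ (ι F s) + if s then 0 else S.lam.smulRight (vV S n 0))
    (edges n sl (vV S n) s)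

/-- The coordinate at a vertex of the path. -/
def co (j : ℕ) : (Fin n → F) →ₗ[F] F := if h : j < n then LinearMap.proj (⟨j, h⟩ : Fin n) else 0

variable {n sl}

lemma edges_apply {M : Type} [AddCommGroup M] [Module F M] (v : ℕ → M) (s : Bool) (w : Fin n → F) :
    edges n sl v s w = ∑ j : Fin n, w j • if sl j = s then v (j + 1) else 0 := by
  simp [edges, Module.Basis.constr_apply_fintype]

lemma rU_ι (s : Bool) (u : W × (Fin n → F) × W) : rU S n sl (ι F s) u =
    (S.ρ (ι F s) u.1, 0, S.ρ (ι F s) u.2.2) + (if s then 0 else S.lam u.1 • vU S n 0) +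
      edges n sl (vU S n) s u.2.1 := by
  cases s <;> ext <;> simp [rU, add_comm, add_assoc]

lemma rV_ι (s : Bool) (u : W × (Fin n → F)) : rV S n sl (ι F s) u =
    (S.ρ (ι F s) u.1, 0) + (if s then 0 else S.lam u.1 • vV S n 0) +
      edges n sl (vV S n) s u.2 := by
  cases s <;> simp [rV]

lemma edges_single {M : Type} [AddCommGroup M] [Module F M] (v : ℕ → M) (s : Bool) (j : Fin n) :
    edges (F := F) n sl v s (Pi.single j 1) = if sl j = s then v (j + 1) else 0 := by
  rw [← Pi.basisFun_apply, edges, Module.Basis.constr_basis]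

lemma rU_vU (s : Bool) {j : ℕ} (hj : j < n) :
    rU S n sl (ι F s) (vU S n j) = if sl j = s then vU S n (j + 1) else 0 := by
  rw [rU_ι, vU, dif_pos hj]
  simp [edges_single]

lemma rV_vV (s : Bool) {j : ℕ} (hj : j < n) :
    rV S n sl (ι F s) (vV S n j) = if sl j = s then vV S n (j + 1) else 0 := by
  rw [rV_ι, vV, dif_pos hj]
  simp [edges_single]

lemma vU_fst (j : ℕ) : (vU S n j).1 = 0 := by unfold vU; split_ifs <;> rfl

lemma vU_co (j : ℕ) (i : Fin n) : (vU S n j).2.1 i = if (i : ℕ) = j then 1 else 0 := by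
  unfold vU
  split_ifs with h1 h2 h2
  · subst h2; simp
  · exact Pi.single_eq_of_ne (fun h => h2 (congrArg Fin.val h)) _
  · exact absurd (h2 ▸ i.2) h1
  · rfl

lemma vV_co (j : ℕ) (i : Fin n) : (vV S n j).2 i = if (i : ℕ) = j then 1 else 0 := by
  unfold vV
  split_ifs with h1 h2 h2
  · subst h2; simp
  · exact Pi.single_eq_of_ne (fun h => h2 (congrArg Fin.val h)) _
  · exact absurd (h2 ▸ i.2) h1
  · rfl

lemma co_apply {j : ℕ} (h : j < n) (w : Fin n → F) : co n j w = w ⟨j, h⟩ := by simp [co, h]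

lemma dec_U (u : W × (Fin n → F) × W) :
    u = (u.1, 0, 0) + ∑ j : Fin n, u.2.1 j • vU S n j + (0, 0, u.2.2) := by
  have h : ∑ j : Fin n, u.2.1 j • vU S n j = (0, u.2.1, 0) := by
    simp only [vU, Fin.is_lt, dif_pos, Prod.smul_mk, smul_zero, ← prod_mk_sum,
      Finset.sum_const_zero, Fin.eta]
    rw [← pi_eq_sum_univ']
  rw [h]
  simp

lemma dec_V (u : W × (Fin n → F)) : u = (u.1, 0) + ∑ j : Fin n, u.2 j • vV S n j := by
  have h : ∑ j : Fin n, u.2 j • vV S n j = (0, u.2) := by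
    simp only [vV, Fin.is_lt, dif_pos, Prod.smul_mk, smul_zero, ← prod_mk_sum,
      Finset.sum_const_zero, Fin.eta]
    rw [← pi_eq_sum_univ']
  rw [h]
  simp

variable (W n) in
/-- The flag of the unrolled module. -/
def Fl (q : ℕ) : Submodule F (W × (Fin n → F) × W) where
  carrier := {u | u.1 = 0 ∧ ∀ j : Fin n, (j : ℕ) < q → u.2.1 j = 0}
  add_mem' := fun ha hb => ⟨by simp [ha.1, hb.1], fun j hj => by simp [ha.2 j hj, hb.2 j hj]⟩
  zero_mem' := ⟨rfl, fun _ _ => rfl⟩
  smul_mem' := fun c _ ha => ⟨by simp [ha.1], fun j hj => by simp [ha.2 j hj]⟩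

lemma Fl_anti {q q' : ℕ} (h : q ≤ q') : Fl (F := F) W n q' ≤ Fl W n q :=
  fun _ hu => ⟨hu.1, fun j hj => hu.2 j (hj.trans_le h)⟩

lemma vU_mem (j : ℕ) : vU S n j ∈ Fl W n j :=
  ⟨vU_fst S j, fun i hi => by rw [vU_co, if_neg hi.ne]⟩

lemma fl_step (s : Bool) {q : ℕ} {u : W × (Fin n → F) × W} (hu : u ∈ Fl W n q) :
    rU S n sl (ι F s) u ∈ Fl W n (q + 1) := by
  rw [rU_ι, hu.1, map_zero, map_zero, zero_smul, ite_self, add_zero, edges_apply]
  refine add_mem ⟨rfl, fun _ _ => rfl⟩ (Submodule.sum_mem _ fun j _ => ?_)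
  rcases lt_or_ge (j : ℕ) q with h | h
  · rw [hu.2 j h, zero_smul]; exact zero_mem _
  · refine Submodule.smul_mem _ _ ?_
    split_ifs
    exacts [Fl_anti (by omega) (vU_mem S _), zero_mem _]

lemma fl_Ge {i q : ℕ} {x : T F} (hx : x ∈ Ge F i) {u : W × (Fin n → F) × W}
    (hu : u ∈ Fl W n q) : rU S n sl x u ∈ Fl W n (q + i) := by
  have h : ∀ m : List Bool, rU S n sl (wd m) u ∈ Fl W n (q + m.length) := fun m => by
    induction m with
    | nil => simpa using hu
    | cons s m ih => rw [wd_cons, map_mul]; exact fl_step S s ih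
  exact Sp_map (LinearMap.applyₗ u ∘ₗ (rU S n sl).toLinearMap)
    (fun m hm => Fl_anti (by omega) (h m)) hx

lemma rU_fst (x : T F) (u : W × (Fin n → F) × W) : (rU S n sl x u).1 = S.ρ x u.1 := by
  induction x using FreeAlgebra.induction generalizing u with
  | grade0 r => simp [Algebra.algebraMap_eq_smul_one]
  | grade1 s =>
    rw [rU_ι, edges_apply]
    cases s <;> simp [vU_fst, Prod.fst_sum, apply_ite Prod.fst]
  | mul x y hx hy => simp [hx, hy]
  | add x y hx hy => simp [hx, hy]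

lemma rU_top (x : T F) (v : W) : rU S n sl x (0, 0, v) = (0, 0, S.ρ x v) := by
  induction x using FreeAlgebra.induction generalizing v with
  | grade0 r => simp [Algebra.algebraMap_eq_smul_one]
  | grade1 s => rw [rU_ι]; simp
  | mul x y hx hy => simp [hx, hy]
  | add x y hx hy => simp [hx, hy]

lemma eq_of_mem_Fl {q : ℕ} (hq : n ≤ q) {u : W × (Fin n → F) × W} (hu : u ∈ Fl W n q) :
    u = (0, 0, u.2.2) :=
  Prod.ext hu.1 (Prod.ext (funext fun j => hu.2 j (j.2.trans_le hq)) rfl)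

lemma rel_mem {x : T F} (hx : S.ρ x = 0) (u : W × (Fin n → F) × W) :
    rU S n sl x u ∈ Fl W n 0 :=
  ⟨by rw [rU_fst, hx]; rfl, fun _ h => absurd h (Nat.not_lt_zero _)⟩

lemma rel_zero {x : T F} (hx : S.ρ x = 0) {q : ℕ} (hq : n ≤ q) {u : W × (Fin n → F) × W}
    (hu : u ∈ Fl W n q) : rU S n sl x u = 0 := by
  rw [eq_of_mem_Fl hq hu, rU_top, hx]; rfl

lemma unip {x : T F} (hx : x ∈ Ge F 1) {α : ℕ} (hα : S.ρ (x ^ α) = 0) {N : ℕ}
    (hN : 2 * α + n ≤ N) : rU S n sl (x ^ N) = 0 := by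
  obtain ⟨k, rfl⟩ := Nat.exists_eq_add_of_le hN
  refine LinearMap.ext fun u => ?_
  rw [show 2 * α + n + k = α + ((n + k) + α) by ring, pow_add, pow_add, map_mul, map_mul]
  exact rel_zero S hα (by omega) (fl_Ge S (Ge_pow hx (n + k)) (rel_mem S hα u))

variable (F W n) in
/-- Folding the unrolled module onto the cyclic one. -/
def fold : (W × (Fin n → F) × W) →ₗ[F] W × (Fin n → F) :=
  (LinearMap.fst F _ _ + LinearMap.snd F _ _ ∘ₗ LinearMap.snd F _ _).prod
    (LinearMap.fst F _ _ ∘ₗ LinearMap.snd F _ _)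

lemma fold_apply (u : W × (Fin n → F) × W) : fold F W n u = (u.1 + u.2.2, u.2.1) := rfl

lemma fold_vU (j : ℕ) : fold F W n (vU S n j) = vV S n j := by
  unfold vU vV
  split_ifs <;> simp [fold_apply]

lemma transfer {x : T F} (hx : x ∈ Le F L) (v : W) (w : Fin n → F) :
    fold F W n (rU S n sl x (v, w, 0)) = rV S n sl x (v, w) := by
  let B : ℕ → Submodule F W := fun j => (Sp F fun k => k < j).map
    (LinearMap.applyₗ S.e ∘ₗ S.ρ.toLinearMap)
  have hB0 : ∀ j, S.e ∈ B (j + 1) := fun j =>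
    ⟨1, wd_mem (m := []) (Nat.succ_pos j), by simp⟩
  have hB1 : ∀ j s, ∀ z ∈ B j, S.ρ (ι F s) z ∈ B (j + 1) := by
    rintro j s _ ⟨y, hy, rfl⟩
    exact ⟨ι F s * y, Sp_mul (fun _ _ h1 h2 => by omega) (ι_mem s) hy, by simp⟩
  have hB2 : ∀ j ≤ L, ∀ z ∈ B j, S.lam z = 0 := by
    rintro j hj _ ⟨y, hy, rfl⟩
    exact Sp_zero (S.lam ∘ₗ LinearMap.applyₗ S.e ∘ₗ S.ρ.toLinearMap)
      (fun m hm => S.deg m (by omega)) hy
  have hv : ∀ i j, (vU S n i).2.2 ∈ B (j + 1) := fun i j => by
    unfold vU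
    split_ifs
    exacts [zero_mem _, hB0 j]
  have h : ∀ m : List Bool, m.length ≤ L → (rU S n sl (wd m) (v, w, 0)).2.2 ∈ B m.length ∧
      fold F W n (rU S n sl (wd m) (v, w, 0)) = rV S n sl (wd m) (v, w) := fun m => by
    induction m with
    | nil => intro _; simp [fold_apply]
    | cons s m ih =>
      intro hm
      rw [List.length_cons] at hm ⊢
      obtain ⟨h1, h2⟩ := ih (by omega)
      simp only [wd_cons, map_mul, Module.End.mul_apply]
      rw [← h2]
      generalize rU S n sl (wd m) (v, w, 0) = u at h1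
      rw [rU_ι, rV_ι, edges_apply, edges_apply]
      constructor
      · simp only [Prod.snd_add, Prod.snd_sum]
        refine add_mem (add_mem (hB1 _ _ _ h1) ?_) (Submodule.sum_mem _ fun j _ => ?_)
        · split_ifs
          exacts [zero_mem _, Submodule.smul_mem _ _ (hv _ _)]
        · refine Submodule.smul_mem _ _ ?_
          split_ifs
          exacts [hv _ _, zero_mem _]
      · simp only [map_add, map_sum, map_smul, apply_ite (fold F W n), fold_vU, map_zero]
        simp [fold_apply, hB2 _ (by omega) _ h1]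
  exact LinearMap.eqOn_span' (f := fold F W n ∘ₗ LinearMap.applyₗ (v, w, 0) ∘ₗ
    (rU S n sl).toLinearMap) (g := LinearMap.applyₗ (v, w) ∘ₗ (rV S n sl).toLinearMap)
    (by rintro _ ⟨m, hm, rfl⟩; exact (h m hm).2) hx

end Pool.Agent.Lib.MP_9675a1_al
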