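import Pool.Agent.Lib.MP_9675a1_al.Laz

/-!
# Finite differences of `w ↦ (w - 1) ^ α` in a filtered algebra
-/

set_option autoImplicit false

namespace Pool.Agent.Lib.MP_9675a1_al

section

variable {F B : Type} [Field F] [Ring B] [Algebra F B] {Fil : ℕ → Submodule F B}

/-- The difference operator. -/
def Newt_d (h : Bˣ) (f : Bˣ → B) : Bˣ → B := fun w => f (w * h) - f w

/-- The iterated difference operator. -/
def Newt_D : List (Bˣ × ℕ) → (Bˣ → B) → Bˣ → B
  | [], f => f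
  | x :: l, f => Newt_D l (Newt_d x.1 f)

/-- Valid lists. -/
def Newt_V (Fil : ℕ → Submodule F B) (l : List (Bˣ × ℕ)) : Prop :=
  ∀ x ∈ l, 1 ≤ x.2 ∧ (x.1 : B) - 1 ∈ Fil x.2

/-- The degree condition on all iterated differences. -/
def Newt_Q (Fil : ℕ → Submodule F B) (f : Bˣ → B) (c : ℕ) : Prop :=
  ∀ l, Newt_V Fil l → ∀ w : Bˣ, (w : B) - 1 ∈ Fil 1 →
    Newt_D l f w ∈ Fil ((c + (l.map fun x => 2 * x.2 - 1).sum + 1) / 2)

theorem Newt_D_add (l : List (Bˣ × ℕ)) (f g : Bˣ → B) :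
    Newt_D l (f + g) = Newt_D l f + Newt_D l g := by
  induction l generalizing f g with
  | nil => rfl
  | cons x l ih =>
    have : Newt_d x.1 (f + g) = Newt_d x.1 f + Newt_d x.1 g := funext fun w => by
      simp only [Newt_d, Pi.add_apply]
      abel
    rw [Newt_D, Newt_D, Newt_D, this, ih]

theorem Newt_V.cons {x : Bˣ × ℕ} {l : List (Bˣ × ℕ)} (h : Newt_V Fil (x :: l)) :
    (1 ≤ x.2 ∧ (x.1 : B) - 1 ∈ Fil x.2) ∧ Newt_V Fil l :=
  List.forall_mem_cons.1 h

theorem Newt_Q.d {f : Bˣ → B} {c : ℕ} (h : Newt_Q Fil f c) {x : Bˣ × ℕ}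
    (hx : 1 ≤ x.2 ∧ (x.1 : B) - 1 ∈ Fil x.2) : Newt_Q Fil (Newt_d x.1 f) (c + (2 * x.2 - 1)) := by
  intro l hl w hw
  have := h (x :: l) (List.forall_mem_cons.2 ⟨hx, hl⟩) w hw
  rwa [List.map_cons, List.sum_cons, ← add_assoc] at this

theorem Newt_Q.add {f g : Bˣ → B} {c : ℕ} (h : Newt_Q Fil f c) (h' : Newt_Q Fil g c) :
    Newt_Q Fil (f + g) c := fun l hl w hw => by
  rw [Newt_D_add]
  exact add_mem (h l hl w hw) (h' l hl w hw)

theorem Newt_Q.anti (hanti : Antitone Fil) {f : Bˣ → B} {c c' : ℕ} (h : Newt_Q Fil f c)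
    (hc : c' ≤ c) : Newt_Q Fil f c' := fun l hl w hw =>
  hanti (by omega) (h l hl w hw)

theorem Newt_Q.mul (hanti : Antitone Fil)
    (hmul : ∀ i j x y, x ∈ Fil i → y ∈ Fil j → x * y ∈ Fil (i + j)) {f g : Bˣ → B} {c c' : ℕ}
    (h : Newt_Q Fil f c) (h' : Newt_Q Fil g c') : Newt_Q Fil (f * g) (c + c') := by
  intro l hl w hw
  induction l generalizing f g c c' with
  | nil =>
    refine hanti ?_ (hmul _ _ _ _ (h [] hl w hw) (h' [] hl w hw))
    simp only [List.map_nil, List.sum_nil]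
    omega
  | cons x l ih =>
    have e : Newt_d x.1 (f * g) = Newt_d x.1 f * (g + Newt_d x.1 g) + f * Newt_d x.1 g :=
      funext fun w => by
        simp only [Newt_d, Pi.add_apply, Pi.mul_apply]
        noncomm_ring
    have h1 := ih (h.d hl.cons.1) (h'.add ((h'.d hl.cons.1).anti hanti (Nat.le_add_right _ _)))
      hl.cons.2
    have h2 := ih h (h'.d hl.cons.1) hl.cons.2
    rw [Newt_D, e, Newt_D_add, List.map_cons, List.sum_cons]
    exact add_mem (hanti (by omega) h1) (hanti (by omega) h2)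

theorem Newt_lin (h0 : ∀ x, x ∈ Fil 0) (hanti : Antitone Fil)
    (hmul : ∀ i j x y, x ∈ Fil i → y ∈ Fil j → x * y ∈ Fil (i + j)) {z : B} {i : ℕ}
    (hz : z ∈ Fil i) : Newt_Q Fil (fun w => w * z) (2 * i) := by
  intro l hl w hw
  induction l generalizing z i with
  | nil =>
    refine hanti ?_ (hmul _ _ _ _ (h0 w) hz)
    simp only [List.map_nil, List.sum_nil]
    omega
  | cons x l ih =>
    have e : Newt_d x.1 (fun w : Bˣ => (w : B) * z) = fun w : Bˣ => (w : B) * ((x.1 - 1) * z) :=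
      funext fun w => by
        simp only [Newt_d, Units.val_mul]
        noncomm_ring
    have h1 := ih (hmul _ _ _ _ hl.cons.1.2 hz) hl.cons.2
    rw [Newt_D, e, List.map_cons, List.sum_cons]
    exact hanti (by omega) h1

theorem Newt_pow (h0 : ∀ x, x ∈ Fil 0) (hanti : Antitone Fil)
    (hmul : ∀ i j x y, x ∈ Fil i → y ∈ Fil j → x * y ∈ Fil (i + j)) (α : ℕ) :
    Newt_Q Fil (fun w => ((w : B) - 1) ^ α) α := by
  induction α with
  | zero =>
    intro l hl w hw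
    cases l with
    | nil => exact hanti (by simp) (h0 _)
    | cons x l =>
      have e : Newt_d x.1 (fun w : Bˣ => ((w : B) - 1) ^ 0) = fun w : Bˣ => (w : B) * 0 :=
        funext fun w => by simp [Newt_d]
      have h1 := Newt_lin h0 hanti hmul (zero_mem (Fil x.2)) l hl.cons.2 w hw
      rw [Newt_D, e, List.map_cons, List.sum_cons]
      exact hanti (by omega) h1
  | succ α ih =>
    have h2 : Newt_Q Fil (fun w => (w : B) - 1) 1 := by
      intro l hl w hw
      cases l with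
      | nil => exact hanti (by simp) hw
      | cons x l =>
        have e : Newt_d x.1 (fun w : Bˣ => (w : B) - 1) = fun w : Bˣ => (w : B) * (x.1 - 1) :=
          funext fun w => by
            simp only [Newt_d, Units.val_mul]
            noncomm_ring
        have h1 := Newt_lin h0 hanti hmul hl.cons.1.2 l hl.cons.2 w hw
        have h3 := hl.cons.1.1
        rw [Newt_D, e, List.map_cons, List.sum_cons]
        exact hanti (by omega) h1
    simp only [pow_succ]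
    exact ih.mul hanti hmul h2

theorem Newt_OP (h0 : ∀ x, x ∈ Fil 0) (hanti : Antitone Fil)
    (hmul : ∀ i j x y, x ∈ Fil i → y ∈ Fil j → x * y ∈ Fil (i + j)) {l : List (Bˣ × ℕ)}
    (hl : Newt_V Fil l) {g : Bˣ} (hg : OP l g) : (g : B) - 1 ∈ Fil 1 := by
  have h1 : ∀ a b : Bˣ, (a : B) - 1 ∈ Fil 1 → (b : B) - 1 ∈ Fil 1 →
      ((a * b : Bˣ) : B) - 1 ∈ Fil 1 := fun a b ha hb => by
    rw [show ((a * b : Bˣ) : B) - 1 = (a - 1) * b + (b - 1) by rw [Units.val_mul]; noncomm_ring]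
    exact add_mem (hmul 1 0 _ _ ha (h0 _)) hb
  induction l generalizing g with
  | nil =>
    obtain rfl : g = 1 := hg
    simp
  | cons x l ih =>
    obtain ⟨h, k, hh, rfl⟩ := hg
    refine h1 _ _ (ih hl.cons.2 hh) ?_
    induction k with
    | zero => simp
    | succ k ihk =>
      rw [pow_succ]
      exact h1 _ _ ihk (hanti hl.cons.1.1 hl.cons.1.2)

theorem Newt_main (h0 : ∀ x, x ∈ Fil 0) (hanti : Antitone Fil)
    (hmul : ∀ i j x y, x ∈ Fil i → y ∈ Fil j → x * y ∈ Fil (i + j)) (D : ℕ)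
    (hD : Fil (D + 1) = ⊥) {τ : ℝ} (hτ0 : 0 < τ) (hτ1 : τ < 1) (Bl : List (Bˣ × ℕ))
    (hB : Newt_V Fil Bl) (f : Bˣ → B) (c : ℕ) (hf : Newt_Q Fil f c) :
    ∃ R : List (B × ℕ), (∀ r ∈ R, c ≤ r.2 ∧ r.1 ∈ Fil ((r.2 + 1) / 2)) ∧
      (R.map fun r => τ ^ r.2).sum * (Bl.map fun x => 1 - τ ^ (2 * x.2 - 1)).prod ≤ τ ^ c ∧
      ∀ g, OP Bl g → f g ∈ Submodule.span F {y | ∃ r ∈ R, r.1 = y} := by
  induction Bl generalizing f c with
  | nil =>
    refine ⟨[(f 1, c)], fun r hr => ?_, by simp, fun g hg => ?_⟩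
    · obtain rfl := List.mem_singleton.1 hr
      exact ⟨le_rfl, hf [] hB 1 (by simp)⟩
    · obtain rfl : g = 1 := hg
      exact Submodule.subset_span ⟨_, List.mem_singleton_self _, rfl⟩
  | cons x l ih =>
    obtain ⟨m, hm⟩ : ∃ m, 2 * D + 1 ≤ c + m := ⟨_, Nat.le_add_left _ _⟩
    induction m generalizing f c with
    | zero =>
      refine ⟨[], by simp, by simpa using (pow_pos hτ0 c).le, fun g hg => ?_⟩
      have h1 : f g ∈ Fil (D + 1) := by
        refine hanti ?_ (hf [] (by simp [Newt_V]) g (Newt_OP h0 hanti hmul hB hg))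
        simp only [List.map_nil, List.sum_nil]
        omega
      rw [hD, Submodule.mem_bot] at h1
      rw [h1]
      exact zero_mem _
    | succ m ihm =>
      have hx := hB.cons.1
      obtain ⟨R₀, a₀, b₀, c₀⟩ := ih hB.cons.2 f c hf
      obtain ⟨R₁, a₁, b₁, c₁⟩ := ihm _ _ (hf.d hx) (by have := hx.1; omega)
      refine ⟨R₀ ++ R₁, fun r hr => ?_, ?_, fun g hg => ?_⟩
      · rcases List.mem_append.1 hr with hr | hr
        exacts [a₀ r hr, ⟨(Nat.le_add_right _ _).trans (a₁ r hr).1, (a₁ r hr).2⟩]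
      · rw [List.map_cons, List.prod_cons, pow_add] at b₁
        rw [List.map_append, List.sum_append, List.map_cons, List.prod_cons]
        have hy : 0 ≤ 1 - τ ^ (2 * x.2 - 1) := sub_nonneg.2 (pow_le_one₀ hτ0.le hτ1.le)
        have := mul_le_mul_of_nonneg_left b₀ hy
        linarith
      · obtain ⟨h, k, hh, rfl⟩ := hg
        induction k with
        | zero =>
          rw [pow_zero, mul_one]
          refine Submodule.span_mono ?_ (c₀ h hh)
          rintro y ⟨r, hr, e⟩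
          exact ⟨r, List.mem_append_left _ hr, e⟩
        | succ k ihk =>
          have e : f (h * x.1 ^ (k + 1)) = f (h * x.1 ^ k) + Newt_d x.1 f (h * x.1 ^ k) := by
            rw [Newt_d, pow_succ, mul_assoc, add_sub_cancel]
          rw [e]
          refine add_mem ihk (Submodule.span_mono ?_ (c₁ _ ⟨h, k, hh, rfl⟩))
          rintro y ⟨r, hr, e⟩
          exact ⟨r, List.mem_append_right _ hr, e⟩

end

/-- The values `(g - 1) ^ α` on ordered products lie in the span of a list of small weight.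
Sketch. For `f : Bˣ → B` put `(∂ h f) w = f (w * h) - f w`. Call a list `l : List (Bˣ × ℕ)` valid
if `1 ≤ x.2` and `x.1 - 1 ∈ Fil x.2` for `x ∈ l`; `∂ l f = l.foldl (fun f x => ∂ x.1 f) f`.
Define `Q f c`: for all valid `l` and all `w` with `w - 1 ∈ Fil 1`,
`∂ l f w ∈ Fil ((c + (l.map fun x => 2 * x.2 - 1).sum + 1) / 2)`. Then
* `Q f c → Q (∂ h f) (c + (2 * j - 1))` for valid `(h, j)` (by definition), `Q` is additive in `f`
  and antitone in `c`, so also `Q (fun w => f (w * h)) c` (it is `f + ∂ h f`);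
* `Q f c → Q g c' → Q (f * g) (c + c')`: induction on `l`, generalizing `f g c c'`, by
  `∂ h (f * g) = ∂ h f * (fun w => g (w * h)) + f * ∂ h g`, and
  `(c+c'+1)/2 ≤ (c+1)/2 + (c'+1)/2`;
* `Q (fun w => w - 1) 1`: for `l ≠ []` the iterated difference is `w` times a product of the
  `x.1 - 1` (prove: `z ∈ Fil i → ∂ l (fun w => w * z) w ∈ Fil (i + (l.map snd).sum)`, since
  `∂ h (fun w => w * z) = fun w => w * ((h - 1) * z)`); `Q (fun _ => 1) 0`. So
  `Q (fun w => (w - 1) ^ α) α`.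
* Main claim, for all `f c` with `Q f c`, with `f g` in place of `(g - 1) ^ α` and `c` in place of
  `α`: induction on `Bl`. `Bl = []`: `R = [(f 1, c)]`. `Bl = (x, j) :: Bl'`: inner downward
  induction on `c` (if `2 * D + 1 ≤ c` then `f w = 0` whenever `w - 1 ∈ Fil 1`, `R = []`; note
  `OP Bl g → g - 1 ∈ Fil 1`). Otherwise `R = R₀ ++ R₁`, `R₀` for `(f, c, Bl')`, `R₁` for
  `(∂ x f, c + (2 * j - 1), Bl)`; `f (h * x ^ (k+1)) = f (h * x ^ k) + ∂ x f (h * x ^ k)`, induction on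
  `k`. Weights: with `Π'` the product over `Bl'` and `y = τ^(2j-1)`:
  `(w₀ + w₁) * ((1 - y) * Π') ≤ (1 - y) * τ^c + τ^c * y`. -/
theorem newton {F B : Type} [Field F] [Ring B] [Algebra F B] (Fil : ℕ → Submodule F B)
    (h0 : ∀ x, x ∈ Fil 0) (hanti : Antitone Fil)
    (hmul : ∀ i j x y, x ∈ Fil i → y ∈ Fil j → x * y ∈ Fil (i + j)) (D : ℕ)
    (hD : Fil (D + 1) = ⊥) {τ : ℝ} (hτ0 : 0 < τ) (hτ1 : τ < 1) (α : ℕ) (Bl : List (Bˣ × ℕ))
    (hB : ∀ x ∈ Bl, 1 ≤ x.2 ∧ (x.1 : B) - 1 ∈ Fil x.2) :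
    ∃ R : List (B × ℕ), (∀ r ∈ R, α ≤ r.2 ∧ r.1 ∈ Fil ((r.2 + 1) / 2)) ∧
      (R.map fun r => τ ^ r.2).sum * (Bl.map fun x => 1 - τ ^ (2 * x.2 - 1)).prod ≤ τ ^ α ∧
      ∀ g, OP Bl g → ((g : B) - 1) ^ α ∈ Submodule.span F {y | ∃ r ∈ R, r.1 = y} := by
  exact Newt_main h0 hanti hmul D hD hτ0 hτ1 Bl hB _ α (Newt_pow h0 hanti hmul α)

end Pool.Agent.Lib.MP_9675a1_al
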