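import Pool.Agent.Lib.MP_9675a1_al.Basic
import Pool.Agent.Lib.MP_9675a1_al.Newt

/-!
# The relations `(w - 1) ^ α` up to degree `D` have small weight
-/

set_option autoImplicit false

noncomputable section

namespace Pool.Agent.Lib.MP_9675a1_al

lemma Head_bd {d : ℝ} (hd : 2 ≤ d) : 0 < (1 - 1 / d) / 2 ∧ (1 - 1 / d) / 2 < 1 ∧
    2 / 3 ≤ √((1 + 1 / d) / 2) ∧ √((1 + 1 / d) / 2) ≤ 7 / 8 ∧
      √((1 + 1 / d) / 2) ^ 2 = (1 + 1 / d) / 2 := by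
  have h0 : 0 < 1 / d := by positivity
  have h1 : 1 / d ≤ 1 / 2 := one_div_le_one_div_of_le two_pos hd
  exact ⟨by linarith, by linarith, Real.le_sqrt_of_sq_le (by linarith),
    Real.sqrt_le_iff.2 ⟨by norm_num, by linarith⟩, Real.sq_sqrt (by positivity)⟩

lemma Head_exp {D : ℕ} (hD : 2 ≤ D) : (1 + 2 / (D - 1) : ℝ) ^ D ≤ 81 := by
  have hd : (2 : ℝ) ≤ D := by exact_mod_cast hD
  have h0 : (0 : ℝ) < D - 1 := by linarith
  have h1 : (1 + 2 / (D - 1) : ℝ) ≤ Real.exp (2 / (D - 1)) := by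
    rw [add_comm]
    exact Real.add_one_le_exp _
  have h2 : (D : ℝ) * (2 / (D - 1)) ≤ (4 : ℕ) * 1 := by
    rw [← mul_div_assoc, div_le_iff₀ h0]
    push_cast
    linarith
  calc (1 + 2 / (D - 1) : ℝ) ^ D ≤ Real.exp (2 / (D - 1)) ^ D :=
        pow_le_pow_left₀ (by positivity) h1 D
    _ = Real.exp (D * (2 / (D - 1))) := (Real.exp_nat_mul _ _).symm
    _ ≤ Real.exp ((4 : ℕ) * 1) := Real.exp_le_exp.2 h2
    _ = Real.exp 1 ^ 4 := Real.exp_nat_mul _ _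
    _ ≤ 3 ^ 4 := pow_le_pow_left₀ (Real.exp_pos 1).le
        (Real.exp_one_lt_d9.le.trans (by norm_num)) 4
    _ = 81 := by norm_num

lemma Head_bern {x y : ℝ} (K : ℕ) (hy0 : 0 ≤ y) (hy1 : y ≤ 1) (hx : x ≤ 7 / 8)
    (hxy : 8 * x ≤ K * y) : (1 - y) ^ K ≤ 1 - x := by
  have h0 : (0 : ℝ) ≤ K * y := by positivity
  have h1 : 1 + K * y ≤ (1 + y) ^ K := one_add_mul_le_pow (by linarith) K
  have h2 : (1 - y) ^ K * (1 + y) ^ K ≤ 1 := by
    rw [← mul_pow]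
    exact pow_le_one₀ (mul_nonneg (by linarith) (by linarith)) (by nlinarith)
  have h3 : (1 - y) ^ K * (1 + K * y) ≤ 1 :=
    (mul_le_mul_of_nonneg_left h1 (pow_nonneg (by linarith) K)).trans h2
  have h4 : 1 ≤ (1 - x) * (1 + K * y) := by nlinarith
  exact le_of_mul_le_mul_right (h3.trans h4) (by linarith)

/-- With `t = (1 + 1/D)/2`, `s = (1 - 1/D)/2`, `τ = √t`.
Sketch. `x = τ^(2j-1) ≤ τ ≤ 7/8` (`t ≤ 3/4 ≤ 49/64`), and with `y = s^j`: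
`x = t^j/τ ≤ (3/2) * (t/s)^D * y`, `(t/s)^D = (1 + 2/(D-1))^D ≤ exp 4 ≤ 81`, so `8 * x ≤ 1000 * y`.
Bernoulli: `(1-y)^K * (1 + K*y) ≤ ((1-y)*(1+y))^K ≤ 1` and
`1 ≤ (1 - x) * (1 + K*y)` because `x ≤ K*y/8 ≤ K*y*(1-x)`. -/
lemma termwise {D j : ℕ} (hD : 2 ≤ D) (hj1 : 1 ≤ j) (hjD : j ≤ D) :
    (1 - ((1 - 1 / D) / 2 : ℝ) ^ j) ^ 1000 ≤ 1 - √((1 + 1 / D) / 2 : ℝ) ^ (2 * j - 1) := by
  have hd : (2 : ℝ) ≤ D := by exact_mod_cast hD
  obtain ⟨hs0, hs1, ht0, ht1, ht2⟩ := Head_bd hd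
  have h0 : (0 : ℝ) < D - 1 := by linarith
  have e : ((1 + 1 / D) / 2 : ℝ) = (1 - 1 / D) / 2 * (1 + 2 / (D - 1)) := by
    field_simp
    ring
  have hu : (1 + 2 / (D - 1) : ℝ) ^ j ≤ 81 :=
    (pow_le_pow_right₀ (le_add_of_nonneg_right (by positivity)) hjD).trans (Head_exp hD)
  have h1 : ((1 + 1 / D) / 2 : ℝ) ^ j ≤ ((1 - 1 / D) / 2 : ℝ) ^ j * 81 := by
    rw [e, mul_pow]
    exact mul_le_mul_of_nonneg_left hu (pow_nonneg hs0.le j)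
  generalize √((1 + 1 / D) / 2 : ℝ) = τ at ht0 ht1 ht2
  have hτ : 0 ≤ τ := by linarith
  have h2 : τ ^ (2 * j - 1) * τ = ((1 + 1 / D) / 2 : ℝ) ^ j := by
    rw [← pow_succ, Nat.sub_add_cancel (by omega), pow_mul, ht2]
  have h3 : 0 ≤ τ ^ (2 * j - 1) := pow_nonneg hτ _
  have h4 : τ ^ (2 * j - 1) ≤ τ := pow_le_of_le_one hτ (by linarith) (by omega)
  have h5 : τ ^ (2 * j - 1) * (2 / 3) ≤ τ ^ (2 * j - 1) * τ := mul_le_mul_of_nonneg_left ht0 h3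
  have h6 : 0 ≤ ((1 - 1 / D) / 2 : ℝ) ^ j := pow_nonneg hs0.le j
  refine Head_bern 1000 h6 (pow_le_one₀ hs0.le hs1.le) (h4.trans ht1) ?_
  push_cast
  linarith

lemma Head_prod {ι : Type} {f g : ι → ℝ} (K : ℕ) (L : List ι)
    (h : ∀ x ∈ L, 0 ≤ f x ∧ f x ^ K ≤ g x) :
    0 ≤ (L.map f).prod ∧ (L.map f).prod ^ K ≤ (L.map g).prod := by
  induction L with
  | nil => simp
  | cons x L ih =>
    obtain ⟨h1, h2⟩ := ih fun y hy => h y (List.mem_cons_of_mem _ hy)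
    obtain ⟨h3, h4⟩ := h x List.mem_cons_self
    rw [List.map_cons, List.map_cons, List.prod_cons, List.prod_cons, mul_pow]
    exact ⟨mul_nonneg h3 h1, mul_le_mul h4 h2 (pow_nonneg h1 K) ((pow_nonneg h3 K).trans h4)⟩

lemma Head_comm {B : Type} [Ring B] (g h : Bˣ) : ((g⁻¹ * h * g * h⁻¹ : Bˣ) : B) - 1 =
    (g⁻¹ : Bˣ) * (((h : B) - 1) * (g - 1) - ((g : B) - 1) * (h - 1)) * (h⁻¹ : Bˣ) := by
  rw [show ((h : B) - 1) * (g - 1) - ((g : B) - 1) * (h - 1) = h * g - g * h by noncomm_ring,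
    mul_sub, sub_mul, Units.inv_mul_cancel_left, Units.mul_inv]
  simp only [Units.val_mul, mul_assoc]

lemma Head_core (F : Type) [Field F] {α D : ℕ} (hα : 1 ≤ α) (hD : 2 ≤ D) {B : Type} [Ring B]
    [Algebra F B] (π : T F →ₐ[F] B) (hπ : Function.Surjective π)
    (hk : ∀ x, π x = 0 ↔ x ∈ Ge F (D + 1)) :
    ∃ R : List (T F × ℕ), (∀ r ∈ R, 1 ≤ r.2 ∧ r.1 ∈ Ge F r.2) ∧
      (R.map fun r => ((1 + 1 / D) / 2 : ℝ) ^ r.2).sum ≤ (7 / 8) ^ α * (D : ℝ) ^ 1000 ∧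
      ∀ w ∈ Submonoid.closure (Set.range (gen : Bool → T F)),
        ∃ y ∈ Submodule.span F {y | ∃ r ∈ R, r.1 = y}, (w - 1) ^ α - y ∈ Ge F (D + 1) := by
  have hd : (2 : ℝ) ≤ D := by exact_mod_cast hD
  obtain ⟨hs0, hs1, ht0, ht1, ht2⟩ := Head_bd hd
  obtain ⟨Fil, hF⟩ : ∃ Fil : ℕ → Submodule F B, ∀ n y, y ∈ Fil n ↔ ∃ x ∈ Ge F n, π x = y :=
    ⟨fun n => (Ge F n).map π.toLinearMap, fun _ _ => Iff.rfl⟩
  have h0 : ∀ x, x ∈ Fil 0 := fun y =>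
    (hπ y).elim fun x hx => (hF _ _).2 ⟨x, mem_Ge_zero x, hx⟩
  have hanti : Antitone Fil := fun i j hij y hy =>
    (hF _ _).2 (((hF _ _).1 hy).imp fun _ hx => ⟨Ge_anti hij hx.1, hx.2⟩)
  have hmul : ∀ i j x y, x ∈ Fil i → y ∈ Fil j → x * y ∈ Fil (i + j) := fun i j x y hx hy => by
    obtain ⟨x, hx', rfl⟩ := (hF _ _).1 hx
    obtain ⟨y, hy', rfl⟩ := (hF _ _).1 hy
    exact (hF _ _).2 ⟨x * y, Ge_mul hx' hy', map_mul π x y⟩
  have hbot : Fil (D + 1) = ⊥ := (Submodule.eq_bot_iff _).2 fun y hy => by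
    obtain ⟨x, hx, rfl⟩ := (hF _ _).1 hy
    exact (hk x).2 hx
  have hu : ∀ s, ∃ u : Bˣ, (u : B) = π (gen s) := fun s => by
    rw [gen, map_add, map_one]
    refine IsNilpotent.isUnit_one_add ⟨D + 1, ?_⟩
    rw [← map_pow]
    exact (hk _).2 (Ge_pow (Eqd_le_Ge 1 (ι_mem s)) _)
  choose u hu using hu
  have hu1 : ∀ s, (u s : B) - 1 ∈ Fil 1 := fun s =>
    (hF _ _).2 ⟨_, Eqd_le_Ge 1 (ι_mem s), by rw [hu, gen, map_add, map_one, add_sub_cancel_left]⟩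
  obtain ⟨Bl, hB1, hB2, hB3⟩ := lazard (fun i (g : Bˣ) => (g : B) - 1 ∈ Fil i) D
    (fun i j g h hg hh => by
      rw [Head_comm]
      have h1 := hmul _ _ _ _ hh hg
      rw [add_comm] at h1
      simpa only [zero_add, add_zero] using
        hmul _ _ _ _ (hmul _ _ _ _ (h0 _) (sub_mem h1 (hmul _ _ _ _ hg hh))) (h0 _))
    (fun i g hg hi => by
      have h1 := hanti (Nat.succ_le_of_lt hi) hg
      rw [hbot, Submodule.mem_bot, sub_eq_zero] at h1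
      exact Units.ext h1)
    hs0 hs1 [(u false, 1), (u true, 1)] (by simp [hu1])
  obtain ⟨R, hR1, hR2, hR3⟩ := newton Fil h0 hanti hmul D hbot
    (τ := √((1 + 1 / D) / 2)) (by linarith) (by linarith) α Bl
    fun x hx => ⟨(hB1 x hx).1, (hB1 x hx).2.2⟩
  have h1 := (Head_prod 1000 Bl fun x hx => ⟨sub_nonneg.2 (pow_le_one₀ hs0.le hs1.le),
    termwise hD (hB1 x hx).1 (hB1 x hx).2.1⟩).2
  have h2 : (1 / D : ℝ) ≤ (Bl.map fun x => 1 - ((1 - 1 / D) / 2 : ℝ) ^ x.2).prod := by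
    refine le_trans (le_of_eq ?_) hB2
    simp only [List.map_cons, List.map_nil, List.sum_cons, List.sum_nil, pow_one]
    ring
  have h3 := (pow_le_pow_left₀ (by positivity) h2 1000).trans h1
  generalize √((1 + 1 / D) / 2 : ℝ) = τ at ht0 ht1 ht2 hR2 h3
  have hτ : 0 ≤ τ := by linarith
  have h4 : 0 ≤ (R.map fun r => τ ^ r.2).sum := List.sum_nonneg fun x hx => by
    obtain ⟨r, -, rfl⟩ := List.mem_map.1 hx
    exact pow_nonneg hτ _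
  have h5 := ((mul_le_mul_of_nonneg_left h3 h4).trans hR2).trans (pow_le_pow_left₀ hτ ht1 α)
  rw [one_div, inv_pow, ← div_eq_mul_inv, div_le_iff₀ (by positivity)] at h5
  have h6 : ∀ r ∈ R, ∃ x ∈ Ge F ((r.2 + 1) / 2), π x = r.1 := fun r hr => (hF _ _).1 (hR1 r hr).2
  choose! f hf1 hf2 using h6
  refine ⟨R.map fun r => (f r, (r.2 + 1) / 2), fun r hr => ?_, le_trans ?_ h5, fun w hw => ?_⟩
  · obtain ⟨r, hr', rfl⟩ := List.mem_map.1 hr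
    have := (hR1 r hr').1
    exact ⟨by dsimp only; omega, hf1 r hr'⟩
  · rw [List.map_map]
    refine List.sum_le_sum fun r _ => ?_
    rw [Function.comp_apply, ← ht2, ← pow_mul]
    exact pow_le_pow_of_le_one hτ (by linarith) (by dsimp only; omega)
  · have h7 : ∃ g ∈ Submonoid.closure {y | ∃ x ∈ [(u false, 1), (u true, 1)], x.1 = y},
        (g : B) = π w := by
      induction hw using Submonoid.closure_induction with
      | mem x hx =>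
        obtain ⟨s, rfl⟩ := hx
        exact ⟨u s, Submonoid.subset_closure ⟨(u s, 1), by cases s <;> simp, rfl⟩, hu s⟩
      | one => exact ⟨1, one_mem _, (map_one π).symm⟩
      | mul x y _ _ hx hy =>
        obtain ⟨g, hg, e⟩ := hx
        obtain ⟨g', hg', e'⟩ := hy
        exact ⟨g * g', mul_mem hg hg', by rw [Units.val_mul, e, e', map_mul]⟩
    obtain ⟨g, hg, e⟩ := h7
    have h8 : Submodule.span F {y | ∃ r ∈ R, r.1 = y} ≤ (Submodule.span F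
        {y | ∃ r ∈ R.map fun r => (f r, (r.2 + 1) / 2), r.1 = y}).map π.toLinearMap :=
      Submodule.span_le.2 fun y ⟨r, hr, e⟩ => ⟨f r, Submodule.subset_span
        ⟨_, List.mem_map_of_mem hr, rfl⟩, (hf2 r hr).trans e⟩
    obtain ⟨y, hy, e'⟩ := h8 (hR3 g (hB3 g hg))
    refine ⟨y, hy, (hk _).1 ?_⟩
    rw [map_sub, map_pow, map_sub, map_one, ← e, ← e']
    exact sub_self _

/-- Sketch. Let `I : Ideal (T F)` have carrier `Ge F (D+1)` (two-sided: `Ge_mul_left`,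
`Ge_mul_right`), `B = T F ⧸ I`, `Fil n = (Ge F n).map (Ideal.Quotient.mkₐ F I).toLinearMap`. The images
`a`, `b` of `gen false`, `gen true` are units (`IsNilpotent.isUnit_one_add`, `Ge_pow`). Apply
`lazard` in `Bˣ` with `P i g := (g : B) - 1 ∈ Fil i` (for the commutator use
`g⁻¹ * h * g * h⁻¹ - 1 = g⁻¹ * ((h-1)*(g-1) - (g-1)*(h-1)) * h⁻¹`), `A = [(a,1),(b,1)]`,
`s = (1 - 1/D)/2`, so `1/D ≤ ∏ (1 - s^j)`; then `newton` with `τ = √t`; by `termwise`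
`(1/D)^1000 ≤ ∏ (1 - τ^(2j-1))`. Lift each `(r, c)` to `(r', (c+1)/2)` with `r' ∈ Ge F ((c+1)/2)`;
`t^((c+1)/2) = τ^(2*((c+1)/2)) ≤ τ^c`, and `τ^α ≤ (7/8)^α`. The image of
`w ∈ closure (range gen)` is the value of a unit in the submonoid generated by `a`, `b`. -/
theorem head (F : Type) [Field F] {α D : ℕ} (hα : 1 ≤ α) (hD : 2 ≤ D) :
    ∃ R : List (T F × ℕ), (∀ r ∈ R, 1 ≤ r.2 ∧ r.1 ∈ Ge F r.2) ∧
      (R.map fun r => ((1 + 1 / D) / 2 : ℝ) ^ r.2).sum ≤ (7 / 8) ^ α * (D : ℝ) ^ 1000 ∧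
      ∀ w ∈ Submonoid.closure (Set.range (gen : Bool → T F)),
        ∃ y ∈ Submodule.span F {y | ∃ r ∈ R, r.1 = y}, (w - 1) ^ α - y ∈ Ge F (D + 1) := by
  let I : Ideal (T F) :=
    { carrier := Ge F (D + 1)
      add_mem' := add_mem
      zero_mem' := zero_mem _
      smul_mem' := fun c _ hx => Ge_mul_left c hx }
  have : I.IsTwoSided := ⟨fun b ha => Ge_mul_right ha b⟩
  exact Head_core F hα hD (Ideal.Quotient.mkₐ F I) (Ideal.Quotient.mkₐ_surjective F I)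
    fun x => Ideal.Quotient.eq_zero_iff_mem

end Pool.Agent.Lib.MP_9675a1_al
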