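import Mathlib

/-!
# Elimination of generators in a filtered group
-/

set_option autoImplicit false

namespace Pool.Agent.Lib.MP_9675a1_al

/-- `g` is an ordered product of powers of the elements of the list (the head comes last). -/
def OP {Γ : Type} [Group Γ] : List (Γ × ℕ) → Γ → Prop
  | [], g => g = 1
  | x :: B, g => ∃ (h : Γ) (k : ℕ), OP B h ∧ g = h * x.1 ^ k

/-- Iterated commutators with `x`. -/
def Laz_it {Γ : Type} [Group Γ] (x y : Γ) : ℕ → Γ
  | 0 => y
  | k + 1 => (Laz_it x y k)⁻¹ * x * Laz_it x y k * x⁻¹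

/-- The new generators. -/
def Laz_new {Γ : Type} [Group Γ] (D : ℕ) (x : Γ × ℕ) (A : List (Γ × ℕ)) : List (Γ × ℕ) :=
  A.flatMap fun y => (List.range D).map fun k => (Laz_it x.1 y.1 (k + 1), y.2 + (k + 1) * x.2)

theorem Laz_mem {Γ : Type} [Group Γ] {D : ℕ} {x z : Γ × ℕ} {A : List (Γ × ℕ)} :
    z ∈ Laz_new D x A ↔
      ∃ y ∈ A, ∃ k < D, (Laz_it x.1 y.1 (k + 1), y.2 + (k + 1) * x.2) = z := by
  simp only [Laz_new, List.mem_flatMap, List.mem_map, List.mem_range]

theorem Laz_geo {t : ℝ} (ht : 0 ≤ t) (D : ℕ) :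
    (1 + ((List.range D).map fun k => t ^ (k + 1)).sum) * (1 - t) ≤ 1 := by
  have h : (1 + ((List.range D).map fun k => t ^ (k + 1)).sum) * (1 - t) = 1 - t ^ (D + 1) := by
    induction D with
    | zero => simp
    | succ D ih =>
      rw [List.range_succ, List.map_append, List.sum_append, ← add_assoc, add_mul, ih]
      simp only [List.map_cons, List.map_nil, List.sum_cons, List.sum_nil]
      ring
  rw [h]
  exact sub_le_self _ (pow_nonneg ht _)

theorem Laz_wt {Γ : Type} [Group Γ] {s : ℝ} (hs : 0 ≤ s) (D : ℕ) (x : Γ × ℕ) (A : List (Γ × ℕ)) :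
    ((A ++ Laz_new D x A).map fun y => s ^ y.2).sum * (1 - s ^ x.2) ≤
      (A.map fun y => s ^ y.2).sum := by
  rw [List.map_append, List.sum_append]
  induction A with
  | nil => simp [Laz_new]
  | cons y A ih =>
    have h1 : (((List.range D).map fun k => (Laz_it x.1 y.1 (k + 1), y.2 + (k + 1) * x.2)).map
        fun z : Γ × ℕ => s ^ z.2).sum =
        s ^ y.2 * ((List.range D).map fun k => (s ^ x.2) ^ (k + 1)).sum := by
      rw [List.map_map, ← List.sum_map_mul_left]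
      refine congrArg List.sum (List.map_congr_left fun k _ => ?_)
      simp only [Function.comp_apply]
      ring
    have h2 := mul_le_mul_of_nonneg_left (Laz_geo (pow_nonneg hs x.2) D) (pow_nonneg hs y.2)
    rw [Laz_new] at ih
    rw [Laz_new, List.flatMap_cons, List.map_append, List.sum_append, h1, List.map_cons,
      List.sum_cons]
    linarith

theorem Laz_mon {Γ : Type} [Group Γ] {D : ℕ} {x : Γ × ℕ} {A : List (Γ × ℕ)}
    (h1 : ∀ y ∈ A, ∀ k, D ≤ k → Laz_it x.1 y.1 (k + 1) = 1) {g : Γ}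
    (hg : g ∈ Submonoid.closure {y | ∃ z ∈ x :: A, z.1 = y}) :
    ∃ h ∈ Submonoid.closure {y | ∃ z ∈ A ++ Laz_new D x A, z.1 = y}, ∃ k : ℕ, g = h * x.1 ^ k := by
  obtain ⟨H, hH⟩ : ∃ H, H = Submonoid.closure {y | ∃ z ∈ A ++ Laz_new D x A, z.1 = y} := ⟨_, rfl⟩
  have c1 : ∀ y ∈ A, ∀ k, Laz_it x.1 y.1 k ∈ H := fun y hy k => by
    rw [hH]
    rcases k with _ | k
    · exact Submonoid.subset_closure ⟨y, List.mem_append_left _ hy, rfl⟩
    · rcases lt_or_ge k D with h | h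
      · exact Submonoid.subset_closure
          ⟨_, List.mem_append_right _ (Laz_mem.2 ⟨y, hy, k, h, rfl⟩), rfl⟩
      · rw [h1 y hy k h]
        exact one_mem _
  have c2 : ∀ y ∈ A, ∀ k, x.1 * Laz_it x.1 y.1 k * x.1⁻¹ ∈ H := fun y hy k => by
    have h := mul_mem (c1 y hy k) (c1 y hy (k + 1))
    rw [Laz_it] at h
    simpa only [← mul_assoc, mul_inv_cancel, one_mul] using h
  have c3 : ∀ h ∈ H, x.1 * h * x.1⁻¹ ∈ H := fun h hh => by
    rw [hH] at hh
    induction hh using Submonoid.closure_induction with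
    | mem u hu =>
      obtain ⟨z, hz, rfl⟩ := hu
      rcases List.mem_append.1 hz with hz | hz
      · exact c2 z hz 0
      · obtain ⟨y, hy, k, -, rfl⟩ := Laz_mem.1 hz
        exact c2 y hy (k + 1)
    | one => simp
    | mul u v _ _ hu hv =>
      have h := mul_mem hu hv
      rwa [conj_mul] at h
  have c4 : ∀ (n : ℕ), ∀ h ∈ H, x.1 ^ n * h * (x.1 ^ n)⁻¹ ∈ H := fun n h hh => by
    induction n with
    | zero => simpa using hh
    | succ n ih =>
      have h2 := c3 _ ih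
      rwa [show x.1 * (x.1 ^ n * h * (x.1 ^ n)⁻¹) * x.1⁻¹ = x.1 ^ (n + 1) * h * (x.1 ^ (n + 1))⁻¹ by
        group] at h2
  rw [← hH]
  induction hg using Submonoid.closure_induction with
  | mem u hu =>
    obtain ⟨z, hz, rfl⟩ := hu
    rcases List.mem_cons.1 hz with rfl | hz
    · exact ⟨1, one_mem _, 1, by simp⟩
    · exact ⟨z.1, c1 z hz 0, 0, by simp⟩
  | one => exact ⟨1, one_mem _, 0, by simp⟩
  | mul u v _ _ hu hv =>
    obtain ⟨h, hh, k, rfl⟩ := hu
    obtain ⟨h', hh', l, rfl⟩ := hv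
    exact ⟨_, mul_mem hh (c4 k h' hh'), k + l, by group⟩

/-- Lazard elimination. `P i g` reads: `g` has degree at least `i`.
Sketch. Well-founded induction on the multiset `A.map fun x => D + 1 - x.2` for
`Multiset.IsDershowitzMannaLT` (`Multiset.wellFounded_isDershowitzMannaLT`). `A = []`: `B = []`.
`A = (x, δ) :: A₀`. If `D < δ` then `x = 1`: drop it. Otherwise for `(y, j) ∈ A₀` put `y 0 = y`,
`y (k+1) = (y k)⁻¹ * x * y k * x⁻¹`, of degree `j + k * δ`, and let `A'` list `(y k, j + k * δ)` for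
`k ≤ D` (that is `A₀` together with elements of degree `> δ`, so the multiset drops; up to a
permutation `A' = A₀ ++ new`, simply define it that way). `y k = 1` for `k > D`. Since
`x * y k * x⁻¹ = y k * y (k+1)`, conjugation by `x` maps the submonoid `H` generated by `A'` into
itself, so `{h * x ^ k | h ∈ H}` is stable under right multiplication by `x` and by each `y`, and
contains the submonoid generated by `A`. Take `B = (x, δ) :: B'` with `B'` from `A'`.
Weights: `f A' * (1 - s^δ) ≤ f A₀` (geometric sums), so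
`1 - f A = 1 - s^δ - f A₀ ≤ (1 - s^δ) * (1 - f A') ≤ (1 - s^δ) * ∏ B'`. -/
theorem lazard {Γ : Type} [Group Γ] (P : ℕ → Γ → Prop) (D : ℕ)
    (hc : ∀ i j g h, P i g → P j h → P (i + j) (g⁻¹ * h * g * h⁻¹))
    (hD : ∀ i g, P i g → D < i → g = 1) {s : ℝ} (hs0 : 0 < s) (hs1 : s < 1)
    (A : List (Γ × ℕ)) (hA : ∀ x ∈ A, 1 ≤ x.2 ∧ P x.2 x.1) :
    ∃ B : List (Γ × ℕ), (∀ x ∈ B, 1 ≤ x.2 ∧ x.2 ≤ D ∧ P x.2 x.1) ∧
      1 - (A.map fun x => s ^ x.2).sum ≤ (B.map fun x => 1 - s ^ x.2).prod ∧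
      ∀ g ∈ Submonoid.closure {y | ∃ x ∈ A, x.1 = y}, OP B g := by
  obtain ⟨M, hM⟩ : ∃ M : Multiset ℕ, M = ((A.map fun x => D + 1 - x.2 : List ℕ) : Multiset ℕ) :=
    ⟨_, rfl⟩
  induction M using (Multiset.wellFounded_isDershowitzMannaLT (α := ℕ)).induction
    generalizing A with
  | _ M ih => ?_
  subst hM
  rcases A with _ | ⟨x, A⟩
  · exact ⟨[], by simp, by simp, fun g hg => by simpa [OP] using hg⟩
  have hx := hA x List.mem_cons_self
  have hA' : ∀ y ∈ A, 1 ≤ y.2 ∧ P y.2 y.1 := fun y hy => hA y (List.mem_cons_of_mem _ hy)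
  have hs : 0 ≤ s ^ x.2 ∧ s ^ x.2 ≤ 1 := ⟨pow_nonneg hs0.le _, pow_le_one₀ hs0.le hs1.le⟩
  rcases lt_or_ge D x.2 with h | h
  · obtain ⟨B, h1, h2, h3⟩ := ih _ ⟨((A.map fun x => D + 1 - x.2 : List ℕ) : Multiset ℕ), 0,
      {D + 1 - x.2}, by simp, by simp, by simp [add_comm], by simp⟩ A hA' rfl
    refine ⟨B, h1, ?_, fun g hg => h3 g (Submonoid.closure_le.2 ?_ hg)⟩
    · rw [List.map_cons, List.sum_cons]
      linarith [hs.1]
    · rintro _ ⟨z, hz, rfl⟩
      rcases List.mem_cons.1 hz with rfl | hz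
      · rw [hD _ _ hx.2 h]
        exact one_mem _
      · exact Submonoid.subset_closure ⟨z, hz, rfl⟩
  have hP : ∀ y ∈ A, ∀ k, P (y.2 + k * x.2) (Laz_it x.1 y.1 k) := fun y hy k => by
    induction k with
    | zero => simpa [Laz_it] using (hA' y hy).2
    | succ k ih =>
      rw [add_mul, one_mul, ← add_assoc]
      exact hc _ _ _ _ ih hx.2
  obtain ⟨B, h1, h2, h3⟩ := ih _ ⟨((A.map fun x => D + 1 - x.2 : List ℕ) : Multiset ℕ),
    (((Laz_new D x A).map fun x => D + 1 - x.2 : List ℕ) : Multiset ℕ), {D + 1 - x.2}, by simp,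
    by rw [Multiset.coe_add, ← List.map_append], by simp [add_comm], fun a ha => by
      obtain ⟨z, hz, rfl⟩ := List.mem_map.1 (Multiset.mem_coe.1 ha)
      obtain ⟨y, hy, k, -, rfl⟩ := Laz_mem.1 hz
      have h4 := (hA' y hy).1
      have h5 : x.2 ≤ (k + 1) * x.2 := Nat.le_mul_of_pos_left _ k.succ_pos
      exact ⟨_, Multiset.mem_singleton_self _, by dsimp only; omega⟩⟩ (A ++ Laz_new D x A)
    (fun z hz => by
      rcases List.mem_append.1 hz with hz | hz
      · exact hA' z hz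
      · obtain ⟨y, hy, k, -, rfl⟩ := Laz_mem.1 hz
        exact ⟨(hA' y hy).1.trans (Nat.le_add_right _ _), hP y hy (k + 1)⟩) rfl
  refine ⟨x :: B, fun z hz => ?_, ?_, fun g hg => ?_⟩
  · rcases List.mem_cons.1 hz with rfl | hz
    exacts [⟨hx.1, h, hx.2⟩, h1 z hz]
  · have h4 := Laz_wt hs0.le D x A
    have h5 := mul_le_mul_of_nonneg_left h2 (sub_nonneg.2 hs.2)
    rw [List.map_cons, List.sum_cons, List.map_cons, List.prod_cons]
    linarith
  · obtain ⟨u, hu, k, rfl⟩ := Laz_mon (D := D) (fun y hy k hk => hD _ _ (hP y hy (k + 1)) (by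
      have h5 : k + 1 ≤ (k + 1) * x.2 := Nat.le_mul_of_pos_right _ hx.1
      omega)) hg
    exact ⟨u, k, h3 u hu, rfl⟩

end Pool.Agent.Lib.MP_9675a1_al
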