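import Pool.Agent.Lib.MP_9675a1_al.Basic

/-!
# Commutator words and their leading terms modulo `X ^ 2` and `Y ^ 2`
-/

set_option autoImplicit false

noncomputable section

namespace Pool.Agent.Lib.MP_9675a1_al

/-- The representation in which only alternating words survive. -/
def alt (F : Type) [Field F] : T F →ₐ[F] Matrix Bool Bool F :=
  FreeAlgebra.lift F fun s => Matrix.single (!s) s 1

/-- The word `a`. -/
def la : List (Bool × Bool) := [(false, true)]

/-- The word `b`. -/
def lb : List (Bool × Bool) := [(true, true)]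

/-- `[b, [b,a], ..., [b,a]]`, of degree `2k+1`. -/
def c1 : ℕ → List (Bool × Bool)
  | 0 => lb
  | k + 1 => cm (c1 k) (cm lb la)

/-- Of degree `2k+2`. -/
def c2 (k : ℕ) : List (Bool × Bool) := cm (c1 k) la

/-- Of degree `6k+5`. -/
def c3 (k : ℕ) : List (Bool × Bool) := cm (cm (c1 k) (c2 k)) (c2 k)

/-- The iterated commutator `[a, [a, ..., c3 k]]`. -/
def hl (k : ℕ) : ℕ → List (Bool × Bool)
  | 0 => c3 k
  | j + 1 => cm la (hl k j)

section

variable {F : Type} [Field F]

/-- `x` has degree at least `n` and the image of its leading term is `A`. -/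
def Lead_L (n : ℕ) (x : T F) (A : Matrix Bool Bool F) : Prop :=
  ∃ y ∈ Eqd F n, x - y ∈ Ge F (n + 1) ∧ alt F y = A

lemma Lead_ge {n : ℕ} {x : T F} {A : Matrix Bool Bool F} (h : Lead_L n x A) : x ∈ Ge F n := by
  obtain ⟨y, h1, h2, -⟩ := h
  simpa using add_mem (Ge_anti (Nat.le_succ n) h2) (Eqd_le_Ge n h1)

lemma Lead_mul {n n' : ℕ} {x x' : T F} {A A' : Matrix Bool Bool F} (h : Lead_L n x A)
    (h' : Lead_L n' x' A') : Lead_L (n + n') (x * x') (A * A') := by
  have hx := Lead_ge h'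
  obtain ⟨y, h1, h2, rfl⟩ := h
  obtain ⟨y', h1', h2', rfl⟩ := h'
  refine ⟨y * y', Eqd_mul h1 h1', ?_, map_mul _ _ _⟩
  rw [show x * x' - y * y' = (x - y) * x' + y * (x' - y') by noncomm_ring]
  exact add_mem (Ge_anti (by omega) (Ge_mul h2 hx))
    (Ge_anti (by omega) (Ge_mul (Eqd_le_Ge n h1) h2'))

lemma Lead_cm (p : ℕ) [Fact p.Prime] [CharP F p] {n n' : ℕ} {l l' : List (Bool × Bool)}
    {A A' : Matrix Bool Bool F} (h : Lead_L n (ev p l - 1) A) (h' : Lead_L n' (ev p l' - 1) A')
    (hp : n + n' < p) : Lead_L (n + n') (ev p (cm l l') - 1) (A * A' - A' * A) := by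
  have g1 := Lead_mul h h'
  have g2 := Lead_mul h' h
  rw [add_comm n' n] at g2
  have g3 := sub_mem (Lead_ge g1) (Lead_ge g2)
  obtain ⟨y, h1, h2, e⟩ := g1
  obtain ⟨y', h1', h2', e'⟩ := g2
  refine ⟨y - y', sub_mem h1 h1', ?_, by rw [map_sub, e, e']⟩
  have i1 := Ge_anti (Nat.succ_le_of_lt hp) (ev_inv_mem (F := F) p l)
  have i2 := Ge_anti (Nat.succ_le_of_lt hp) (ev_inv_mem (F := F) p l')
  have i3 := sub_one_mem (mul_mem (ev_mem (F := F) p (FreeGroup.invRev l))
    (ev_mem p (FreeGroup.invRev l')))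
  rw [ev_cm]
  generalize (ev p l : T F) = x, (ev p l' : T F) = z, (ev p (FreeGroup.invRev l) : T F) = x',
    (ev p (FreeGroup.invRev l') : T F) = z' at *
  rw [show x * z * x' * z' - 1 - (y - y') =
    ((x - 1) * (z - 1) - (z - 1) * (x - 1)) * (x' * z' - 1) +
      (((x - 1) * (z - 1) - y) - ((z - 1) * (x - 1) - y')) +
        (z * (x * x' - 1) * z' + (z * z' - 1)) by noncomm_ring]
  exact add_mem (add_mem (Ge_mul g3 i3) (sub_mem h2 h2'))
    (add_mem (Ge_mul_right (Ge_mul_left _ i1) _) i2)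

lemma Lead_gen (p : ℕ) (s : Bool) :
    Lead_L 1 (ev p [(s, true)] - 1 : T F) (Matrix.single (!s) s 1) :=
  ⟨FreeAlgebra.ι F s, ι_mem s, by simp [gen], by simp [alt]⟩

/-- The diagonal matrix with entries `1` and `-1`. -/
def Lead_H (F : Type) [Field F] : Matrix Bool Bool F :=
  Matrix.single false false 1 - Matrix.single true true 1

lemma Lead_EE (c : F) : c • Matrix.single false true (1 : F) * Matrix.single true false (1 : F) -
    Matrix.single true false (1 : F) * c • Matrix.single false true (1 : F) = c • Lead_H F := by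
  simp only [Lead_H, Matrix.smul_mul, Matrix.mul_smul, Matrix.single_mul_single_same, mul_one,
    smul_sub]

lemma Lead_EH (c d : F) : c • Matrix.single false true (1 : F) * d • Lead_H F -
    d • Lead_H F * c • Matrix.single false true (1 : F) =
      (-2 * c * d) • Matrix.single false true (1 : F) := by
  ext i j
  cases i <;> cases j <;> simp [Lead_H, Matrix.mul_apply]
  ring

lemma Lead_c1 (p : ℕ) [Fact p.Prime] [CharP F p] (k : ℕ) (hk : 2 * k + 1 < p) :
    Lead_L (2 * k + 1) (ev p (c1 k) - 1 : T F) ((-2 : F) ^ k • Matrix.single false true 1) := by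
  induction k with
  | zero => simpa [c1, lb] using Lead_gen (F := F) p true
  | succ k ih =>
    have h1 : Lead_L 1 (ev p lb - 1 : T F) ((1 : F) • Matrix.single false true 1) := by
      simpa [lb] using Lead_gen (F := F) p true
    have h2 := Lead_cm p h1 (Lead_gen p false) (by omega)
    rw [Bool.not_false, Lead_EE] at h2
    have h3 := Lead_cm p (ih (by omega)) h2 (by omega)
    rw [Lead_EH, mul_one, ← pow_succ'] at h3
    exact h3

end

/-- Sketch. `Lead n x A := ∃ y ∈ Eqd F n, x - y ∈ Ge F (n+1) ∧ alt F y = A`; it gives `x ∈ Ge F n`.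
It is multiplicative (`x * x' - y * y' = (x - y) * x' + y * (x' - y')`), compatible with `-`, and
unchanged by adding an element of `Ge F (n+1)` or by a right factor `z` with `z - 1 ∈ Ge F 1`
(`sub_one_mem`, `ev_mem`). Commutator lemma: if `ev p l - 1` and `ev p l' - 1` have leading terms
`A`, `A'` in degrees `n`, `n'` and `n + n' < p`, then `ev p (cm l l') - 1` has leading term
`A * A' - A' * A` in degree `n + n'`, by `ev_cm`, `ev_inv_mem` and
`x*y*x'*y' - 1 = ((x-1)*(y-1) - (y-1)*(x-1)) * (x'*y') + (y*(x*x'-1)*y' + (y*y'-1))`.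
With `E = single false true 1`, `E' = single true false 1`, `H = E*E' - E'*E`: `lb` has leading
term `E`, `la` has `E'`, `cm lb la` has `H`, and `E*H - H*E = (-2) • E`. So `c1 k` has
`(-2)^k • E`, `c2 k` has `(-2)^k • H`, `c3 k` has `4 * ((-2)^k)^3 • E`. -/
theorem lead (F : Type) [Field F] (p : ℕ) [Fact p.Prime] [CharP F p] {k : ℕ} (hk : 6 * k + 5 < p) :
    (ev p (c1 k) : T F) - 1 ∈ Ge F (2 * k + 1) ∧ (ev p (c2 k) : T F) - 1 ∈ Ge F (2 * k + 1) ∧
      ∃ y ∈ Eqd F (6 * k + 5), (ev p (c3 k) : T F) - 1 - y ∈ Ge F (6 * k + 6) ∧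
        alt F y false true = 4 * ((-2) ^ k) ^ 3 := by
  have h1 := Lead_c1 (F := F) p k (by omega)
  have h2 := Lead_cm p h1 (Lead_gen p false) (by omega)
  rw [Bool.not_false, Lead_EE] at h2
  have h3 := Lead_cm p h1 h2 (by omega)
  rw [Lead_EH] at h3
  have h4 := Lead_cm p h3 h2 (by omega)
  rw [Lead_EH, show 2 * k + 1 + (2 * k + 1 + 1) + (2 * k + 1 + 1) = 6 * k + 5 by ring] at h4
  obtain ⟨y, g1, g2, g3⟩ := h4
  refine ⟨Lead_ge h1, Ge_anti (Nat.le_succ _) (Lead_ge h2), y, g1, g2, ?_⟩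
  rw [g3]
  simp
  ring

end Pool.Agent.Lib.MP_9675a1_al
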