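import Pool.Agent.Lib.MP_9675a1_al.GS
import Pool.Agent.Lib.MP_9675a1_al.Head

/-!
# A functional of any degree killing all the relations
-/

set_option autoImplicit false

noncomputable section

namespace Pool.Agent.Lib.MP_9675a1_al

lemma Rel_small (n : ℕ) : (32 * ((n + 30 : ℕ) : ℝ)) * (3 / 4) ^ (n + 30) ≤ 1 := by
  induction n with
  | zero => norm_num
  | succ n ih =>
    refine le_trans ?_ ih
    rw [Nat.add_right_comm, pow_succ _ (n + 30), mul_comm _ (3 / 4 : ℝ), ← mul_assoc]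
    refine mul_le_mul_of_nonneg_right ?_ (by positivity)
    push_cast
    linarith [Nat.cast_nonneg (α := ℝ) n]

/-- Sketch. `∃ n₀, ∀ n ≥ n₀, 32 * n * (3/4)^n ≤ 1`
(`tendsto_self_mul_const_pow_of_lt_one`). Take `D = 12 * d + 2 * n₀ + 2`, `n = 6 * d + n₀ + 1`, so
`D = 2 * n`, `(3/4)^D ≤ (3/4)^(6d) * (3/4)^n` and `5 * (3/4)^6 ≤ 1`. For the first bound:
`D ≤ 2^(p/C + e)` with `2^e ≥ 14 + 2 * n₀`, `(7/8)^6 ≤ 1/2`, `α = (p-36)/10 ≥ 6 * q` where
`q = 1001 * (p/C + e) + 4`; take `C = 200000` and `p₀` large (`omega`), so that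
`(7/8)^α ≤ (1/2)^q`. -/
lemma params : ∃ C p₀ : ℕ, 0 < C ∧ 100 ≤ p₀ ∧ ∀ p ≥ p₀, ∀ d ≤ 2 ^ (p / C), ∃ D : ℕ, 2 ≤ D ∧
    (7 / 8 : ℝ) ^ ((p - 36) / 10) * (D : ℝ) ^ 1001 * 16 ≤ 1 ∧
    (5 : ℝ) ^ d * (3 / 4) ^ D * D * 16 ≤ 1 := by
  refine ⟨200000, 1000000, by norm_num, by norm_num, fun p hp d hd => ⟨2 * (6 * d + 31), by omega,
    ?_, ?_⟩⟩
  · obtain ⟨k, hk⟩ : ∃ k, k = p / 200000 := ⟨_, rfl⟩
    rw [← hk] at hd
    have h1 : 2 * (6 * d + 31) ≤ 2 ^ (k + 7) := by
      have := Nat.one_le_two_pow (n := k)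
      rw [pow_add]
      omega
    have h2 : ((2 * (6 * d + 31) : ℕ) : ℝ) ^ 1001 ≤ (2 ^ (k + 7)) ^ 1001 :=
      pow_le_pow_left₀ (Nat.cast_nonneg _) (by exact_mod_cast h1) _
    have h3 : (7 / 8 : ℝ) ^ ((p - 36) / 10) ≤ (1 / 2) ^ ((k + 7) * 1001 + 4) := by
      refine (pow_le_pow_of_le_one (by norm_num) (by norm_num)
        (show 6 * ((k + 7) * 1001 + 4) ≤ (p - 36) / 10 by omega)).trans ?_
      rw [pow_mul]
      exact pow_le_pow_left₀ (by norm_num) (by norm_num) _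
    rw [← pow_mul] at h2
    refine (mul_le_mul_of_nonneg_right (mul_le_mul h3 h2 (by positivity) (by positivity))
      (by norm_num)).trans (le_of_eq ?_)
    rw [mul_assoc, show (16 : ℝ) = 2 ^ 4 by norm_num, ← pow_add, ← mul_pow, one_div,
      inv_mul_cancel₀ two_ne_zero, one_pow]
  · have h1 := Rel_small (6 * d + 1)
    have h2 : (5 : ℝ) ^ d * (3 / 4) ^ (6 * d + 31) ≤ 1 := by
      refine (mul_le_mul_of_nonneg_left (pow_le_pow_of_le_one (by norm_num) (by norm_num)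
        (Nat.le_add_right (6 * d) 31)) (by positivity)).trans ?_
      rw [pow_mul, ← mul_pow]
      exact pow_le_one₀ (by norm_num) (by norm_num)
    refine le_trans (le_of_eq ?_) (mul_le_one₀ h2 (by positivity) h1)
    rw [two_mul (6 * d + 31), pow_add]
    push_cast
    ring

/-- All group words of length at most `d`. -/
def Rel_W : ℕ → List (List (Bool × Bool))
  | 0 => [[]]
  | d + 1 => [] :: [(false, false), (false, true), (true, false), (true, true)].flatMap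
      fun x => (Rel_W d).map (x :: ·)

lemma Rel_len (d : ℕ) : (Rel_W d).length ≤ 5 ^ d := by
  induction d with
  | zero => exact le_rfl
  | succ d ih =>
    have := Nat.one_le_pow d 5 (by norm_num)
    simp only [Rel_W, List.flatMap_cons, List.flatMap_nil, List.length_cons, List.length_append,
      List.length_map, List.length_nil, pow_succ]
    omega

lemma Rel_mem {d : ℕ} (l : List (Bool × Bool)) (h : l.length ≤ d) : l ∈ Rel_W d := by
  induction d generalizing l with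
  | zero => rw [List.length_eq_zero_iff.1 (Nat.le_zero.1 h)]; exact List.mem_singleton_self _
  | succ d ih =>
    rcases l with _ | ⟨x, l⟩
    · exact List.mem_cons_self
    · refine List.mem_cons_of_mem _ (List.mem_flatMap.2 ⟨x, ?_,
        List.mem_map_of_mem (ih l (Nat.le_of_succ_le_succ h))⟩)
      rcases x with ⟨_ | _, _ | _⟩ <;> simp

/-- Sketch. Let `W d` list all group words of length `≤ d`, `W 0 = [[]]`,
`W (d+1) = [] :: (letters.flatMap fun x => (W d).map (x :: ·))`, of length `≤ 5^d`. Take `R₀` from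
`head`; for each `l` choose `y l` in the span with `(ev p l - 1)^α - y l ∈ Ge F (D+1)` (`ev_mem`).
Apply `gs` with `t = (1 + 1/D)/2` (so `1/2 < t ≤ 3/4`, `(1-t)*(2t-1) ≥ 1/(4D)`) to
`R₀ ++ (W d).map (fun l => ((ev p l - 1)^α - y l, D+1)) ++ [(γ₁, α), (γ₂, α)]`; each of the four
parts weighs at most `1/(16 D)`. The elements `r` with `φ (x * r * y) = 0` for all `x y` form a
submodule. -/
theorem exists_fun (F : Type) [Field F] (p : ℕ) {α d D : ℕ} (hα : 1 ≤ α) (hD : 2 ≤ D)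
    (h1 : (7 / 8 : ℝ) ^ α * (D : ℝ) ^ 1001 * 16 ≤ 1) (h2 : (5 : ℝ) ^ d * (3 / 4) ^ D * D * 16 ≤ 1)
    {γ₁ γ₂ : T F} (hγ₁ : γ₁ ∈ Ge F α) (hγ₂ : γ₂ ∈ Ge F α) (L : ℕ) :
    ∃ φ : T F →ₗ[F] F, (∀ m : List Bool, m.length ≠ L → φ (wd m) = 0) ∧ (∃ m, φ (wd m) ≠ 0) ∧
      (∀ x y, φ (x * γ₁ * y) = 0) ∧ (∀ x y, φ (x * γ₂ * y) = 0) ∧
      ∀ l : List (Bool × Bool), l.length ≤ d → ∀ x y, φ (x * (ev p l - 1) ^ α * y) = 0 := by
  obtain ⟨R₀, hR₀, hw₀, hy⟩ := head F hα hD
  choose y hy1 hy2 using fun l => hy (ev p l) (ev_mem p l)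
  have hD' : (2 : ℝ) ≤ D := by exact_mod_cast hD
  have hu : (1 / D : ℝ) ≤ 1 / 2 := one_div_le_one_div_of_le two_pos hD'
  have hu0 : (0 : ℝ) < 1 / D := by positivity
  have hu1 : (D : ℝ) * (1 / D) = 1 := mul_one_div_cancel (by positivity)
  have k1 : (7 / 8 : ℝ) ^ α * (D : ℝ) ^ 1000 ≤ 1 / D / 16 := by
    rw [le_div_iff₀ (by norm_num), le_div_iff₀ (by positivity)]
    exact (le_of_eq (by ring)).trans h1
  have k2 : ((1 + 1 / D) / 2 : ℝ) ^ α ≤ 1 / D / 16 :=
    ((pow_le_pow_left₀ (by positivity) (by linarith) α).trans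
      (le_mul_of_one_le_right (by positivity) (one_le_pow₀ (by linarith)))).trans k1
  have k3 : ((Rel_W d).length : ℝ) * ((1 + 1 / D) / 2 : ℝ) ^ (D + 1) ≤ 1 / D / 16 := by
    have h3 : ((1 + 1 / D) / 2 : ℝ) ^ (D + 1) ≤ (3 / 4) ^ D :=
      (pow_le_pow_left₀ (by positivity) (by linarith) _).trans
        (pow_le_pow_of_le_one (by norm_num) (by norm_num) D.le_succ)
    have h4 : ((Rel_W d).length : ℝ) ≤ 5 ^ d := by exact_mod_cast Rel_len d
    refine (mul_le_mul h4 h3 (by positivity) (by positivity)).trans ?_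
    rw [le_div_iff₀ (by norm_num), le_div_iff₀ (by positivity)]
    exact (le_of_eq (by ring)).trans h2
  obtain ⟨φ, h3, h4, h5⟩ := gs (R₀ ++ (Rel_W d).map (fun l => ((ev p l - 1) ^ α - y l, D + 1)) ++
      [(γ₁, α), (γ₂, α)]) (t := (1 + 1 / D) / 2) (by positivity) (by linarith) (fun r hr => by
    rcases List.mem_append.1 hr with hr | hr
    · rcases List.mem_append.1 hr with hr | hr
      · exact hR₀ r hr
      · obtain ⟨l, -, rfl⟩ := List.mem_map.1 hr
        exact ⟨Nat.le_add_left _ _, hy2 l⟩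
    · rcases List.mem_pair.1 hr with rfl | rfl
      exacts [⟨hα, hγ₁⟩, ⟨hα, hγ₂⟩]) (by
    rw [List.map_append, List.map_append, List.sum_append, List.sum_append, List.map_map]
    have h3 : (List.map ((fun r : T F × ℕ => ((1 + 1 / D) / 2 : ℝ) ^ r.2) ∘
        fun l => ((ev p l - 1) ^ α - y l, D + 1)) (Rel_W d)).sum =
          ((Rel_W d).length : ℝ) * ((1 + 1 / D) / 2 : ℝ) ^ (D + 1) := by
      rw [← nsmul_eq_mul, ← List.sum_replicate, ← List.map_const']
      rfl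
    rw [h3, List.map_cons, List.map_cons, List.map_nil, List.sum_cons, List.sum_cons, List.sum_nil]
    have h4 := mul_le_mul_of_nonneg_right hu hu0.le
    nlinarith) L
  refine ⟨φ, h3, h4, h5 (γ₁, α) (by simp), h5 (γ₂, α) (by simp), fun l hl x z => ?_⟩
  have h6 := h5 (_, _) (List.mem_append_left _ (List.mem_append_right _
    (List.mem_map_of_mem (Rel_mem l hl)))) x z
  have h8 : Submodule.span F {y | ∃ r ∈ R₀, r.1 = y} ≤
      LinearMap.ker (φ ∘ₗ LinearMap.mulRight F z ∘ₗ LinearMap.mulLeft F x) := by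
    refine Submodule.span_le.2 ?_
    rintro _ ⟨r, hr, rfl⟩
    exact h5 r (List.mem_append_left _ (List.mem_append_left _ hr)) x z
  have h7 : φ (x * y l * z) = 0 := h8 (hy1 l)
  rwa [mul_sub, sub_mul, map_sub, h7, sub_zero] at h6

end Pool.Agent.Lib.MP_9675a1_al
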