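import Pool.Agent.Lib.MP_9675a1_al.Gad
import Pool.Agent.Lib.MP_9675a1_al.Lead

/-!
# The letters of the thin path, powers of `X` and alternating words on it
-/

set_option autoImplicit false

noncomputable section

namespace Pool.Agent.Lib.MP_9675a1_al

open FreeAlgebra

/-- The letters `Y, X^(m-1), Y (X Y)^k, X^m, Y, Y` of the path, `J = 2 k + 1`. -/
def slm (m J j : ℕ) : Bool :=
  decide (j = 0 ∨ (m ≤ j ∧ j < m + J ∧ (j - m) % 2 = 0) ∨ 2 * m + J ≤ j)

lemma slm_false {m J j : ℕ} : slm m J j = false ↔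
    ¬(j = 0 ∨ (m ≤ j ∧ j < m + J ∧ (j - m) % 2 = 0) ∨ 2 * m + J ≤ j) := by
  simp only [slm, decide_eq_false_iff_not]

lemma run_iff {m J i j : ℕ} (hJ : J % 2 = 1) (hj : 2 ≤ j) : (∀ t < j, slm m J (i + t) = false) ↔
    (1 ≤ i ∧ i + j ≤ m) ∨ (1 ≤ i ∧ m + J ≤ i ∧ i + j ≤ 2 * m + J) := by
  simp only [slm_false]
  constructor
  · intro h
    have h0 := h 0 (by omega)
    have h1 := h 1 (by omega)
    have h2 := h (m - i)
    have h3 := h (2 * m + J - i)
    omega
  · intro h t ht
    omega

variable {F : Type} [Field F] {W : Type} [AddCommGroup W] [Module F W] {L : ℕ}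
  (S : Seg F W L) {n : ℕ} {sl : ℕ → Bool}

lemma pow_vU (hn : sl (n - 1) = true) {i : ℕ} (hi : i < n) (j : ℕ) :
    (rU S n sl (ι F false) ^ j) (vU S n i) =
      if ∀ t < j, sl (i + t) = false then vU S n (i + j) else 0 := by
  induction j with
  | zero => simp
  | succ j ih =>
    rw [pow_succ', Module.End.mul_apply, ih]
    by_cases h : ∀ t < j, sl (i + t) = false
    · have h1 : i + j < n := by
        by_contra h1
        have := h (n - 1 - i) (by omega)
        rw [show i + (n - 1 - i) = n - 1 by omega, hn] at this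
        exact absurd this (by simp)
      rw [if_pos h, rU_vU S _ h1]
      refine if_congr ⟨fun h2 t ht => ?_, fun h2 => h2 j (by omega)⟩ rfl rfl
      rcases Nat.lt_succ_iff_lt_or_eq.mp ht with ht | rfl
      exacts [h t ht, h2]
    · rw [if_neg h, if_neg fun h2 => h fun t ht => h2 t (by omega), map_zero]

lemma pow_apply (hn : sl (n - 1) = true) (hn0 : 0 < n) (h0 : sl 0 = true) {α j : ℕ}
    (hα : S.ρ (ι F false ^ α) = 0) (hj : α + 1 ≤ j) (u : W × (Fin n → F) × W) :
    (rU S n sl (ι F false) ^ j) u = ∑ i : Fin n, u.2.1 i •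
      if ∀ t < j, sl (i + t) = false then vU S n (i + j) else 0 := by
  have h1 : ∀ (i : ℕ) (v : W), (rU S n sl (ι F false) ^ (i + 1)) (v, 0, 0) =
      (S.ρ (ι F false ^ (i + 1)) v, 0, 0) + S.lam (S.ρ (ι F false ^ i) v) • vU S n 0 := by
    intro i v
    induction i with
    | zero => simp [rU_ι]
    | succ i ih =>
      rw [pow_succ', Module.End.mul_apply, ih, map_add, map_smul, rU_vU S _ hn0, h0, rU_ι,
        pow_succ' _ (i + 1), map_mul]
      simp
  have h2 : ∀ i, α ≤ i → S.ρ (ι F false ^ i) = 0 := fun i hi => by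
    obtain ⟨k, rfl⟩ := Nat.exists_eq_add_of_le hi
    rw [pow_add, map_mul, hα, zero_mul]
  obtain ⟨i, rfl⟩ : ∃ i, j = i + 1 := ⟨j - 1, by omega⟩
  conv_lhs => rw [dec_U S u]
  rw [map_add, map_add, h1, ← map_pow, rU_top, h2 _ (by omega), h2 _ (by omega), map_sum, map_pow]
  simp only [map_smul, pow_vU S hn (Fin.is_lt _)]
  simp [Prod.mk_zero_zero]

section

variable {m J α : ℕ}

lemma slm_last : slm m J (2 * m + J + 2 - 1) = true := by simp [slm]

lemma pow_zero' (hJ : J % 2 = 1) (hα : S.ρ (ι F false ^ α) = 0) (hm : α + 2 ≤ m) {j : ℕ}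
    (hj : m + 1 ≤ j) : rU S (2 * m + J + 2) (slm m J) (ι F false) ^ j = 0 := by
  refine LinearMap.ext fun u => ?_
  rw [pow_apply S slm_last (by omega) (by simp [slm]) hα (by omega)]
  refine Finset.sum_eq_zero fun i _ => ?_
  rw [if_neg, smul_zero]
  rw [run_iff hJ (by omega)]
  omega

lemma pow_top (hJ : J % 2 = 1) (hα : S.ρ (ι F false ^ α) = 0) (hm : α + 2 ≤ m)
    (u : W × (Fin (2 * m + J + 2) → F) × W) :
    (rU S (2 * m + J + 2) (slm m J) (ι F false) ^ m) u =
      co _ (m + J) u.2.1 • vU S _ (2 * m + J) := by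
  rw [pow_apply S slm_last (by omega) (by simp [slm]) hα (by omega),
    Finset.sum_eq_single ⟨m + J, by omega⟩, co_apply (by omega), if_pos]
  · congr 2; simp only; omega
  · rw [run_iff hJ (by omega)]; simp only; omega
  · intro i _ hi
    have : (i : ℕ) ≠ m + J := fun h => hi (Fin.ext h)
    rw [if_neg, smul_zero]
    rw [run_iff hJ (by omega)]
    omega
  · simp

lemma pow_pred (hJ : J % 2 = 1) (hα : S.ρ (ι F false ^ α) = 0) (hm : α + 2 ≤ m) (hm3 : 3 ≤ m)
    (u : W × (Fin (2 * m + J + 2) → F) × W) :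
    (rU S (2 * m + J + 2) (slm m J) (ι F false) ^ (m - 1)) u - co _ 1 u.2.1 • vU S _ m ∈
      Fl W _ (m + 1) := by
  rw [pow_apply S slm_last (by omega) (by simp [slm]) hα (by omega),
    ← Finset.add_sum_erase _ _ (Finset.mem_univ (⟨1, by omega⟩ : Fin (2 * m + J + 2))),
    co_apply (by omega), if_pos, show ((⟨1, _⟩ : Fin (2 * m + J + 2)) : ℕ) + (m - 1) = m by
      simp only; omega, add_sub_cancel_left]
  · refine Submodule.sum_mem _ fun i hi => Submodule.smul_mem _ _ ?_
    have : (i : ℕ) ≠ 1 := fun h => Finset.ne_of_mem_erase hi (Fin.ext h)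
    split_ifs with h
    · rw [run_iff hJ (by omega)] at h
      exact Fl_anti (by omega) (vU_mem S _)
    · exact zero_mem _
  · rw [run_iff hJ (by omega)]; simp only; omega

lemma alt_word (w : List Bool) (hw : w.length ≤ J) :
    rU S (2 * m + J + 2) (slm m J) (wd w) (vU S _ m) =
      alt F (wd w) (decide (w.length % 2 = 0)) true • vU S _ (m + w.length) := by
  induction w with
  | nil => simp
  | cons s w ih =>
    rw [List.length_cons] at hw ⊢
    have h1 : slm m J (m + w.length) = decide (w.length % 2 = 0) := by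
      unfold slm
      rw [decide_eq_decide]
      omega
    have h2 : decide ((w.length + 1) % 2 = 0) = !decide (w.length % 2 = 0) := by
      rw [← decide_not, decide_eq_decide]
      omega
    rw [wd_cons, map_mul, map_mul, Module.End.mul_apply, ih (by omega), map_smul,
      rU_vU S _ (by omega), h1, h2, alt, FreeAlgebra.lift_ι_apply]
    generalize decide (w.length % 2 = 0) = c
    cases c <;> cases s <;> simp [Matrix.mul_apply, add_assoc]

lemma alt_co (hJ : J % 2 = 1) {y : T F} (hy : y ∈ Eqd F J) :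
    co _ (m + J) (rU S (2 * m + J + 2) (slm m J) y (vU S _ m)).2.1 = alt F y false true := by
  refine LinearMap.eqOn_span' (f := co _ (m + J) ∘ₗ LinearMap.fst F _ _ ∘ₗ LinearMap.snd F _ _ ∘ₗ
    LinearMap.applyₗ (vU S _ m) ∘ₗ (rU S (2 * m + J + 2) (slm m J)).toLinearMap)
    (g := Matrix.entryLinearMap F F false true ∘ₗ (alt F).toLinearMap) ?_ hy
  rintro _ ⟨w, hw : w.length = J, rfl⟩
  have h := alt_word S (m := m) w hw.le
  rw [hw, show decide (J % 2 = 0) = false by simp [hJ]] at h
  simp [h, co_apply (show m + J < 2 * m + J + 2 by omega), vU_co]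

end

lemma co_one (hn : 1 < n) (h0 : sl 0 = true) (u : W × (Fin n → F) × W) :
    co n 1 (rU S n sl (ι F false) u).2.1 = 0 := by
  rw [co_apply hn, rU_ι, edges_apply]
  simp only [Prod.snd_add, Prod.fst_add, Pi.add_apply, Prod.snd_sum, Prod.fst_sum,
    Finset.sum_apply, Bool.false_eq_true, if_false, Prod.smul_snd, Prod.smul_fst, Pi.smul_apply,
    vU_co]
  rw [Finset.sum_eq_zero]
  · simp
  intro j _
  split_ifs with h
  · rw [vU_co, if_neg, smul_zero]
    intro h1
    rw [show (j : ℕ) = 0 by simpa using h1, h0] at h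
    exact absurd h (by simp)
  · simp

end Pool.Agent.Lib.MP_9675a1_al
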