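import Pool.Agent.Lib.MP_9675a1_al.Basic

/-!
# The module of a homogeneous functional
-/

set_option autoImplicit false

noncomputable section

namespace Pool.Agent.Lib.MP_9675a1_al

/-- A module generated by `e` and cogenerated by `lam`, at distance exactly `L`. -/
structure Seg (F : Type) [Field F] (V : Type) [AddCommGroup V] [Module F V] (L : ℕ) where
  ρ : T F →ₐ[F] Module.End F V
  e : V
  lam : V →ₗ[F] F
  deg : ∀ m : List Bool, m.length ≠ L → lam (ρ (wd m) e) = 0
  ne : ∃ m, lam (ρ (wd m) e) ≠ 0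
  gen : ∀ v, ∃ x, ρ x e = v
  cogen : ∀ v, (∀ m, lam (ρ (wd m) v) = 0) → v = 0

variable {F : Type} [Field F]

/-- Sketch. `N : Submodule (T F) (T F)` (a left ideal) with carrier `{x | ∀ u, φ (u * x) = 0}`,
`V = T F ⧸ N`, `ρ = Algebra.lsmul F F V`, `e = mk 1`, `lam` induced by `φ` (use
`(N.restrictScalars F).liftQ` and `Submodule.Quotient.restrictScalarsEquiv`, or instead take for `V`
the range of the linear map `x ↦ φ ∘ₗ LinearMap.mulRight F x`). For `cogen` use `lin_ext`. -/
theorem exists_seg (φ : T F →ₗ[F] F) (L : ℕ) (h1 : ∀ m : List Bool, m.length ≠ L → φ (wd m) = 0)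
    (h2 : ∃ m, φ (wd m) ≠ 0) :
    ∃ (V : Type) (_ : AddCommGroup V) (_ : Module F V) (S : Seg F V L),
      ∀ r, (∀ x y, φ (x * r * y) = 0) → S.ρ r = 0 := by
  let N : Submodule (T F) (T F) :=
    { carrier := {x | ∀ u, φ (u * x) = 0}
      add_mem' := fun {a b} ha hb u => by rw [mul_add, map_add, ha u, hb u, add_zero]
      zero_mem' := fun u => by rw [mul_zero, map_zero]
      smul_mem' := fun c x hx u => by rw [smul_eq_mul, ← mul_assoc]; exact hx _ }
  have hN : ∀ x, x ∈ N ↔ ∀ u, φ (u * x) = 0 := fun x => Iff.rfl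
  let lam : (T F ⧸ N) →ₗ[F] F :=
    ((N.restrictScalars F).liftQ φ fun x hx => by
      have := (hN x).mp hx 1
      rwa [one_mul] at this) ∘ₗ (Submodule.Quotient.restrictScalarsEquiv F N).symm.toLinearMap
  have hlam : ∀ x, lam (Submodule.Quotient.mk x) = φ x := fun x => rfl
  have hρ : ∀ x y : T F, Algebra.lsmul F F (T F ⧸ N) x (Submodule.Quotient.mk y) =
      Submodule.Quotient.mk (x * y) := fun x y => by
    rw [Algebra.lsmul_apply, ← Submodule.Quotient.mk_smul, smul_eq_mul]
  refine ⟨T F ⧸ N, inferInstance, inferInstance,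
    ⟨Algebra.lsmul F F (T F ⧸ N), Submodule.Quotient.mk 1, lam, fun m hm => ?_, ?_, fun v => ?_,
      fun v hv => ?_⟩, fun r hr => ?_⟩
  · rw [hρ, hlam, mul_one]; exact h1 m hm
  · obtain ⟨m, hm⟩ := h2
    exact ⟨m, by rwa [hρ, hlam, mul_one]⟩
  · obtain ⟨x, rfl⟩ := Submodule.Quotient.mk_surjective N v
    exact ⟨x, by rw [hρ, mul_one]⟩
  · obtain ⟨x, rfl⟩ := Submodule.Quotient.mk_surjective N v
    rw [Submodule.Quotient.mk_eq_zero, hN]
    have h : φ ∘ₗ LinearMap.mulRight F x = 0 := lin_ext fun m => by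
      have := hv m
      rw [hρ, hlam] at this
      simpa using this
    intro u
    simpa using LinearMap.congr_fun h u
  · refine LinearMap.ext fun v => ?_
    obtain ⟨x, rfl⟩ := Submodule.Quotient.mk_surjective N v
    change Algebra.lsmul F F (T F ⧸ N) r (Submodule.Quotient.mk x) = 0
    rw [hρ, Submodule.Quotient.mk_eq_zero, hN]
    intro u
    rw [← mul_assoc]
    exact hr u x

namespace Seg

variable {V : Type} [AddCommGroup V] [Module F V] {L : ℕ} (S : Seg F V L)

/-- Sketch: for `v = ρ y e` and a word `m`, `wd m * x * y ∈ Ge F (L+1)`, which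
`z ↦ lam (ρ z e)` kills (`Sp_zero`); then `cogen`. -/
lemma high {x : T F} (hx : x ∈ Ge F (L + 1)) : S.ρ x = 0 := by
  refine LinearMap.ext fun v => S.cogen _ fun m => ?_
  obtain ⟨y, rfl⟩ := S.gen v
  have h := Sp_zero (S.lam ∘ₗ (LinearMap.applyₗ S.e) ∘ₗ S.ρ.toLinearMap)
    (P := fun k => L + 1 ≤ k) (fun m hm => S.deg m (by omega))
    (Ge_mul_right (Ge_mul_left (wd m) hx) y)
  simpa using h

/-- Sketch: `V` is spanned by all `ρ (wd m) e` (`span_wd`, `gen`), and those with `L < m.length`
vanish. -/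
lemma span_short :
    Submodule.span F {v | ∃ m : List Bool, m.length ≤ L ∧ S.ρ (wd m) S.e = v} = ⊤ := by
  rw [eq_top_iff]
  intro v _
  obtain ⟨x, rfl⟩ := S.gen v
  refine Sp_map ((LinearMap.applyₗ S.e) ∘ₗ S.ρ.toLinearMap) (P := fun k => 0 ≤ k)
    (fun m _ => ?_) (mem_Ge_zero x)
  change S.ρ (wd m) S.e ∈ _
  by_cases hm : m.length ≤ L
  · exact Submodule.subset_span ⟨m, hm, rfl⟩
  · rw [S.high (wd_mem (by omega : L + 1 ≤ m.length))]
    exact zero_mem _

include S in
/-- Sketch: `span_short` and `List.finite_length_le`. -/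
lemma finite : FiniteDimensional F V := by
  refine ⟨⟨((List.finite_length_le Bool L).image fun m => S.ρ (wd m) S.e).toFinset, ?_⟩⟩
  rw [Set.Finite.coe_toFinset]
  exact S.span_short

include S in
/-- Sketch: take `m` from `ne` (its length is `L`). The vectors `ρ (wd (m.drop i)) e`, `i ≤ L`, and the
functionals `lam ∘ ρ (wd (m.take i))` are biorthogonal (by `deg`), so the vectors are linearly
independent. -/
lemma rank : L < Module.finrank F V := by
  have := S.finite
  obtain ⟨m, hm⟩ := S.ne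
  have hL : m.length = L := by
    by_contra h
    exact hm (S.deg m h)
  have hli : LinearIndependent F fun i : Fin (L + 1) => S.ρ (wd (m.drop i)) S.e := by
    rw [Fintype.linearIndependent_iff]
    intro g hg i
    have h := congrArg (fun v => S.lam (S.ρ (wd (m.take i)) v)) hg
    simp only [map_sum, map_smul, map_zero] at h
    rw [Finset.sum_eq_single i] at h
    · rw [← Module.End.mul_apply, ← map_mul, ← wd_append, List.take_append_drop, smul_eq_mul] at h
      exact (mul_eq_zero.mp h).resolve_right hm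
    · intro j _ hj
      rw [← Module.End.mul_apply, ← map_mul, ← wd_append, S.deg, smul_zero]
      have h1 := i.2
      have h2 := j.2
      have h3 : (j : ℕ) ≠ i := fun h => hj (Fin.ext h)
      rw [List.length_append, List.length_take, List.length_drop]
      omega
    · intro h
      exact absurd (Finset.mem_univ i) h
  have := hli.fintype_card_le_finrank
  rw [Fintype.card_fin] at this
  omega

/-- The constant coefficient. Sketch: with `m` from `ne` take
`ε v = lam (ρ (wd m) v) / lam (ρ (wd m) e)`; `ρ (wd m * ι s) = 0` by `high`. -/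
lemma eps : ∃ ε : V →ₗ[F] F, ε S.e = 1 ∧ ∀ s v, ε (S.ρ (FreeAlgebra.ι F s) v) = 0 := by
  obtain ⟨m, hm⟩ := S.ne
  have hL : m.length = L := by
    by_contra h
    exact hm (S.deg m h)
  refine ⟨(S.lam (S.ρ (wd m) S.e))⁻¹ • (S.lam ∘ₗ S.ρ (wd m)), ?_, fun s v => ?_⟩
  · simp [inv_mul_cancel₀ hm]
  · have h : S.ρ (wd m * FreeAlgebra.ι F s) = 0 :=
      S.high (Ge_mul (wd_mem hL.ge) (Eqd_le_Ge 1 (ι_mem s)))
    rw [LinearMap.smul_apply, LinearMap.comp_apply, ← Module.End.mul_apply, ← map_mul, h]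
    simp

end Seg

end Pool.Agent.Lib.MP_9675a1_al
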