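import Pool.Agent.Lib.MP_9675a1_al.Thin.Main

namespace Pool.Agent.Lib.MP_9675a1_al.ThinNoVariant

/-- The ball of radius `r` around `y` in the Schreier graph of the permutations `f`. -/
def ball {k : ℕ} {X : Type} (f : Fin k → Equiv.Perm X) (y : X) (r : ℕ) : Set X :=
  {z | ∃ w : FreeGroup (Fin k), w.toWord.length ≤ r ∧ FreeGroup.lift f w y = z}

/-- For a prime `p`, numbers `k`, `C`, `K`, `c` and a function `φ` there is `d` such that, for `k`
permutations `f` of any set and any point `x`: if the `p`-th powers of the words of length at most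
`d` fix the points of the `d`-ball around `x`, the balls around `x` of radius `r ≤ d` have at most
`C (r + 1) ^ K` points, and for every `y` in the `d`-ball and `r ≤ d` some set between the balls of
radius `r` and `φ r` around `y` has at most `c` points with a neighbour outside it, then the orbit
of `x` lies in the `d`-ball around `x`. -/
theorem result : ∀ p : ℕ, p.Prime → ∀ (k C K c : ℕ) (φ : ℕ → ℕ), ∃ d : ℕ,
    ∀ (X : Type) (f : Fin k → Equiv.Perm X) (x : X),
      (∀ y ∈ ball f x d, ∀ w : FreeGroup (Fin k), w.toWord.length ≤ d →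
        (FreeGroup.lift f w ^ p) y = y) →
      (∀ r : ℕ, r ≤ d → (ball f x r).ncard ≤ C * (r + 1) ^ K) →
      (∀ y ∈ ball f x d, ∀ r : ℕ, r ≤ d → ∃ A : Set X, ball f y r ⊆ A ∧ A ⊆ ball f y (φ r) ∧
        {z | z ∈ A ∧ ¬ ball f z 1 ⊆ A}.ncard ≤ c) →
      ∀ g ∈ Subgroup.closure (Set.range f), g x ∈ ball f x d := by
  intro p hp k C K c φ
  obtain ⟨d, hd⟩ := (Thin.len_free k).loc hp C K c φ
  refine ⟨d, fun X f x h1 h2 h3 g hg => ?_⟩
  rw [← FreeGroup.range_lift_eq_closure] at hg
  obtain ⟨v, rfl⟩ := hg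
  let := MulAction.compHom X (FreeGroup.lift f)
  exact hd X x (fun y hy w e => (DFunLike.congr_fun (map_pow (FreeGroup.lift f) w p) _).trans
    (h1 y hy w e)) h2 h3 v

end Pool.Agent.Lib.MP_9675a1_al.ThinNoVariant
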